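import Pool.Agent.Work.MP_2a05c6_ag.Geo

/-! The smooth quadric threefold as an example of admissible smooth Fano data with `r = 2`. -/

set_option autoImplicit false

namespace Pool.Agent.Work.MP_2a05c6_ag

open MvPolynomial

/-- the data of the quadric `T 0 0 * T 0 1 + T 1 0 * T 1 1 + T 2 0 ^ 2 = 0` in `ℙ⁴` -/
@[reducible] def quadric : APData where
  r := 2
  s := 2
  m := 0
  n i := if i = 2 then 1 else 2
  l i _ := if i = 2 then 2 else 1
  a := ![![1, 0], ![0, 1], ![-1, -1]]
  d k v := match v with
    | .inl t => if t.1 = 2 then 1 else if t.1.val = k.val ∧ t.2.val + k.val = 1 then -1 else 0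
    | .inr _ => 0

namespace Quadric

abbrev v00 : quadric.Var := .inl ⟨0, ⟨0, by decide⟩⟩
abbrev v01 : quadric.Var := .inl ⟨0, ⟨1, by decide⟩⟩
abbrev v10 : quadric.Var := .inl ⟨1, ⟨0, by decide⟩⟩
abbrev v11 : quadric.Var := .inl ⟨1, ⟨1, by decide⟩⟩
abbrev v20 : quadric.Var := .inl ⟨2, ⟨0, by decide⟩⟩

theorem cases (v : quadric.Var) : v = v00 ∨ v = v01 ∨ v = v10 ∨ v = v11 ∨ v = v20 := by
  revert v; decide

theorem univ_eq : (Finset.univ : Finset quadric.Var) = {v00, v01, v10, v11, v20} := by decide

theorem sum_var {M : Type} [AddCommMonoid M] (f : quadric.Var → M) :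
    ∑ v, f v = f v00 + f v01 + f v10 + f v11 + f v20 := by
  rw [univ_eq, Finset.sum_insert (by decide), Finset.sum_insert (by decide),
    Finset.sum_insert (by decide), Finset.sum_insert (by decide), Finset.sum_singleton]
  simp only [add_assoc]

/-- numbering of the variables -/
def idx (v : quadric.Var) : Fin 5 :=
  if v = v00 then 0 else if v = v01 then 1 else if v = v10 then 2 else if v = v11 then 3 else 4

theorem adm : quadric.Admissible where
  r_pos := by decide
  n_pos := by decide
  l_pos := by decide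
  a_indep i j h := by
    fin_cases i <;> fin_cases j <;> simp_all [APData.det2]
  col_ne := by decide
  col_primitive v t h := by
    obtain ⟨k, hk⟩ : ∃ k, quadric.P k v = 1 ∨ quadric.P k v = -1 := by
      clear h; revert v; decide
    refine isUnit_of_dvd_unit (h k) ?_
    rcases hk with hk | hk <;> simp [hk]
  col_cone y := by
    have a1 := abs_le.1 (le_refl |y (.inl 0)|)
    have a2 := abs_le.1 (le_refl |y (.inl 1)|)
    have a3 := abs_le.1 (le_refl |y (.inr 0)|)
    have a4 := abs_le.1 (le_refl |y (.inr 1)|)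
    have b1 := abs_nonneg (y (.inl 0))
    have b2 := abs_nonneg (y (.inl 1))
    have b3 := abs_nonneg (y (.inr 0))
    have b4 := abs_nonneg (y (.inr 1))
    refine ⟨fun v => |y (.inl 0)| + |y (.inl 1)| + |y (.inr 0)| + |y (.inr 1)| +
      ![y (.inr 0) - y (.inl 1), -y (.inr 0), -y (.inr 1),
        y (.inl 0) - y (.inl 1) + y (.inr 1), 0] (idx v), fun v => ?_, fun k => ?_⟩
    · beta_reduce
      generalize idx v = i
      fin_cases i <;> simp <;> linarith [a1.1, a1.2, a2.1, a2.2, a3.1, a3.2, a4.1, a4.2]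
    · rw [sum_var]
      have e : ∀ k v, quadric.P k v = (Sum.elim ![![-1, -1, 1, 1, 0], ![-1, -1, 0, 0, 2]]
        ![![0, -1, 0, 0, 1], ![0, 0, -1, 0, 1]] k : Fin 5 → ℤ) (idx v) := by decide
      have e0 : idx v00 = 0 := by decide
      have e1 : idx v01 = 1 := by decide
      have e2 : idx v10 = 2 := by decide
      have e3 : idx v11 = 3 := by decide
      have e4 : idx v20 = 4 := by decide
      simp only [e, e0, e1, e2, e3, e4]
      rcases k with k | k <;> fin_cases k <;> simp <;> ring

theorem deg_eq (v : quadric.Var) : quadric.deg v = quadric.deg v20 := by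
  have m : ∀ k, quadric.P k ∈ Submodule.span ℤ (Set.range quadric.P) :=
    fun k => Submodule.subset_span ⟨k, rfl⟩
  refine (Submodule.Quotient.eq _).2 ?_
  obtain ⟨c, hc⟩ : ∃ c : Fin 4 → ℤ, (Pi.single v 1 - Pi.single v20 1 : quadric.Var → ℤ) =
      c 0 • quadric.P (.inl 0) + c 1 • quadric.P (.inl 1) + c 2 • quadric.P (.inr 0) +
        c 3 • quadric.P (.inr 1) := by
    rcases cases v with rfl | rfl | rfl | rfl | rfl
    exacts [⟨![0, -1, 1, 0], by decide⟩, ⟨![0, 0, -1, 0], by decide⟩, ⟨![0, 0, 0, -1], by decide⟩,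
      ⟨![1, -1, 0, 1], by decide⟩, ⟨![0, 0, 0, 0], by decide⟩]
  rw [hc]
  exact add_mem (add_mem (add_mem (Submodule.smul_mem _ _ (m _)) (Submodule.smul_mem _ _ (m _)))
    (Submodule.smul_mem _ _ (m _))) (Submodule.smul_mem _ _ (m _))

theorem antican_eq : quadric.antican = 3 • quadric.deg v20 := by
  unfold APData.antican
  simp only [deg_eq, Finset.sum_const]
  have h1 : (Finset.univ : Finset quadric.Var).card = 5 := by decide
  have h2 : (Finset.univ : Finset (Fin (quadric.n 0))).card = 2 := by decide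
  have h3 : (if (0 : Fin (2 + 1)) = 2 then 2 else 1) = 1 := by decide
  rw [h1, h2, h3]
  abel

/-- the total degree -/
noncomputable def tot : quadric.K →ₗ[ℤ] ℤ :=
  Submodule.liftQ _ (∑ v, LinearMap.proj v) (Submodule.span_le.2 (by
    rintro _ ⟨k, rfl⟩
    have : ∑ v, quadric.P k v = 0 := by revert k; decide
    simpa [LinearMap.sum_apply] using this))

theorem tot_deg : tot (quadric.deg v20) = 1 := by
  simp [tot, APData.deg, LinearMap.sum_apply, Pi.single_apply, -Fintype.sum_sum_type]

theorem rel_eq (t : Fin (quadric.r - 1)) :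
    quadric.rel t = X v00 * X v01 + X v10 * X v11 + X v20 ^ 2 := by
  obtain rfl : t = ⟨0, by decide⟩ := by revert t; decide
  have h0 : quadric.mono 0 = X v00 * X v01 := by
    unfold APData.mono
    exact (Fin.prod_univ_two _).trans (by simp; rfl)
  have h1 : quadric.mono 1 = X v10 * X v11 := by
    unfold APData.mono
    exact (Fin.prod_univ_two _).trans (by simp; rfl)
  have h2 : quadric.mono 2 = X v20 ^ 2 := by
    unfold APData.mono
    exact (Fin.prod_univ_one _).trans (by simp; rfl)
  change quadric.tri 0 1 2 = _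
  simp [APData.tri, h0, h1, h2, APData.det2]

theorem ne_zero {x : quadric.Var → ℂ} (hx : quadric.Semistable x) : ∃ v, x v ≠ 0 := by
  obtain ⟨-, k, hk, f, hf, hx⟩ := hx
  by_contra h
  push Not at h
  obtain rfl : x = 0 := funext h
  rw [eval_zero] at hx
  have h1 := congrArg tot (hf (d := 0) hx)
  rw [antican_eq, map_zero, map_zero, map_nsmul, map_nsmul, tot_deg] at h1
  simp at h1
  omega

theorem smoothFano : quadric.SmoothFano := by
  refine ⟨⟨Pi.single v00 1, fun t => ?_, 1, one_pos, X v00 ^ 3, ?_, by simp⟩, fun x hx => ?_⟩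
  · rw [rel_eq]
    simp
  · rw [antican_eq, one_smul, ← deg_eq v00]
    exact (isWeightedHomogeneous_X ℂ quadric.deg v00).pow 3
  obtain ⟨v, hv⟩ := ne_zero hx
  refine ⟨?_, fun χ h => ?_⟩
  · unfold APData.SmoothAt
    have : Unique (Fin (quadric.r - 1)) := inferInstanceAs (Unique (Fin 1))
    rw [linearIndependent_unique_iff, rel_eq]
    intro h
    have k := fun w => congrFun h w
    have k0 := k v00
    have k1 := k v01
    have k2 := k v10
    have k3 := k v11
    have k4 := k v20
    simp [pderiv_X] at k0 k1 k2 k3 k4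
    rcases cases v with rfl | rfl | rfl | rfl | rfl <;> contradiction
  · have h1 : χ (.ofAdd (quadric.deg v20)) = 1 := by
      have := h v
      rw [deg_eq] at this
      exact Units.ext (mul_right_cancel₀ hv (this.trans (by simp)))
    refine MonoidHom.ext fun z => ?_
    obtain ⟨u, hu⟩ := Submodule.Quotient.mk_surjective _ (Multiplicative.toAdd z)
    have h2 : Multiplicative.toAdd z = (∑ w, u w) • quadric.deg v20 := by
      rw [← hu, Finset.sum_smul, pi_eq_sum_univ' u, ← Submodule.mkQ_apply, map_sum]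
      refine Finset.sum_congr rfl fun w _ => ?_
      rw [map_smul, Submodule.mkQ_apply, ← deg_eq w]
      simp [APData.deg, Pi.single_apply]
    rw [← ofAdd_toAdd z, h2, ofAdd_zsmul, map_zpow, h1, one_zpow, MonoidHom.one_apply]

end Quadric

end Pool.Agent.Work.MP_2a05c6_ag
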