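import Mathlib

/-!
The Cox ring description `X(A, P, u)` of the rational projective varieties with a torus action of
complexity one (Hausen, Herppich, Suess; Arzhantsev, Derenthal, Hausen, Laface, Cox rings, 3.4).
-/

set_option autoImplicit false

namespace Pool.Agent.Work.MP_2a05c6_ag

open MvPolynomial

/-- The defining data: exponents `l i j`, vectors `a 0, …, a r` in `ℂ²` and the lower block
`(d, d')` of the matrix `P`. -/
structure APData where
  r : ℕ
  s : ℕ
  m : ℕ
  n : Fin (r + 1) → ℕ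
  l : (i : Fin (r + 1)) → Fin (n i) → ℕ
  a : Fin (r + 1) → Fin 2 → ℂ
  d : Fin s → ((Σ i : Fin (r + 1), Fin (n i)) ⊕ Fin m) → ℤ

namespace APData

variable (D : APData)

/-- the variables `T i j` and `S k` -/
abbrev Var : Type := (Σ i : Fin (D.r + 1), Fin (D.n i)) ⊕ Fin D.m

/-- the exponent vector of the monomial `T i ^ l i` -/
def expo (i : Fin (D.r + 1)) : D.Var → ℤ
  | .inl t => if t.1 = i then D.l t.1 t.2 else 0
  | .inr _ => 0

/-- the `(r + s) × (n + m)` matrix `P`: rows `(-l 0, 0, …, l i, …, 0)` and the rows of `(d, d')` -/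
def P : Fin D.r ⊕ Fin D.s → D.Var → ℤ
  | .inl i => D.expo i.succ - D.expo 0
  | .inr k => D.d k

def det2 (u v : Fin 2 → ℂ) : ℂ := u 0 * v 1 - u 1 * v 0

/-- the standing conditions on `(A, P)` -/
structure Admissible : Prop where
  r_pos : 1 ≤ D.r
  n_pos : ∀ i, 1 ≤ D.n i
  l_pos : ∀ i j, 1 ≤ D.l i j
  a_indep : ∀ i j, i ≠ j → det2 (D.a i) (D.a j) ≠ 0
  col_ne : ∀ v w, (∀ k, D.P k v = D.P k w) → v = w
  col_primitive : ∀ v (t : ℤ), (∀ k, t ∣ D.P k v) → IsUnit t
  col_cone : ∀ y : Fin D.r ⊕ Fin D.s → ℚ, ∃ t : D.Var → ℚ, (∀ v, 0 ≤ t v) ∧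
    ∀ k, y k = ∑ v, t v * D.P k v

/-- the grading group `K = ℤ ^ (n + m) / im (Pᵀ)` -/
abbrev K : Type := (D.Var → ℤ) ⧸ Submodule.span ℤ (Set.range D.P)

/-- the degrees of the variables -/
def deg (v : D.Var) : D.K := Submodule.Quotient.mk (Pi.single v 1)

/-- the monomial `T i ^ l i` -/
noncomputable def mono (i : Fin (D.r + 1)) : MvPolynomial D.Var ℂ :=
  ∏ j, X (.inl ⟨i, j⟩) ^ D.l i j

/-- the trinomial `g` of a triple of indices -/
noncomputable def tri (i j k : Fin (D.r + 1)) : MvPolynomial D.Var ℂ :=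
  C (det2 (D.a j) (D.a k)) * D.mono i + C (det2 (D.a k) (D.a i)) * D.mono j +
    C (det2 (D.a i) (D.a j)) * D.mono k

/-- the relations `g 0, …, g (r - 2)` of the ring `R(A, P)` -/
noncomputable def rel (t : Fin (D.r - 1)) : MvPolynomial D.Var ℂ :=
  D.tri ⟨t, by omega⟩ ⟨t + 1, by omega⟩ ⟨t + 2, by omega⟩

/-- the anticanonical class: the sum of the degrees of the variables minus `r - 1` times the
common degree of the relations -/
def antican : D.K := ∑ v, D.deg v - (D.r - 1) • ∑ j, D.l 0 j • D.deg (.inl ⟨0, j⟩)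

/-- the points of the total coordinate space that are semistable for the anticanonical class -/
def Semistable (x : D.Var → ℂ) : Prop :=
  (∀ t, eval x (D.rel t) = 0) ∧ ∃ k : ℕ, 0 < k ∧ ∃ f : MvPolynomial D.Var ℂ,
    f.IsWeightedHomogeneous D.deg (k • D.antican) ∧ eval x f ≠ 0

/-- the Jacobian matrix of the relations has full rank at `x` -/
def SmoothAt (x : D.Var → ℂ) : Prop :=
  LinearIndependent ℂ fun (t : Fin (D.r - 1)) (v : D.Var) => eval x (pderiv v (D.rel t))

/-- the quasitorus `H = Hom (K, ℂˣ)` has trivial isotropy group at `x` -/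
def FreeAt (x : D.Var → ℂ) : Prop :=
  ∀ χ : Multiplicative D.K →* ℂˣ, (∀ v, χ (.ofAdd (D.deg v)) * x v = x v) → χ = 1

/-- the semistable locus of the anticanonical class is nonempty and smooth and `H` acts freely -/
def SmoothFano : Prop :=
  (∃ x, D.Semistable x) ∧ ∀ x, D.Semistable x → D.SmoothAt x ∧ D.FreeAt x

end APData

end Pool.Agent.Work.MP_2a05c6_ag
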