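import Mathlib
import Pool.Agent.Work.MP_2a05c6_ag.Geo

-- merged part: Pool.Agent.Work.MP_2a05c6_ag.Defs
section
/-!
Combinatorial data of a smooth Fano variety with a torus action of complexity one: the variables
`V` of the Cox ring, the leaves `I`, the exponents `l`, the lattice `ZD` of principal invariant
divisors and its rational span `Dir`.  The polytope `B` consists of the effective invariant
anticanonical divisors.
-/

set_option autoImplicit false

namespace Pool.Agent.Work.MP_2a05c6_ag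

open Finset

structure Cx (I V : Type) where
  lf : V → Option I
  l : V → ℕ
  Dir : Submodule ℚ (V → ℚ)
  ZD : AddSubgroup (V → ℚ)

namespace Cx

variable {I V : Type} [Fintype I] [Fintype V] [DecidableEq I] [DecidableEq V] (C : Cx I V)

/-- the combination of the fibres with coefficients `c` -/
def Lc (c : I → ℚ) (v : V) : ℚ := (C.lf v).elim 0 fun i => c i * C.l v

def Pt (x : V → ℚ) : Prop :=
  ∃ c : I → ℚ, ∑ i, c i = 2 - Fintype.card I ∧ x - (1 + C.Lc c) ∈ C.Dir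

def B (x : V → ℚ) : Prop := C.Pt x ∧ ∀ v, 0 ≤ x v

def Zl (x : V → ℚ) (i : I) : Prop := ∃ v, C.lf v = some i ∧ x v = 0

def Ell (x : V → ℚ) : Prop := ∀ i, C.Zl x i

/-- `v` is horizontal or lies in a leaf of `F` -/
def In (F : Finset I) (v : V) : Prop := ∀ i, C.lf v = some i → i ∈ F

def Tu (τ : I → V) : Prop := ∀ i, C.lf (τ i) = some i

def ts (F : Finset I) (τ : I → V) (x : V → ℚ) : ℚ := ∑ i ∈ Fᶜ, x (τ i) / C.l (τ i)

/-- coefficients of a correction off `F` -/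
def Co (F : Finset I) (c : I → ℚ) : Prop := (∀ i ∈ F, c i = 0) ∧ ∑ i, c i = 0

def IsZ (x : V → ℚ) : Prop := ∀ v, ∃ k : ℤ, x v = k

structure Good : Prop where
  two : 2 ≤ Fintype.card I
  lpos : ∀ v i, C.lf v = some i → 0 < C.l v
  ne : ∀ i, ∃ v, C.lf v = some i
  le : ∀ e ∈ C.ZD, e ∈ C.Dir
  int : ∀ e ∈ C.ZD, IsZ e
  LZ : ∀ c : I → ℚ, (∀ i, ∃ k : ℤ, c i = k) → ∑ i, c i = 0 → C.Lc c ∈ C.ZD
  LQ : ∀ c : I → ℚ, ∑ i, c i = 0 → C.Lc c ∈ C.Dir
  sat : ∀ c : I → ℚ, ∑ i, c i = 0 → C.Lc c ∈ C.ZD → ∀ i, ∃ k : ℤ, c i = k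
  bdd : ∀ e ∈ C.Dir, (∀ v, 0 ≤ e v) → e = 0
  hor : ∀ v, C.lf v = none → ∃ e ∈ C.Dir, e v ≠ 0
  nem : ∃ x, C.B x
  surjL : ∀ x y, C.B x → C.Zl x y → ∀ g, IsZ g → ∃ e ∈ C.ZD, ∀ v, C.In {y} v → x v = 0 → e v = g v
  surjE : ∀ x, C.B x → C.Ell x → ∀ g, IsZ g → ∃ e ∈ C.ZD, ∀ v, x v = 0 → e v = g v
  jac : ∀ x, C.B x → C.Ell x → ∃ a b : I, a ≠ b ∧ ∀ z, z ≠ a → z ≠ b →
    ∃ w, C.lf w = some z ∧ C.l w = 1 ∧ ∀ v, C.lf v = some z → (x v = 0 ↔ v = w)

variable {C} {F : Finset I} {x e : V → ℚ} {c : I → ℚ} {τ : I → V} {v : V} {i : I}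

omit [Fintype I] [Fintype V] [DecidableEq I] [DecidableEq V] in
theorem Lc_some (h : C.lf v = some i) : C.Lc c v = c i * C.l v := by simp [Lc, h]

omit [Fintype I] [Fintype V] [DecidableEq I] [DecidableEq V] in
theorem Lc_none (h : C.lf v = none) : C.Lc c v = 0 := by simp [Lc, h]

omit [Fintype I] [Fintype V] [DecidableEq I] [DecidableEq V] in
theorem Lc_in (h : C.In F v) (hc : ∀ i ∈ F, c i = 0) : C.Lc c v = 0 := by
  rcases k : C.lf v with _ | i
  · exact Lc_none k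
  · rw [Lc_some k, hc i (h i k), zero_mul]

omit [Fintype I] [Fintype V] [DecidableEq I] [DecidableEq V] in
theorem Lc_add (c c' : I → ℚ) : C.Lc (c + c') = C.Lc c + C.Lc c' := by
  funext v
  rcases k : C.lf v with _ | i
  · simp [Lc_none k]
  · simp [Lc_some k, add_mul]

omit [Fintype I] [Fintype V] [DecidableEq I] [DecidableEq V] in
theorem Lc_smul (t : ℚ) (c : I → ℚ) : C.Lc (t • c) = t • C.Lc c := by
  funext v
  rcases k : C.lf v with _ | i
  · simp [Lc_none k]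
  · simp [Lc_some k, mul_assoc]

omit [Fintype I] [Fintype V] [DecidableEq I] [DecidableEq V] in
theorem Lc_neg (c : I → ℚ) : C.Lc (-c) = -C.Lc c := by
  rw [← neg_one_smul ℚ c, Lc_smul, neg_one_smul]

omit [Fintype I] [Fintype V] [DecidableEq I] [DecidableEq V] in
theorem Lc_zero : C.Lc 0 = 0 := by
  rw [← zero_smul ℚ (0 : I → ℚ), Lc_smul, zero_smul]

omit [Fintype V] [DecidableEq V] in
theorem ts_add (x y : V → ℚ) : C.ts F τ (x + y) = C.ts F τ x + C.ts F τ y := by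
  simp only [ts, Pi.add_apply, add_div, sum_add_distrib]

omit [Fintype V] [DecidableEq V] in
theorem ts_smul (t : ℚ) (x : V → ℚ) : C.ts F τ (t • x) = t * C.ts F τ x := by
  simp only [ts, Pi.smul_apply, smul_eq_mul, mul_sum, mul_div_assoc]

omit [Fintype V] [DecidableEq V] in
theorem Good.lq (h : C.Good) (k : C.lf v = some i) : (0 : ℚ) < C.l v := by
  exact_mod_cast h.lpos v i k

omit [Fintype V] [DecidableEq V] in
theorem Good.ts_Lc (h : C.Good) (hτ : C.Tu τ) : C.ts F τ (C.Lc c) = ∑ i ∈ Fᶜ, c i :=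
  sum_congr rfl fun i _ => by
    rw [Lc_some (hτ i), mul_div_assoc, div_self (h.lq (hτ i)).ne', mul_one]

omit [Fintype V] [DecidableEq V] in
theorem Good.ts_co (h : C.Good) (hτ : C.Tu τ) (hc : Co F c) : C.ts F τ (C.Lc c) = 0 := by
  rw [h.ts_Lc hτ, ← hc.2, ← sum_add_sum_compl F, sum_eq_zero hc.1, zero_add]

omit [Fintype V] [DecidableEq V] in
theorem ts_nonneg (hx : ∀ v, 0 ≤ x v) : 0 ≤ C.ts F τ x :=
  sum_nonneg fun _ _ => div_nonneg (hx _) (Nat.cast_nonneg _)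

omit [Fintype V] [DecidableEq V] in
theorem Good.tight (h : C.Good) (hτ : C.Tu τ) (hx : ∀ v, 0 ≤ x v) (h0 : C.ts F τ x = 0)
    (hi : i ∉ F) : x (τ i) = 0 := by
  have := (sum_eq_zero_iff_of_nonneg fun j _ =>
    div_nonneg (hx (τ j)) (Nat.cast_nonneg (C.l (τ j)))).1 h0 i (mem_compl.2 hi)
  exact (div_eq_zero_iff.1 this).resolve_right (h.lq (hτ i)).ne'

omit [Fintype V] [DecidableEq I] [DecidableEq V] in
theorem Pt.add (hx : C.Pt x) (he : e ∈ C.Dir) : C.Pt (x + e) := by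
  obtain ⟨c, h1, h2⟩ := hx
  refine ⟨c, h1, ?_⟩
  rw [show x + e - (1 + C.Lc c) = x - (1 + C.Lc c) + e by abel]
  exact C.Dir.add_mem h2 he

omit [Fintype V] [DecidableEq I] [DecidableEq V] in
theorem pt_Lc (hc : ∑ i, c i = 2 - Fintype.card I) : C.Pt (1 + C.Lc c) :=
  ⟨c, hc, by rw [sub_self]; exact C.Dir.zero_mem⟩

omit [Fintype V] [DecidableEq V] in
theorem Good.sub (h : C.Good) {y : V → ℚ} (hx : C.Pt x) (hy : C.Pt y) : x - y ∈ C.Dir := by
  obtain ⟨c, h1, h2⟩ := hx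
  obtain ⟨c', h3, h4⟩ := hy
  have h5 := h.LQ (c + -c') (by simp [sum_add_distrib, h1, h3])
  rw [Lc_add, Lc_neg] at h5
  rw [show x - y = x - (1 + C.Lc c) - (y - (1 + C.Lc c')) + (C.Lc c + -C.Lc c') by abel]
  exact C.Dir.add_mem (C.Dir.sub_mem h2 h4) h5

omit [DecidableEq V] in
theorem Good.exists_min (h : C.Good) (y : V → ℚ) : ∃ τ, C.Tu τ ∧
    ∀ v i, C.lf v = some i → y (τ i) / C.l (τ i) ≤ y v / C.l v := by
  have : ∀ i, ∃ w, C.lf w = some i ∧ ∀ v, C.lf v = some i → y w / C.l w ≤ y v / C.l v := fun i => by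
    obtain ⟨v, hv⟩ := h.ne i
    obtain ⟨w, h1, h2⟩ := exists_min_image (univ.filter fun v => C.lf v = some i)
      (fun v => y v / C.l v) ⟨v, by simp [hv]⟩
    exact ⟨w, by simpa using h1, fun v hv => h2 v (by simp [hv])⟩
  choose τ h1 h2 using this
  exact ⟨τ, h1, fun v i => h2 i v⟩

/-- the correction that puts all the slack into the leaf `b` -/
def sh (C : Cx I V) (F : Finset I) (τ : I → V) (y : V → ℚ) (b i : I) : ℚ :=
  if i ∈ F then 0 else (if i = b then C.ts F τ y else 0) - y (τ i) / C.l (τ i)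

omit [Fintype V] [DecidableEq V] in
theorem sh_co {b : I} (hb : b ∉ F) (y : V → ℚ) : Co F (C.sh F τ y b) := by
  refine ⟨fun i hi => if_pos hi, ?_⟩
  rw [← sum_add_sum_compl F, sum_eq_zero fun i hi => show C.sh F τ y b i = 0 from if_pos hi,
    zero_add, sum_congr rfl fun i hi => show C.sh F τ y b i = _ from if_neg (mem_compl.1 hi),
    sum_sub_distrib, sum_ite_eq', if_pos (mem_compl.2 hb)]
  exact sub_self _

omit [Fintype V] [DecidableEq V] in
theorem Good.sh_val (h : C.Good) {b : I} {y : V → ℚ} (hv : C.lf v = some i) (hi : i ∉ F) :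
    (y + C.Lc (C.sh F τ y b)) v = C.l v * (y v / C.l v - y (τ i) / C.l (τ i) +
      if i = b then C.ts F τ y else 0) := by
  have := (h.lq hv).ne'
  rw [Pi.add_apply, Lc_some hv, sh, if_neg hi]
  field_simp
  ring

omit [DecidableEq V] in
theorem Good.corr (h : C.Good) {y : V → ℚ} (h1 : ∀ v, C.In F v → 0 ≤ y v)
    (h2 : ∀ τ, C.Tu τ → 0 ≤ C.ts F τ y) : ∃ c, Co F c ∧ ∀ v, 0 ≤ (y + C.Lc c) v := by
  by_cases hF : ∃ b, b ∉ F
  · obtain ⟨b, hb⟩ := hF
    obtain ⟨τ, hτ, hm⟩ := h.exists_min y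
    refine ⟨_, sh_co (C := C) (τ := τ) hb y, fun v => ?_⟩
    by_cases hv : C.In F v
    · rw [Pi.add_apply, Lc_in hv (sh_co hb y).1, add_zero]
      exact h1 v hv
    · simp only [In, not_forall] at hv
      obtain ⟨i, k1, k2⟩ := hv
      rw [h.sh_val k1 k2]
      have := hm v i k1
      have := h2 τ hτ
      refine mul_nonneg (Nat.cast_nonneg _) ?_
      split_ifs <;> linarith
  · refine ⟨0, ⟨fun _ _ => rfl, by simp⟩, fun v => ?_⟩
    rw [Lc_zero, add_zero]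
    exact h1 v fun i _ => by_contra fun k => hF ⟨i, k⟩

end Cx

end Pool.Agent.Work.MP_2a05c6_ag
end

-- merged part: Pool.Agent.Work.MP_2a05c6_ag.Move
section
/-!
Moving along a direction until a constraint becomes tight, descent to a vertex.
-/

set_option autoImplicit false
set_option linter.unusedSectionVars false

namespace Pool.Agent.Work.MP_2a05c6_ag

open Finset

theorem first_hit {J : Type} [Finite J] (ok : J → Prop) (p q : J → ℚ) (hp : ∀ j, ok j → 0 ≤ p j)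
    (hq : ∃ j, ok j ∧ q j < 0) : ∃ t, 0 ≤ t ∧ (∀ j, ok j → 0 ≤ p j + t * q j) ∧
      ∃ j, ok j ∧ q j < 0 ∧ p j + t * q j = 0 := by
  classical
  have := Fintype.ofFinite J
  obtain ⟨j0, h0⟩ := hq
  obtain ⟨j, h1, h2⟩ := exists_min_image (univ.filter fun j => ok j ∧ q j < 0)
    (fun j => p j / -q j) ⟨j0, by simpa using h0⟩
  obtain ⟨h3, h4⟩ : ok j ∧ q j < 0 := by simpa using h1
  have h5 : 0 ≤ p j / -q j := div_nonneg (hp j h3) (by linarith)
  refine ⟨p j / -q j, h5, fun k hk => ?_, j, h3, h4, ?_⟩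
  · rcases lt_or_ge (q k) 0 with h6 | h6
    · have := (le_div_iff₀ (show 0 < -q k by linarith)).1 (h2 k (by simp [hk, h6]))
      linarith
    · exact add_nonneg (hp k hk) (mul_nonneg h5 h6)
  · have := h4.ne
    field_simp
    ring

namespace Cx

variable {I V : Type} [Fintype I] [Fintype V] [DecidableEq I] [DecidableEq V] {C : Cx I V}
  {F : Finset I} {x e : V → ℚ} {c : I → ℚ} {τ : I → V} {v : V} {i : I}

theorem Good.move (h : C.Good) (hx : C.B x) (he : e ∈ C.Dir)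
    (hn : ¬ ∃ c, Co F c ∧ e = C.Lc c) : ∃ t c, 0 ≤ t ∧ Co F c ∧ C.B (x + t • e + C.Lc c) ∧
      ((∃ τ, C.Tu τ ∧ C.ts F τ e < 0 ∧ C.ts F τ x + t * C.ts F τ e = 0) ∨
        ∃ v, C.In F v ∧ e v < 0 ∧ x v + t * e v = 0) := by
  obtain ⟨t, h0, h1, h2⟩ := first_hit (J := (I → V) ⊕ V) (Sum.elim C.Tu (C.In F))
    (Sum.elim (fun τ => C.ts F τ x) x) (Sum.elim (fun τ => C.ts F τ e) e)
    (by rintro (τ | v) -; exacts [ts_nonneg hx.2, hx.2 v]) (by
      by_contra k
      push Not at k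
      obtain ⟨c, k1, k2⟩ := h.corr (F := F) (y := e) (fun v hv => k (.inr v) hv)
        fun τ hτ => k (.inl τ) hτ
      have := h.bdd _ (C.Dir.add_mem he (h.LQ c k1.2)) k2
      exact hn ⟨-c, ⟨fun i hi => by simp [k1.1 i hi], by simp [k1.2]⟩,
        by rw [Lc_neg]; exact eq_neg_of_add_eq_zero_left this⟩)
  obtain ⟨c, k1, k2⟩ := h.corr (F := F) (y := x + t • e) (fun v hv => h1 (.inr v) hv)
    fun τ hτ => by rw [ts_add, ts_smul]; exact h1 (.inl τ) hτ
  refine ⟨t, c, h0, k1, ⟨(hx.1.add (C.Dir.smul_mem t he)).add (h.LQ c k1.2), k2⟩, ?_⟩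
  obtain ⟨τ | v, h3⟩ := h2
  exacts [Or.inl ⟨τ, h3⟩, Or.inr ⟨v, h3⟩]

/-- the zeros of `x` in the leaves of `F` determine the point up to corrections -/
def Rig (C : Cx I V) (F : Finset I) (x : V → ℚ) : Prop :=
  ∀ e ∈ C.Dir, (∀ v, C.In F v → x v = 0 → e v = 0) → ∃ c, Co F c ∧ e = C.Lc c

theorem Good.desc0 (h : C.Good) (G : (V → ℚ) →ₗ[ℚ] ℚ) (hG : ∀ c, Co F c → G (C.Lc c) = 0)
    (hx : C.B x) (hz : ∀ i ∈ F, C.Zl x i) : ∃ y, C.B y ∧ G y ≤ G x ∧ (∀ i ∈ F, C.Zl y i) ∧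
      (((∃ b, b ∉ F) ∧ C.Ell y) ∨ C.Rig F y) := by
  classical
  induction hn : (univ.filter fun v => C.In F v ∧ x v ≠ 0).card using Nat.strong_induction_on
    generalizing x with
  | _ n ih =>
  by_cases hr : C.Rig F x
  · exact ⟨x, hx, le_rfl, hz, Or.inr hr⟩
  obtain ⟨e, he, h1, h2, h3⟩ : ∃ e ∈ C.Dir, (∀ v, C.In F v → x v = 0 → e v = 0) ∧
      (¬ ∃ c, Co F c ∧ e = C.Lc c) ∧ G e ≤ 0 := by
    simp only [Rig, not_forall] at hr
    obtain ⟨e, he, h1, h2⟩ := hr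
    rcases le_total (G e) 0 with k | k
    · exact ⟨e, he, h1, h2, k⟩
    · refine ⟨-e, C.Dir.neg_mem he, fun v a b => by simp [h1 v a b], ?_, by simpa using k⟩
      rintro ⟨c, k1, k2⟩
      exact h2 ⟨-c, ⟨fun i hi => by simp [k1.1 i hi], by simp [k1.2]⟩, by rw [Lc_neg, ← k2, neg_neg]⟩
  obtain ⟨t, c, t0, hc, hB, hk⟩ := h.move hx he h2
  have k1 : ∀ v, C.In F v → (x + t • e + C.Lc c) v = x v + t * e v := fun v hv => by
    simp [Lc_in hv hc.1]
  have k2 : G (x + t • e + C.Lc c) ≤ G x := by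
    rw [map_add, map_add, map_smul, hG c hc, smul_eq_mul]
    nlinarith
  have k3 : ∀ i ∈ F, C.Zl (x + t • e + C.Lc c) i := fun i hi => by
    obtain ⟨v, a, b⟩ := hz i hi
    have k : C.In F v := fun j hj => by rw [a] at hj; cases hj; exact hi
    exact ⟨v, a, by rw [k1 v k, b, h1 v k b]; simp⟩
  rcases hk with ⟨τ, hτ, a, b⟩ | ⟨v, hv, a, b⟩
  · refine ⟨_, hB, k2, k3, Or.inl ⟨?_, fun i => ?_⟩⟩
    · by_contra k
      rw [ts, sum_eq_zero fun i hi => absurd ⟨i, mem_compl.1 hi⟩ k] at a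
      exact lt_irrefl _ a
    · by_cases hi : i ∈ F
      · exact k3 i hi
      · exact ⟨τ i, hτ i, h.tight hτ hB.2 (by rw [ts_add, ts_add, ts_smul, h.ts_co hτ hc, b,
          add_zero]) hi⟩
  · obtain ⟨y, y1, y2, y3⟩ := ih _ (by
      rw [← hn]
      refine card_lt_card ⟨fun u hu => ?_, fun k => ?_⟩
      · simp only [mem_filter, mem_univ, true_and] at hu ⊢
        exact ⟨hu.1, fun k => hu.2 (by rw [k1 u hu.1, k, h1 u hu.1 k]; simp)⟩
      · have := k (mem_filter.2 ⟨mem_univ v, hv, fun k => a.ne (h1 v hv k)⟩)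
        exact (mem_filter.1 this).2.2 (by rw [k1 v hv, b])) hB k3 rfl
    exact ⟨y, y1, y2.trans k2, y3⟩

/-- elliptic vertices -/
def EV (C : Cx I V) (x : V → ℚ) : Prop :=
  C.B x ∧ C.Ell x ∧ ∀ e ∈ C.Dir, (∀ v, x v = 0 → e v = 0) → e = 0

/-- hyperbolic vertices -/
def HV (C : Cx I V) (F : Finset I) (x : V → ℚ) : Prop :=
  C.B x ∧ (∀ i ∈ F, C.Zl x i) ∧ (∀ τ, C.Tu τ → 0 < C.ts F τ x) ∧ C.Rig F x

theorem Good.descE (h : C.Good) (G : (V → ℚ) →ₗ[ℚ] ℚ) (hx : C.B x) (hz : C.Ell x) :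
    ∃ y, C.EV y ∧ G y ≤ G x := by
  have k : ∀ c : I → ℚ, Co univ c → C.Lc c = 0 := fun c hc => by
    rw [show c = 0 from funext fun i => hc.1 i (mem_univ i), Lc_zero]
  obtain ⟨y, y1, y2, y3, ⟨⟨b, hb⟩, -⟩ | y4⟩ := h.desc0 (F := univ) G
    (fun c hc => by rw [k c hc, map_zero]) hx fun i _ => hz i
  · exact absurd (mem_univ b) hb
  · refine ⟨y, ⟨y1, fun i => y3 i (mem_univ i), fun e he h1 => ?_⟩, y2⟩
    obtain ⟨c, a, b⟩ := y4 e he fun v _ => h1 v
    rw [b, k c a]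

theorem Good.desc (h : C.Good) (G : (V → ℚ) →ₗ[ℚ] ℚ) (hG : ∀ c, Co F c → G (C.Lc c) = 0)
    (hx : C.B x) (hz : ∀ i ∈ F, C.Zl x i) :
    ∃ y, G y ≤ G x ∧ (C.EV y ∨ C.HV F y) := by
  obtain ⟨y, y1, y2, y3, y4⟩ := h.desc0 G hG hx hz
  by_cases k : C.Ell y
  · obtain ⟨z, z1, z2⟩ := h.descE G y1 k
    exact ⟨z, z2.trans y2, Or.inl z1⟩
  · refine ⟨y, y2, Or.inr ⟨y1, y3, fun τ hτ => (ts_nonneg y1.2).lt_of_ne fun k1 => k fun i => ?_,
      y4.resolve_left fun k1 => k k1.2⟩⟩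
    by_cases hi : i ∈ F
    exacts [y3 i hi, ⟨τ i, hτ i, h.tight hτ y1.2 k1.symm hi⟩]

/-- the polytope contains a point over the origin -/
theorem Good.origin (h : C.Good) :
    ∃ c : I → ℚ, ∑ i, c i = 2 - Fintype.card I ∧ C.B (1 + C.Lc c) := by
  obtain ⟨x, hx⟩ := h.nem
  obtain ⟨c0, h1, h2⟩ := hx.1
  have key : (∀ τ, C.Tu τ → 0 ≤ C.ts ∅ τ (1 + C.Lc c0)) → ∃ c : I → ℚ,
      ∑ i, c i = 2 - Fintype.card I ∧ C.B (1 + C.Lc c) := fun k => by
    obtain ⟨c, k1, k2⟩ := h.corr (F := ∅) (y := 1 + C.Lc c0) (fun v hv => by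
      rw [Pi.add_apply, Lc_in hv fun i hi => absurd hi (notMem_empty i)]; simp) k
    have k3 : ∑ i, (c0 + c) i = 2 - Fintype.card I := by simp [sum_add_distrib, h1, k1.2]
    exact ⟨c0 + c, k3, pt_Lc k3, by rwa [Lc_add, ← add_assoc]⟩
  refine key fun σ hσ => ?_
  have e1 : ∀ τ, C.ts ∅ τ (1 + C.Lc c0) = C.ts ∅ τ x + C.ts ∅ τ (1 + C.Lc c0 - x) := fun τ => by
    rw [← ts_add, add_sub_cancel]
  have he : 1 + C.Lc c0 - x ∈ C.Dir := by simpa using C.Dir.neg_mem h2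
  by_cases hn : ∃ c, Co ∅ c ∧ 1 + C.Lc c0 - x = C.Lc c
  · obtain ⟨c, a, b⟩ := hn
    rw [e1, b, h.ts_co hσ a, add_zero]
    exact ts_nonneg hx.2
  obtain ⟨t, c, t0, hc, hB, hk⟩ := h.move hx he hn
  have t1 : 1 ≤ t := by
    rcases hk with ⟨τ, hτ, a, b⟩ | ⟨v, hv, a, b⟩
    · have z : ∀ i, (x + t • (1 + C.Lc c0 - x) + C.Lc c) (τ i) = 0 := fun i =>
        h.tight hτ hB.2 (by rw [ts_add, ts_add, ts_smul, h.ts_co hτ hc, b, add_zero])
          (notMem_empty i)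
      obtain ⟨p, q, hpq, hw⟩ := h.jac _ hB fun i => ⟨τ i, hτ i, z i⟩
      have k1 : 0 ≤ C.ts ∅ τ (1 + C.Lc c0) := by
        rw [ts_add, h.ts_Lc hτ, compl_empty, h1, ts, compl_empty,
          ← sum_add_sum_compl {p, q}, sum_congr rfl (g := fun _ => (1 : ℚ)) (s₁ := {p, q}ᶜ)
            fun i hi => by
              simp only [mem_compl, mem_insert, mem_singleton, not_or] at hi
              obtain ⟨w, -, w2, w3⟩ := hw i hi.1 hi.2
              rw [(w3 _ (hτ i)).1 (z i), w2]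
              simp,
          sum_const, card_compl, card_pair hpq, nsmul_one, Nat.cast_sub h.two]
        have : 0 ≤ ∑ i ∈ ({p, q} : Finset I), (1 : V → ℚ) (τ i) / C.l (τ i) :=
          sum_nonneg fun _ _ => by simp
        push_cast
        linarith
      rw [e1] at k1
      nlinarith
    · have k1 : C.Lc c0 v = 0 := Lc_in hv fun i hi => absurd hi (notMem_empty i)
      simp only [Pi.sub_apply, Pi.add_apply, Pi.one_apply, k1] at a b
      nlinarith
  have k2 := ts_nonneg (C := C) (F := ∅) (τ := σ) hB.2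
  have k3 := ts_nonneg (C := C) (F := ∅) (τ := σ) hx.2
  rw [ts_add, ts_add, ts_smul, h.ts_co hσ hc, add_zero] at k2
  rw [e1]
  by_contra k4
  nlinarith

end Cx

end Pool.Agent.Work.MP_2a05c6_ag
end

-- merged part: Pool.Agent.Work.MP_2a05c6_ag.Frame
section
/-!
Frames at torus fixed points and the edges that leave them.
-/

set_option autoImplicit false
set_option linter.unusedSectionVars false

namespace Pool.Agent.Work.MP_2a05c6_ag

open Finset

namespace Cx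

variable {I V : Type} [Fintype I] [Fintype V] [DecidableEq I] [DecidableEq V] {C : Cx I V}
  {x e ν : V → ℚ} {c : I → ℚ} {τ β w : I → V} {v v' j : V} {a b i : I}

structure Fr (C : Cx I V) (x : V → ℚ) (a b : I) (w : I → V) : Prop where
  hB : C.B x
  int : IsZ x
  ne : a ≠ b
  tu : C.Tu w
  wz : ∀ z, z ≠ a → z ≠ b → C.l (w z) = 1 ∧ x (w z) = 0
  rig : ∀ e ∈ C.Dir, (∀ v, C.In {a, b} v → x v = 0 → e v = 0) →
    (∀ z, z ≠ a → z ≠ b → e (w z) = 0) → e = 0

structure Du (C : Cx I V) (x : V → ℚ) (a b : I) (w : I → V) (j : V) (e : V → ℚ) : Prop where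
  mem : e ∈ C.ZD
  hj : C.In {a, b} j ∧ x j = 0
  one : e j = 1
  off : ∀ v, C.In {a, b} v → x v = 0 → v ≠ j → e v = 0
  wz : ∀ z, z ≠ a → z ≠ b → e (w z) = 0

theorem Fr.swap (f : C.Fr x a b w) : C.Fr x b a w :=
  ⟨f.hB, f.int, f.ne.symm, f.tu, fun z h1 h2 => f.wz z h2 h1, fun e he h1 h2 =>
    f.rig e he (by rwa [pair_comm]) fun z k1 k2 => h2 z k2 k1⟩

theorem Du.swap (f : C.Du x a b w j e) : C.Du x b a w j e :=
  ⟨f.mem, by rw [pair_comm]; exact f.hj, f.one, by rw [pair_comm]; exact f.off,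
    fun z h1 h2 => f.wz z h2 h1⟩

theorem In.two (h : C.In {a} v) : C.In {a, b} v := fun i hi =>
  mem_insert.2 (Or.inl (mem_singleton.1 (h i hi)))

theorem in_one (h : C.lf v = some a) : C.In {a} v := fun i hi => by
  rw [h] at hi; cases hi; exact mem_singleton_self _

theorem in_none {F : Finset I} (h : C.lf v = none) : C.In F v := fun i hi => by
  rw [h] at hi; cases hi

theorem In.cases (h : C.In {a} v) : C.lf v = none ∨ C.lf v = some a := by
  rcases k : C.lf v with _ | i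
  exacts [Or.inl rfl, Or.inr (by rw [mem_singleton.1 (h i k)])]

theorem In.cases2 (h : C.In {a, b} v) : C.In {a} v ∨ C.lf v = some b := by
  rcases k : C.lf v with _ | i
  · exact Or.inl (in_none k)
  · rcases mem_insert.1 (h i k) with rfl | k1
    exacts [Or.inl (in_one k), Or.inr (by rw [mem_singleton.1 k1])]

theorem isZ_single (v : V) : IsZ (Pi.single v (1 : ℚ) : V → ℚ) := fun u => by
  by_cases h : u = v
  · exact ⟨1, by simp [h]⟩
  · exact ⟨0, by simp [h]⟩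

theorem IsZ.neg (h : IsZ x) : IsZ (-x) := fun v => by
  obtain ⟨k, hk⟩ := h v
  exact ⟨-k, by simp [hk]⟩

theorem one_le_of_int {t : ℚ} {k : ℤ} (h : t = k) (h0 : 0 < t) : 1 ≤ t := by
  subst h
  exact_mod_cast (show 0 < k by exact_mod_cast h0)

theorem Good.nrm (h : C.Good) (f : C.Fr x a b w) (ν : V → ℚ) : ∃ c, Co {a} c ∧
    (∀ z, z ≠ a → z ≠ b → (ν + C.Lc c) (w z) = 0) ∧ (IsZ ν → C.Lc c ∈ C.ZD) := by
  have hs : ∑ i, (if i = a then 0 else if i = b then ∑ z ∈ ({a, b} : Finset I)ᶜ, ν (w z)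
      else -ν (w i)) = 0 := by
    rw [← sum_add_sum_compl {a, b}, sum_pair f.ne, if_pos rfl, if_neg f.ne.symm, if_pos rfl,
      zero_add, ← sum_add_distrib]
    refine sum_eq_zero fun i hi => ?_
    simp only [mem_compl, mem_insert, mem_singleton, not_or] at hi
    rw [if_neg hi.1, if_neg hi.2, add_neg_cancel]
  refine ⟨_, ⟨fun i hi => if_pos (mem_singleton.1 hi), hs⟩, fun z h1 h2 => ?_,
    fun hz => h.LZ _ (fun i => ?_) hs⟩
  · rw [Pi.add_apply, Lc_some (f.tu z), if_neg h1, if_neg h2, (f.wz z h1 h2).1]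
    simp
  · choose k hk using hz
    split_ifs
    · exact ⟨0, by simp⟩
    · exact ⟨∑ z ∈ ({a, b} : Finset I)ᶜ, k (w z), by simp [hk]⟩
    · exact ⟨-k (w i), by simp [hk]⟩

theorem Good.mult (h : C.Good) (f : C.Fr x a b w) (d : C.Du x a b w j e) (hν : ν ∈ C.Dir)
    (h1 : ∀ v, C.In {a, b} v → x v = 0 → v ≠ j → ν v = 0)
    (h2 : ∀ z, z ≠ a → z ≠ b → ν (w z) = 0) : ν = ν j • e := by
  refine sub_eq_zero.1 (f.rig _ (C.Dir.sub_mem hν (C.Dir.smul_mem _ (h.le e d.mem)))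
    (fun v k1 k2 => ?_) fun z k1 k2 => by simp [h2 z k1 k2, d.wz z k1 k2])
  by_cases k : v = j
  · simp [k, d.one]
  · simp [h1 v k1 k2 k, d.off v k1 k2 k]

theorem Good.nmul (h : C.Good) (f : C.Fr x a b w) (d : C.Du x a b w j e)
    (hτ : ∀ v, C.lf v = some b → x v = 0 → v = j) (hν : ν ∈ C.ZD)
    (h1 : ∀ v, C.In {a} v → x v = 0 → v ≠ j → ν v = 0) :
    ∃ (k : ℤ) (c : I → ℚ), Co {a} c ∧ ν + C.Lc c = (k : ℚ) • e := by
  obtain ⟨c, c1, c2, c3⟩ := h.nrm f ν
  have c4 := C.ZD.add_mem hν (c3 (h.int ν hν))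
  obtain ⟨k, hk⟩ := h.int _ c4 j
  refine ⟨k, c, c1, ?_⟩
  rw [← hk]
  refine h.mult f d (h.le _ c4) (fun v k1 k2 k3 => ?_) c2
  have k4 := k1.cases2.resolve_right fun k => k3 (hτ v k k2)
  rw [Pi.add_apply, h1 v k4 k2 k3, Lc_in k4 c1.1, add_zero]

theorem Du.nonneg (d : C.Du x a b w j e) (hv : C.In {a, b} v) (h0 : x v = 0) : 0 ≤ e v := by
  by_cases k : v = j
  · rw [k, d.one]; exact zero_le_one
  · exact (d.off v hv h0 k).ge

/-- the data of an edge inside the fibre of the leaf `a` -/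
structure Eb (C : Cx I V) (x : V → ℚ) (a b : I) (j : V) (e : V → ℚ) : Prop where
  miss : ∀ v, C.lf v = some b → x v = 0 → v = j
  pos : ∀ τ, C.Tu τ → C.ts {a} τ x = 0 → 0 ≤ C.ts {a} τ e
  meet : (∃ u, C.lf u = some a ∧ x u = 0 ∧ u ≠ j) ∨
    ((∀ τ, C.Tu τ → 0 ≤ C.ts {a} τ e) ∧ ∀ v, C.lf v = none → 0 ≤ e v)

section
variable (h : C.Good) (f : C.Fr x a b w) (d : C.Du x a b w j e) (E : C.Eb x a b j e)
include h f d E

theorem Good.eb_zl {t : ℚ} (hc : Co {a} c) (hv : C.In {a} v) (h1 : e v < 0)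
    (h2 : x v + t * e v = 0) : C.Zl (x + t • e + C.Lc c) a := by
  rcases E.meet with ⟨u, u1, u2, u3⟩ | ⟨-, k⟩
  · exact ⟨u, u1, by simp [u2, d.off u (in_one u1).two u2 u3, Lc_in (in_one u1) hc.1]⟩
  · exact ⟨v, hv.cases.resolve_left fun k1 => (k v k1).not_gt h1, by simp [h2, Lc_in hv hc.1]⟩

theorem Good.eb_ell {t : ℚ} (hc : Co {a} c) (hB : C.B (x + t • e + C.Lc c)) (hτ : C.Tu τ)
    (h1 : C.ts {a} τ e < 0) (h2 : C.ts {a} τ x + t * C.ts {a} τ e = 0) :
    C.Ell (x + t • e + C.Lc c) ∧ ∀ z, z ≠ a → (x + t • e + C.Lc c) (τ z) = 0 := by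
  have k : ∀ z, z ≠ a → (x + t • e + C.Lc c) (τ z) = 0 := fun z hz =>
    h.tight hτ hB.2 (by rw [ts_add, ts_add, ts_smul, h.ts_co hτ hc, h2, add_zero])
      (notMem_singleton.2 hz)
  refine ⟨fun i => ?_, k⟩
  by_cases hi : i = a
  · obtain ⟨u, u1, u2, u3⟩ := E.meet.resolve_right fun k => (k.1 τ hτ).not_gt h1
    exact ⟨u, hi ▸ u1, by simp [u2, d.off u (in_one u1).two u2 u3, Lc_in (in_one u1) hc.1]⟩
  · exact ⟨τ i, hτ i, k i hi⟩

theorem Good.eb_one : (∀ v, C.In {a} v → 0 ≤ x v + e v) ∧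
    ∀ τ, C.Tu τ → 0 ≤ C.ts {a} τ x + C.ts {a} τ e := by
  by_cases hn : ∃ c, Co {a} c ∧ e = C.Lc c
  · obtain ⟨c, c1, c2⟩ := hn
    refine ⟨fun v hv => ?_, fun τ hτ => ?_⟩
    · rw [c2, Lc_in hv c1.1, add_zero]; exact f.hB.2 v
    · rw [c2, h.ts_co hτ c1, add_zero]; exact ts_nonneg f.hB.2
  obtain ⟨t, c, t0, hc, hB, hk⟩ := h.move f.hB (h.le e d.mem) hn
  have k1 : ∀ v, C.In {a} v → (x + t • e + C.Lc c) v = x v + t * e v := fun v hv => by
    simp [Lc_in hv hc.1]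
  have k2 : ∀ v, C.In {a} v → x v = 0 → v ≠ j → (x + t • e + C.Lc c) v = 0 := fun v a1 a2 a3 => by
    rw [k1 v a1, a2, d.off v a1.two a2 a3]; simp
  have t1 : 1 ≤ t := by
    rcases hk with ⟨τ, hτ, a1, a2⟩ | ⟨v, hv, a1, a2⟩
    · obtain ⟨l1, l2⟩ := h.eb_ell f d E hc hB hτ a1 a2
      obtain ⟨ν, n1, n2⟩ := h.surjE _ hB l1 _ f.int.neg
      obtain ⟨k, c', c1, c2⟩ := h.nmul f d E.miss n1 fun v b1 b2 b3 => by
        rw [n2 v (k2 v b1 b2 b3)]; simp [b2]
      have e1 := congrArg (C.ts {a} τ) c2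
      have e2 : C.ts {a} τ ν = -C.ts {a} τ x := by
        rw [ts, ts, ← sum_neg_distrib]
        exact sum_congr rfl fun z hz => by
          rw [n2 _ (l2 z (by simpa using hz)), Pi.neg_apply, neg_div]
      rw [ts_add, h.ts_co hτ c1, ts_smul, e2] at e1
      refine one_le_of_int (k := k) (mul_right_cancel₀ a1.ne (by linarith))
        (t0.lt_of_ne fun k3 => (E.pos τ hτ (by rw [← k3] at a2; linarith)).not_gt a1)
    · obtain ⟨ν, n1, n2⟩ := h.surjL _ a hB (h.eb_zl f d E hc hv a1 a2) _ f.int.neg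
      obtain ⟨k, c', c1, c2⟩ := h.nmul f d E.miss n1 fun v b1 b2 b3 => by
        rw [n2 v b1 (k2 v b1 b2 b3)]; simp [b2]
      have e1 := congrFun c2 v
      rw [Pi.add_apply, Lc_in hv c1.1, n2 v hv (by rw [k1 v hv, a2]), Pi.neg_apply, Pi.smul_apply,
        smul_eq_mul] at e1
      refine one_le_of_int (k := k) (mul_right_cancel₀ a1.ne (by linarith))
        (t0.lt_of_ne fun k3 => (d.nonneg hv.two (by rw [← k3] at a2; linarith)).not_gt a1)
  refine ⟨fun v hv => ?_, fun τ hτ => ?_⟩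
  · have a1 := hB.2 v
    have a2 := f.hB.2 v
    rw [k1 v hv] at a1
    by_contra k
    nlinarith
  · have a1 := ts_nonneg (C := C) (F := {a}) (τ := τ) hB.2
    have a2 := ts_nonneg (C := C) (F := {a}) (τ := τ) f.hB.2
    rw [ts_add, ts_add, ts_smul, h.ts_co hτ hc, add_zero] at a1
    by_contra k
    nlinarith

theorem Good.eb_pt : ∃ c, Co {a} c ∧ C.B (x + (1 : ℚ) • e + C.Lc c) := by
  obtain ⟨c, c1, c2⟩ := h.corr (F := {a}) (y := x + (1 : ℚ) • e)
    (fun v hv => by simpa using (h.eb_one f d E).1 v hv)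
    fun τ hτ => by rw [one_smul, ts_add]; exact (h.eb_one f d E).2 τ hτ
  exact ⟨c, c1, (f.hB.1.add (C.Dir.smul_mem _ (h.le e d.mem))).add (h.LQ c c1.2), c2⟩

theorem Good.eb_u1 (hv : C.In {a} v) (a1 : e v < 0) (a2 : x v + e v = 0)
    (hv' : C.In {a} v') (b1 : e v' < 0) (b2 : x v' + e v' = 0) : v = v' := by
  obtain ⟨c, hc, hB⟩ := h.eb_pt f d E
  have k1 : ∀ v, C.In {a} v → (x + (1 : ℚ) • e + C.Lc c) v = x v + e v := fun v hv => by
    simp [Lc_in hv hc.1]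
  obtain ⟨ν, n1, n2⟩ := h.surjL _ a hB (h.eb_zl f d E hc hv a1 (by rwa [one_mul])) _
    (isZ_single v')
  obtain ⟨k, c', c1, c2⟩ := h.nmul f d E.miss n1 fun u u1 u2 u3 => by
    have := d.off u u1.two u2 u3
    rw [n2 u u1 (by rw [k1 u u1, u2, this, add_zero]), Pi.single_eq_of_ne]
    rintro rfl
    exact b1.ne this
  by_contra k
  have e1 := congrFun c2 v
  have e2 := congrFun c2 v'
  rw [Pi.add_apply, Lc_in hv c1.1, n2 v hv (by rw [k1 v hv, a2]), Pi.single_eq_of_ne k,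
    Pi.smul_apply, smul_eq_mul, add_zero] at e1
  rw [Pi.add_apply, Lc_in hv' c1.1, n2 v' hv' (by rw [k1 v' hv', b2]), Pi.single_eq_same,
    Pi.smul_apply, smul_eq_mul, (mul_eq_zero.1 e1.symm).resolve_right a1.ne] at e2
  simp at e2

theorem Good.eb_u2 (hc : Co {a} c) (hB : C.B (x + (1 : ℚ) • e + C.Lc c)) (hτ : C.Tu τ)
    (a1 : C.ts {a} τ e < 0) (a2 : C.ts {a} τ x + C.ts {a} τ e = 0)
    (h0 : (x + (1 : ℚ) • e + C.Lc c) v = 0) : (C.In {a} v ∧ x v = 0) ∨ ∃ z, z ≠ a ∧ v = τ z := by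
  obtain ⟨l1, l2⟩ := h.eb_ell f d E hc hB hτ a1 (by rwa [one_mul])
  obtain ⟨ν, n1, n2⟩ := h.surjE _ hB l1 _ (isZ_single v)
  by_contra k
  push Not at k
  obtain ⟨n, c', c1, c2⟩ := h.nmul f d E.miss n1 fun u u1 u2 u3 => by
    rw [n2 u (by simp [Lc_in u1 hc.1, u2, d.off u u1.two u2 u3]), Pi.single_eq_of_ne]
    rintro rfl
    exact k.1 u1 u2
  have k2 : ∀ z, z ≠ a → ν (τ z) = 0 := fun z hz => by
    rw [n2 _ (l2 z hz), Pi.single_eq_of_ne (k.2 z hz).symm]
  have e1 := congrArg (C.ts {a} τ) c2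
  rw [ts_add, h.ts_co hτ c1, ts_smul, ts, sum_eq_zero fun z hz => by
    rw [k2 z (by simpa using hz), zero_div], add_zero] at e1
  rw [(mul_eq_zero.1 e1.symm).resolve_right a1.ne, zero_smul] at c2
  have k3 : c' = 0 := funext fun z => by
    by_cases hz : z = a
    · exact c1.1 z (mem_singleton.2 hz)
    · have := congrFun c2 (τ z)
      rw [Pi.add_apply, k2 z hz, Lc_some (hτ z), zero_add] at this
      exact (mul_eq_zero.1 this).resolve_right (h.lq (hτ z)).ne'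
  rw [k3, Lc_zero, add_zero] at c2
  have := n2 v h0
  simp [c2] at this

end

/-- the vertex `v` is charged to the edge with direction `e` -/
def Ch (C : Cx I V) (x : V → ℚ) (a : I) (β : I → V) (e : V → ℚ) (v : V) : Prop :=
  (C.In {a} v ∧ e v < 0 ∧ x v + e v = 0) ∨ ∃ z, z ≠ a ∧ C.lf v = some z ∧
    C.ts {a} (Function.update β z v) e < 0 ∧
    C.ts {a} (Function.update β z v) x + C.ts {a} (Function.update β z v) e = 0

theorem Tu.update (hβ : C.Tu β) (hv : C.lf v = some i) : C.Tu (Function.update β i v) := fun z => by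
  by_cases k : z = i
  · rw [k, Function.update_self, hv]
  · rw [Function.update_of_ne k, hβ z]

theorem Good.chU (h : C.Good) (f : C.Fr x a b w) (d : C.Du x a b w j e) (E : C.Eb x a b j e)
    (hβ : C.Tu β) (h1 : C.Ch x a β e v) (h2 : C.Ch x a β e v')
    (k1 : ∀ z, z ≠ a → v = β z → z = b) (k2 : ∀ z, z ≠ a → v' = β z → z = b) : v = v' := by
  obtain ⟨c, hc, hB⟩ := h.eb_pt f d E
  have key : ∀ u τ, C.In {a} u → e u < 0 → x u + e u = 0 → C.Tu τ → C.ts {a} τ e < 0 →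
      C.ts {a} τ x + C.ts {a} τ e = 0 → False := fun u τ u1 u2 u3 hτ a1 a2 => by
    rcases h.eb_u2 f d E hc hB hτ a1 a2 (v := u) (by simp [Lc_in u1 hc.1, u3]) with k | ⟨z, k, k'⟩
    · rw [k.2] at u3; linarith
    · exact k (mem_singleton.1 (u1 z (k' ▸ hτ z)))
  rcases h1 with ⟨a1, a2, a3⟩ | ⟨z, z1, z2, a2, a3⟩ <;>
    rcases h2 with ⟨b1, b2, b3⟩ | ⟨z', z3, z4, b2, b3⟩
  · exact h.eb_u1 f d E a1 a2 a3 b1 b2 b3
  · exact (key _ _ a1 a2 a3 (hβ.update z4) b2 b3).elim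
  · exact (key _ _ b1 b2 b3 (hβ.update z2) a2 a3).elim
  · have k : ∀ y, y ≠ a → Function.update β z' v' y = Function.update β z v y := fun y hy => by
      have l := (h.eb_ell f d E hc hB (hβ.update z4) b2 (by rwa [one_mul])).2 y hy
      rcases h.eb_u2 f d E hc hB (hβ.update z2) a2 a3 l with k | ⟨y', -, k⟩
      · exact absurd (mem_singleton.1 (k.1 y (hβ.update z4 y))) hy
      · have e1 := hβ.update z4 y
        rw [k, hβ.update z2 y'] at e1
        cases e1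
        exact k
    by_cases e1 : z = z'
    · subst e1
      simpa using (k z z1).symm
    · have e2 := k z z1
      have e3 := k z' z3
      rw [Function.update_self, Function.update_of_ne e1] at e2
      rw [Function.update_self, Function.update_of_ne (Ne.symm e1)] at e3
      exact absurd ((k1 z z1 e2.symm).trans (k2 z' z3 e3).symm) e1

end Cx

end Pool.Agent.Work.MP_2a05c6_ag
end

-- merged part: Pool.Agent.Work.MP_2a05c6_ag.Dual
section
/-!
Dual bases of a frame, expansions, the elliptic edges.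
-/

set_option autoImplicit false
set_option linter.unusedSectionVars false

namespace Pool.Agent.Work.MP_2a05c6_ag

open Finset

theorem card_le_of_rel {α β : Type} [DecidableEq β] {O : Finset α} {s : Finset β} (R : α → β → Prop)
    (h1 : ∀ v ∈ O, ∃ j ∈ s, R v j) (h2 : ∀ j ∈ s, ∀ v ∈ O, ∀ v' ∈ O, R v j → R v' j → v = v') :
    O.card ≤ s.card := by
  rcases O.eq_empty_or_nonempty with rfl | ⟨v0, h0⟩
  · simp
  have : Nonempty β := ⟨(h1 v0 h0).choose⟩
  choose! g g1 g2 using h1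
  exact card_le_card_of_injOn g (fun v hv => g1 v hv) fun v hv v' hv' k =>
    h2 _ (g1 v hv) v hv v' hv' (g2 v hv) (k ▸ g2 v' hv')

theorem neg_of_sum {β : Type} {s : Finset β} {f : β → ℚ} (h : ∑ j ∈ s, f j = 0)
    (h1 : ∃ j ∈ s, f j ≠ 0) : ∃ j ∈ s, f j < 0 := by
  by_contra k
  push Not at k
  obtain ⟨j, a, b⟩ := h1
  exact b ((sum_eq_zero_iff_of_nonneg k).1 h j a)

theorem card_le_rank {ι V : Type} [Fintype ι] [Fintype V] (D : Submodule ℚ (V → ℚ))
    (g : ι → V → ℚ) (pt : ι → V) (hg : ∀ i, g i ∈ D) (h1 : ∀ i, g i (pt i) = 1)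
    (h2 : ∀ i k, i ≠ k → g i (pt k) = 0) : Fintype.card ι ≤ Module.finrank ℚ D := by
  refine LinearIndependent.fintype_card_le_finrank (b := fun i => (⟨g i, hg i⟩ : D))
    (Fintype.linearIndependent_iff.2 fun c hc k => ?_)
  have := congrFun (congrArg Subtype.val hc) (pt k)
  simp only [AddSubmonoidClass.coe_finsetSum, SetLike.mk_smul_mk, Finset.sum_apply, Pi.smul_apply,
    smul_eq_mul, ZeroMemClass.coe_zero, Pi.zero_apply] at this
  rwa [sum_eq_single k (fun i _ hi => by rw [h2 i k hi, mul_zero]) (by simp), h1, mul_one] at this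

namespace Cx

variable {I V : Type} [Fintype I] [Fintype V] [DecidableEq I] [DecidableEq V] {C : Cx I V}
  {x e ν : V → ℚ} {c : I → ℚ} {τ β w : I → V} {v v' j : V} {a b i : I} {E : V → V → ℚ}

open Classical in
/-- the zeros in the two special leaves and the horizontal zeros -/
noncomputable def sg (C : Cx I V) (x : V → ℚ) (a b : I) : Finset V :=
  univ.filter fun v => C.In {a, b} v ∧ x v = 0

theorem mem_sg : v ∈ C.sg x a b ↔ C.In {a, b} v ∧ x v = 0 := by simp [sg]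

theorem sg_swap : C.sg x b a = C.sg x a b := by rw [sg, sg, pair_comm]

def Hyp (C : Cx I V) (x : V → ℚ) (b : I) : Prop := ∀ v, C.lf v = some b → x v ≠ 0

def ElF (C : Cx I V) (x : V → ℚ) (a b : I) (w : I → V) : Prop :=
  C.Ell x ∧ ∀ v z, C.lf v = some z → z ≠ a → z ≠ b → x v = 0 → v = w z

theorem ElF.swap (h : C.ElF x a b w) : C.ElF x b a w :=
  ⟨h.1, fun v z h1 h2 h3 => h.2 v z h1 h3 h2⟩

def Dus (C : Cx I V) (x : V → ℚ) (a b : I) (w : I → V) (E : V → V → ℚ) : Prop :=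
  ∀ j ∈ C.sg x a b, C.Du x a b w j (E j)

theorem Dus.swap (h : C.Dus x a b w E) : C.Dus x b a w E :=
  fun j hj => (h j (by rwa [sg_swap])).swap

/-- the difference of two fibres -/
def dl (a b i : I) : ℚ := (if i = a then 1 else 0) - if i = b then 1 else 0

theorem dl_sum : ∑ i, dl a b i = 0 := by simp [dl]

theorem dl_a (h : a ≠ b) : dl a b a = 1 := by simp [dl, h]

theorem dl_b (h : a ≠ b) : dl a b b = -1 := by simp [dl, h.symm]

theorem dl_z (h1 : i ≠ a) (h2 : i ≠ b) : dl a b i = 0 := by simp [dl, h1, h2]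

theorem not_in2 {z : I} (hv : C.lf v = some z) (h1 : z ≠ a) (h2 : z ≠ b) : ¬ C.In {a, b} v :=
  fun k => by simpa [h1, h2] using k z hv

theorem of_not_in2 (h : ¬ C.In {a, b} v) : ∃ z, C.lf v = some z ∧ z ≠ a ∧ z ≠ b := by
  simp only [In, not_forall, mem_insert, mem_singleton, not_or] at h
  obtain ⟨z, h1, h2⟩ := h
  exact ⟨z, h1, h2⟩

theorem Fr.dl_w (f : C.Fr x a b w) (z : I) (h1 : z ≠ a) (h2 : z ≠ b) :
    C.Lc (dl a b) (w z) = 0 := by rw [Lc_some (f.tu z), dl_z h1 h2, zero_mul]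

theorem Good.hyp_zl (h : C.Good) (f : C.Fr x a b w) (hy : C.Hyp x b) : C.Zl x a := by
  by_contra k
  have := f.rig _ (h.LQ _ (dl_sum (a := a) (b := b))) (fun v h1 h2 => by
    rcases (h1.cases2.resolve_right fun k1 => hy v k1 h2).cases with k1 | k1
    exacts [Lc_none k1, absurd ⟨v, k1, h2⟩ k]) f.dl_w
  have k1 := congrFun this (w a)
  rw [Lc_some (f.tu a), dl_a f.ne, one_mul] at k1
  exact (h.lq (f.tu a)).ne' k1

theorem Good.dus (h : C.Good) (f : C.Fr x a b w) (hk : C.Hyp x b ∨ C.ElF x a b w) :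
    ∃ E, C.Dus x a b w E := by
  suffices k : ∀ j ∈ C.sg x a b, ∃ e, C.Du x a b w j e by
    choose! E hE using k
    exact ⟨E, hE⟩
  intro j hj
  rw [mem_sg] at hj
  rcases hk with hy | he
  · have k : ∀ v, C.In {a, b} v → x v = 0 → C.In {a} v := fun v h1 h2 =>
      h1.cases2.resolve_right fun k1 => hy v k1 h2
    obtain ⟨ν, n1, n2⟩ := h.surjL x a f.hB (h.hyp_zl f hy) _ (isZ_single j)
    obtain ⟨c, c1, c2, c3⟩ := h.nrm f ν
    refine ⟨ν + C.Lc c, C.ZD.add_mem n1 (c3 (h.int ν n1)), hj, ?_, fun v h1 h2 h3 => ?_, c2⟩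
    · simp [n2 j (k j hj.1 hj.2) hj.2, Lc_in (k j hj.1 hj.2) c1.1]
    · simp [n2 v (k v h1 h2) h2, Lc_in (k v h1 h2) c1.1, h3]
  · obtain ⟨ν, n1, n2⟩ := h.surjE x f.hB he.1 _ (isZ_single j)
    refine ⟨ν, n1, hj, by simp [n2 j hj.2], fun v _ h2 h3 => by simp [n2 v h2, h3],
      fun z h1 h2 => ?_⟩
    rw [n2 _ (f.wz z h1 h2).2, Pi.single_eq_of_ne]
    rintro rfl
    exact not_in2 (f.tu z) h1 h2 hj.1

theorem Dus.sum_at (hE : C.Dus x a b w E) (ν : V → ℚ) (hv : v ∈ C.sg x a b) :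
    (∑ j ∈ C.sg x a b, ν j • E j) v = ν v := by
  rw [Finset.sum_apply, sum_eq_single_of_mem v hv fun j hj k => by
    simp [(hE j hj).off v (mem_sg.1 hv).1 (mem_sg.1 hv).2 k.symm]]
  simp [(hE v hv).one]

theorem Dus.sum_w (hE : C.Dus x a b w E) (ν : V → ℚ) (z : I) (h1 : z ≠ a) (h2 : z ≠ b) :
    (∑ j ∈ C.sg x a b, ν j • E j) (w z) = 0 := by
  rw [Finset.sum_apply]
  exact sum_eq_zero fun j hj => by simp [(hE j hj).wz z h1 h2]

theorem Good.sum_mem (h : C.Good) (hE : C.Dus x a b w E) (ν : V → ℚ) :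
    ∑ j ∈ C.sg x a b, ν j • E j ∈ C.Dir :=
  C.Dir.sum_mem fun j hj => C.Dir.smul_mem _ (h.le _ (hE j hj).mem)

theorem Good.expand (h : C.Good) (f : C.Fr x a b w) (hE : C.Dus x a b w E) (hν : ν ∈ C.Dir)
    (h2 : ∀ z, z ≠ a → z ≠ b → ν (w z) = 0) : ν = ∑ j ∈ C.sg x a b, ν j • E j :=
  sub_eq_zero.1 (f.rig _ (C.Dir.sub_mem hν (h.sum_mem hE ν))
    (fun v k1 k2 => by rw [Pi.sub_apply, hE.sum_at ν (mem_sg.2 ⟨k1, k2⟩), sub_self])
    fun z k1 k2 => by rw [Pi.sub_apply, hE.sum_w ν z k1 k2, h2 z k1 k2, sub_self])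

/-- the coefficients of the base point -/
def c0 (a b i : I) : ℚ := if i ∈ ({a, b} : Finset I) then 0 else -1

theorem c0_sum (h : a ≠ b) : ∑ i, c0 a b i = 2 - Fintype.card I := by
  have := card_le_univ ({a, b} : Finset I)
  rw [← sum_add_sum_compl {a, b}, sum_eq_zero fun i hi => show c0 a b i = 0 from if_pos hi,
    sum_congr rfl fun i hi => show c0 a b i = -1 from if_neg (mem_compl.1 hi), sum_const,
    card_compl, nsmul_eq_mul, Nat.cast_sub this, card_pair h]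
  simp

theorem c0_in (hv : C.In {a, b} v) : C.Lc (c0 a b) v = 0 := Lc_in hv fun _ hi => if_pos hi

theorem c0_out {z : I} (hv : C.lf v = some z) (h1 : z ≠ a) (h2 : z ≠ b) :
    C.Lc (c0 a b) v = -C.l v := by
  rw [Lc_some hv, c0, if_neg (by simp [h1, h2])]
  simp

theorem Good.sum1 (h : C.Good) (f : C.Fr x a b w) (hE : C.Dus x a b w E) :
    ∑ j ∈ C.sg x a b, E j = 1 + C.Lc (c0 a b) - x := by
  rw [h.expand f hE (h.sub (pt_Lc (c0_sum f.ne)) f.hB.1) fun z h1 h2 => by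
    simp [c0_out (f.tu z) h1 h2, f.wz z h1 h2]]
  exact sum_congr rfl fun j hj => by simp [c0_in (mem_sg.1 hj).1, (mem_sg.1 hj).2]

theorem Good.neg_ex (h : C.Good) (f : C.Fr x a b w) (hE : C.Dus x a b w E)
    (φ : (V → ℚ) →ₗ[ℚ] ℚ) (h1 : φ (1 + C.Lc (c0 a b) - x) = 0) (hν : ν ∈ C.Dir)
    (h2 : ∀ z, z ≠ a → z ≠ b → ν (w z) = 0) (h3 : φ ν ≠ 0) : ∃ j ∈ C.sg x a b, φ (E j) < 0 := by
  refine neg_of_sum (by rw [← map_sum, h.sum1 f hE, h1]) ?_
  by_contra k
  push Not at k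
  rw [h.expand f hE hν h2, map_sum] at h3
  exact h3 (sum_eq_zero fun j hj => by rw [map_smul, k j hj, smul_zero])

theorem Good.one_neg (h : C.Good) (f : C.Fr x a b w) (hE : C.Dus x a b w E) (hv : C.In {a, b} v)
    (h1 : x v = 1) : ∃ j ∈ C.sg x a b, E j v < 0 := by
  have k : (LinearMap.proj v : (V → ℚ) →ₗ[ℚ] ℚ) (1 + C.Lc (c0 a b) - x) = 0 := by
    simp [c0_in hv, h1]
  rcases hv.cases2 with k1 | k1
  · rcases k1.cases with k2 | k2
    · obtain ⟨e, e1, e2⟩ := h.hor v k2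
      obtain ⟨c, c1, c2, -⟩ := h.nrm f e
      exact h.neg_ex f hE _ k (C.Dir.add_mem e1 (h.LQ c c1.2)) c2 (by simpa [Lc_none k2] using e2)
    · exact h.neg_ex f hE _ k (h.LQ _ dl_sum) f.dl_w
        (by simpa [Lc_some k2, dl_a f.ne] using (h.lpos v a k2).ne')
  · exact h.neg_ex f hE _ k (h.LQ _ dl_sum) f.dl_w
      (by simpa [Lc_some k1, dl_b f.ne] using (h.lpos v b k1).ne')

theorem Good.sg_card (h : C.Good) (f : C.Fr x a b w) (hE : C.Dus x a b w E) :
    (C.sg x a b).card + Fintype.card I ≤ Module.finrank ℚ C.Dir + 2 := by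
  have k0 : ∀ z : (({a, b} : Finset I)ᶜ : Finset I), z.1 ≠ a ∧ z.1 ≠ b := fun z => by
    simpa using z.2
  have := card_le_rank (ι := C.sg x a b ⊕ (({a, b} : Finset I)ᶜ : Finset I)) C.Dir
    (Sum.elim (fun j => E j) fun z => C.Lc (dl z b) - ∑ j ∈ C.sg x a b, C.Lc (dl z b) j • E j)
    (Sum.elim (fun j => j) fun z => w z)
    (by
      rintro (j | z)
      exacts [h.le _ (hE j j.2).mem, C.Dir.sub_mem (h.LQ _ dl_sum) (h.sum_mem hE _)])
    (by
      rintro (j | z)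
      · exact (hE j j.2).one
      · simp only [Sum.elim_inr, Pi.sub_apply]
        rw [hE.sum_w _ z (k0 z).1 (k0 z).2, Lc_some (f.tu z), dl_a (k0 z).2,
          (f.wz z (k0 z).1 (k0 z).2).1]
        simp)
    (by
      rintro (j | z) (j' | z') k
      · exact (hE j j.2).off j' (mem_sg.1 j'.2).1 (mem_sg.1 j'.2).2
          fun e => k (congrArg _ (Subtype.ext e.symm))
      · exact (hE j j.2).wz z' (k0 z').1 (k0 z').2
      · simp only [Sum.elim_inr, Sum.elim_inl, Pi.sub_apply]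
        rw [hE.sum_at _ j'.2, sub_self]
      · simp only [Sum.elim_inr, Pi.sub_apply]
        rw [hE.sum_w _ z' (k0 z').1 (k0 z').2, Lc_some (f.tu z'),
          dl_z (fun e => k (congrArg _ (Subtype.ext e.symm))) (k0 z').2]
        simp)
  rw [Fintype.card_sum, Fintype.card_coe, Fintype.card_coe, card_compl, card_pair f.ne] at this
  have := h.two
  omega

/-- the edge stays elliptic -/
def Ta (C : Cx I V) (x : V → ℚ) (a b : I) (j : V) : Prop :=
  (∃ u, C.lf u = some a ∧ x u = 0 ∧ u ≠ j) ∧ ∃ u, C.lf u = some b ∧ x u = 0 ∧ u ≠ j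

theorem Ta.swap (h : C.Ta x a b j) : C.Ta x b a j := ⟨h.2, h.1⟩

section
variable (h : C.Good) (f : C.Fr x a b w) (d : C.Du x a b w j e) (he : C.ElF x a b w)
  (ht : C.Ta x a b j)
include h f d he ht

theorem Good.ea_ell (t : ℚ) : C.Ell (x + t • e) := fun i => by
  by_cases h1 : i = a
  · obtain ⟨u, u1, u2, u3⟩ := ht.1
    exact ⟨u, h1 ▸ u1, by simp [u2, d.off u (in_one u1).two u2 u3]⟩
  by_cases h2 : i = b
  · obtain ⟨u, u1, u2, u3⟩ := ht.2
    exact ⟨u, h2 ▸ u1, by simp [u2, d.swap.off u (in_one u1).two u2 u3]⟩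
  · exact ⟨w i, f.tu i, by simp [(f.wz i h1 h2).2, d.wz i h1 h2]⟩

theorem Good.ea_nonneg (h0 : x v = 0) : 0 ≤ e v := by
  by_cases k : C.In {a, b} v
  · exact d.nonneg k h0
  · obtain ⟨z, z1, z2, z3⟩ := of_not_in2 k
    rw [he.2 v z z1 z2 z3 h0, d.wz z z2 z3]

theorem Good.ea_one (v : V) : 0 ≤ x v + e v := by
  have k : ∀ c : I → ℚ, Co univ c → C.Lc c = 0 := fun c hc => by
    rw [show c = 0 from funext fun i => hc.1 i (mem_univ i), Lc_zero]
  obtain ⟨t, c, t0, hc, hB, hk⟩ := h.move (F := univ) f.hB (h.le e d.mem) (by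
    rintro ⟨c, c1, c2⟩
    have := d.one
    simp [c2, k c c1] at this)
  rw [k c hc, add_zero] at hB
  rcases hk with ⟨τ, -, a1, -⟩ | ⟨u, -, a1, a2⟩
  · simp [ts] at a1
  obtain ⟨ν, n1, n2⟩ := h.surjE _ hB (h.ea_ell f d he ht t) _ f.int.neg
  have e1 := congrFun (h.mult f d (h.le ν n1)
    (fun v b1 b2 b3 => by rw [n2 v (by simp [b2, d.off v b1 b2 b3])]; simp [b2])
    fun z b1 b2 => by
      rw [n2 _ (by simp [(f.wz z b1 b2).2, d.wz z b1 b2])]; simp [(f.wz z b1 b2).2]) u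
  obtain ⟨n, hn⟩ := h.int ν n1 j
  rw [n2 u (by simpa using a2), Pi.neg_apply, Pi.smul_apply, smul_eq_mul, hn] at e1
  have t1 : 1 ≤ t := one_le_of_int (k := n) (mul_right_cancel₀ a1.ne (by linarith))
    (t0.lt_of_ne fun k3 => (h.ea_nonneg f d he ht (by rw [← k3] at a2; linarith)).not_gt a1)
  have b1 := hB.2 v
  have b2 := f.hB.2 v
  simp only [Pi.add_apply, Pi.smul_apply, smul_eq_mul] at b1
  by_contra k
  nlinarith

theorem Good.ea_u (a1 : e v < 0) (a2 : x v + e v = 0) (b1 : e v' < 0) (b2 : x v' + e v' = 0) :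
    v = v' := by
  have hB : C.B (x + (1 : ℚ) • e) := ⟨f.hB.1.add (C.Dir.smul_mem _ (h.le e d.mem)),
    fun v => by simpa using h.ea_one f d he ht v⟩
  obtain ⟨ν, n1, n2⟩ := h.surjE _ hB (h.ea_ell f d he ht 1) _ (isZ_single v')
  have k : ∀ u, x u = 0 → e u = 0 → ν u = 0 := fun u u1 u2 => by
    rw [n2 u (by simp [u1, u2]), Pi.single_eq_of_ne]
    rintro rfl
    exact b1.ne u2
  have e0 := h.mult f d (h.le ν n1) (fun u u1 u2 u3 => k u u2 (d.off u u1 u2 u3))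
    fun z z1 z2 => k _ (f.wz z z1 z2).2 (d.wz z z1 z2)
  by_contra k1
  have e1 := congrFun e0 v
  have e2 := congrFun e0 v'
  rw [n2 v (by simpa using a2), Pi.single_eq_of_ne k1, Pi.smul_apply, smul_eq_mul] at e1
  rw [n2 v' (by simpa using b2), Pi.single_eq_same, Pi.smul_apply, smul_eq_mul,
    (mul_eq_zero.1 e1.symm).resolve_right a1.ne] at e2
  simp at e2

end

end Cx

end Pool.Agent.Work.MP_2a05c6_ag
end

-- merged part: Pool.Agent.Work.MP_2a05c6_ag.Cnt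
section
/-!
Counting the divisors with coefficient one by charging them to edges.
-/

set_option autoImplicit false
set_option linter.unusedSectionVars false

namespace Pool.Agent.Work.MP_2a05c6_ag

open Finset

theorem int_tight {p : ℚ} {k : ℤ} (h : p = k) (h1 : p < 0) (h2 : 0 ≤ 1 + p) : 1 + p = 0 := by
  subst h
  have a : k < 0 := by exact_mod_cast h1
  have b : 0 ≤ 1 + k := by exact_mod_cast h2
  exact_mod_cast (show 1 + k = 0 by omega)

namespace Cx

variable {I V : Type} [Fintype I] [Fintype V] [DecidableEq I] [DecidableEq V] {C : Cx I V}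
  {x e ν : V → ℚ} {c : I → ℚ} {τ β w : I → V} {v v' j : V} {a b i : I} {E : V → V → ℚ}

def tsL (C : Cx I V) (F : Finset I) (τ : I → V) : (V → ℚ) →ₗ[ℚ] ℚ where
  toFun := C.ts F τ
  map_add' := ts_add
  map_smul' := ts_smul

theorem ts_split (hab : a ≠ b) (y : V → ℚ) : C.ts {a} τ y =
    y (τ b) / C.l (τ b) + ∑ z ∈ ({a, b} : Finset I)ᶜ, y (τ z) / C.l (τ z) := by
  rw [ts, show ({a} : Finset I)ᶜ = insert b ({a, b} : Finset I)ᶜ by
    ext z; by_cases z = b <;> simp_all [hab.symm], sum_insert (by simp)]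

theorem ts_red (hab : a ≠ b) (h : ∀ z, z ≠ a → z ≠ b → C.l (τ z) = 1) (y : V → ℚ) :
    C.ts {a} τ y = y (τ b) / C.l (τ b) + ∑ z ∈ ({a, b} : Finset I)ᶜ, y (τ z) := by
  rw [ts_split hab]
  refine congrArg _ (sum_congr rfl fun z hz => ?_)
  simp only [mem_compl, mem_insert, mem_singleton, not_or] at hz
  simp [h z hz.1 hz.2]

theorem ts_w (hab : a ≠ b) {y : V → ℚ} (h : ∀ z, z ≠ a → z ≠ b → y (τ z) = 0) :
    C.ts {a} τ y = y (τ b) / C.l (τ b) := by
  rw [ts_split hab, sum_eq_zero fun z hz => by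
    simp only [mem_compl, mem_insert, mem_singleton, not_or] at hz
    rw [h z hz.1 hz.2, zero_div], add_zero]

theorem ts_w1 (hab : a ≠ b) {y : V → ℚ} {z : I} (h1 : z ≠ a) (h2 : z ≠ b)
    (h : ∀ z, z ≠ a → z ≠ b → y (τ z) = 0) :
    C.ts {a} (Function.update τ z v) y = y (τ b) / C.l (τ b) + y v / C.l v := by
  rw [ts_split hab, Function.update_of_ne h2.symm, sum_eq_single_of_mem z (by simp [h1, h2])
    fun z' hz k => by
      simp only [mem_compl, mem_insert, mem_singleton, not_or] at hz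
      rw [Function.update_of_ne k, h z' hz.1 hz.2, zero_div], Function.update_self]

theorem Good.tight_int (h : C.Good) (hab : a ≠ b) (hτ : C.Tu τ) (he : IsZ e)
    (h1 : ∀ z, z ≠ a → z ≠ b → C.l (τ z) = 1 ∧ x (τ z) = 0) (h2 : x (τ b) = 1)
    (h3 : C.ts {a} τ e < 0) (h4 : 0 ≤ C.ts {a} τ x + C.ts {a} τ e) :
    C.ts {a} τ x + C.ts {a} τ e = 0 := by
  have l0 := h.lq (hτ b)
  choose k hk using he
  rw [ts_w hab fun z a b => (h1 z a b).2, h2] at h4 ⊢
  have e1 : C.ts {a} τ e = (k (τ b) + C.l (τ b) * ∑ z ∈ ({a, b} : Finset I)ᶜ, k (τ z) : ℤ) /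
      C.l (τ b) := by
    rw [ts_red hab fun z a b => (h1 z a b).1]
    simp only [hk]
    push_cast
    field_simp
  rw [e1] at h3 h4 ⊢
  rw [← add_div] at h4 ⊢
  rw [int_tight rfl ((div_neg_iff.1 h3).resolve_left fun k => k.2.not_gt l0).1
    ((div_nonneg_iff.1 h4).resolve_right fun k => k.2.not_gt l0).1, zero_div]

section
variable (h : C.Good) (f : C.Fr x a b w) (d : C.Du x a b w j e)
include h f d

theorem Good.ch_in (E : C.Eb x a b j e) (hβ : ∀ z, z ≠ a → z ≠ b → β z = w z) (hβ' : C.Tu β)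
    (hv : C.In {a, b} v) (h1 : x v = 1) (h2 : e v < 0) : C.Ch x a β e v := by
  rcases hv.cases2 with k | k
  · obtain ⟨n, hn⟩ := h.int e d.mem v
    have := (h.eb_one f d E).1 v k
    rw [h1] at this
    exact Or.inl ⟨k, h2, by rw [h1]; exact int_tight hn h2 this⟩
  · have k1 : ∀ z, z ≠ a → z ≠ b → Function.update β b v z = w z := fun z z1 z2 => by
      rw [Function.update_of_ne z2, hβ z z1 z2]
    have k2 : C.ts {a} (Function.update β b v) e < 0 := by
      rw [ts_w f.ne fun z z1 z2 => by rw [k1 z z1 z2, d.wz z z1 z2], Function.update_self]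
      exact div_neg_of_neg_of_pos h2 (h.lq k)
    exact Or.inr ⟨b, f.ne.symm, k, k2, h.tight_int f.ne (hβ'.update k) (h.int e d.mem)
      (fun z z1 z2 => by rw [k1 z z1 z2]; exact f.wz z z1 z2) (by simpa using h1) k2
      ((h.eb_one f d E).2 _ (hβ'.update k))⟩

theorem Good.eb_hyp (hy : C.Hyp x b) (hu : ∃ u, C.lf u = some a ∧ x u = 0 ∧ u ≠ j) :
    C.Eb x a b j e :=
  ⟨fun v h1 h2 => absurd h2 (hy v h1), fun _ hτ k => absurd (h.tight hτ f.hB.2 k
    (notMem_singleton.2 f.ne.symm)) (hy _ (hτ b)), Or.inl hu⟩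

theorem Good.vert (hy : C.Hyp x b) (hu : ∀ u, C.lf u = some a → x u = 0 → u = j) :
    C.lf j = some a ∧ C.Lc (dl a b) = (C.l j : ℚ) • e := by
  obtain ⟨u, u1, u2⟩ := h.hyp_zl f hy
  obtain rfl := hu u u1 u2
  refine ⟨u1, ?_⟩
  have := h.mult f d (h.LQ _ (dl_sum (a := a) (b := b))) (fun v h1 h2 h3 =>
    Lc_none ((h1.cases2.resolve_right fun k => hy v k h2).cases.resolve_right
      fun k => h3 (hu v k h2))) f.dl_w
  rwa [Lc_some u1, dl_a f.ne, one_mul] at this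

theorem Good.eb_vert (hy : C.Hyp x b) (hu : ∀ u, C.lf u = some a → x u = 0 → u = j) :
    C.Eb x b a j e := by
  obtain ⟨k1, k2⟩ := h.vert f d hy hu
  have l0 := h.lq k1
  have k3 : ∀ τ, C.Tu τ → 0 ≤ C.ts {b} τ e := fun τ hτ => by
    have := congrArg (C.ts {b} τ) k2
    rw [ts_smul, ts_w f.ne.symm fun z z1 z2 => by rw [Lc_some (hτ z), dl_z z2 z1, zero_mul],
      Lc_some (hτ a), dl_a f.ne, one_mul, div_self (h.lq (hτ a)).ne'] at this
    by_contra k
    nlinarith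
  refine ⟨hu, fun τ hτ _ => k3 τ hτ, Or.inr ⟨k3, fun v hv => ?_⟩⟩
  have := congrFun k2 v
  rw [Lc_none hv, Pi.smul_apply, smul_eq_mul] at this
  exact ((mul_eq_zero.1 this.symm).resolve_left l0.ne').ge

/-- at a vertex of the base polytope every leaf has only one zero -/
theorem Good.vert_uniq (hy : C.Hyp x b) (hu : ∀ u, C.lf u = some a → x u = 0 → u = j) {z : I}
    (h1 : z ≠ a) (h2 : z ≠ b) (hv : C.lf v = some z) (h0 : x v = 0) : v = w z := by
  obtain ⟨k1, k2⟩ := h.vert f d hy hu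
  obtain ⟨ν, n1, n2⟩ := h.surjL x z f.hB ⟨v, hv, h0⟩ _ (isZ_single v)
  obtain ⟨c, c1, c2, -⟩ := h.nrm f ν
  by_contra k
  have e1 := c2 z h1 h2
  rw [Pi.add_apply, n2 _ (in_one (f.tu z)) (f.wz z h1 h2).2, Pi.single_eq_of_ne (Ne.symm k),
    Lc_some (f.tu z), zero_add, (f.wz z h1 h2).1, Nat.cast_one, mul_one] at e1
  have e2 := congrFun (h.mult f d (C.Dir.add_mem (h.le ν n1) (h.LQ c c1.2)) (fun u u1 u2 u3 => by
    have u4 := (u1.cases2.resolve_right fun k => hy u k u2).cases.resolve_right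
      fun k => u3 (hu u k u2)
    rw [Pi.add_apply, n2 u (in_none u4) u2, Lc_none u4, add_zero, Pi.single_eq_of_ne]
    rintro rfl
    rw [hv] at u4
    cases u4) c2) v
  have e3 := congrFun k2 v
  rw [Lc_some hv, dl_z h1 h2, zero_mul, Pi.smul_apply, smul_eq_mul] at e3
  rw [Pi.add_apply, n2 v (in_one hv) h0, Lc_some hv, e1, Pi.smul_apply,
    (mul_eq_zero.1 e3.symm).resolve_left (h.lq k1).ne'] at e2
  simp at e2

end

theorem Good.cntH (h : C.Good) (f : C.Fr x a b w) (hy : C.Hyp x b) {O : Finset V}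
    (hO : ∀ v ∈ O, (C.In {a, b} v ∧ x v = 1) ∨ ((∃ u, C.lf u = some b ∧ x u = 1) ∧
      ∃ z, z ≠ a ∧ z ≠ b ∧ C.lf v = some z ∧ C.l v = 1 ∧ x v = 0 ∧ v ≠ w z)) :
    O.card ≤ (C.sg x a b).card := by
  obtain ⟨E, hE⟩ := h.dus f (Or.inl hy)
  obtain ⟨u0, u1, u2⟩ : ∃ u0, C.lf u0 = some b ∧ ((∃ u, C.lf u = some b ∧ x u = 1) → x u0 = 1) := by
    by_cases k : ∃ u, C.lf u = some b ∧ x u = 1
    · obtain ⟨u, k1, k2⟩ := k
      exact ⟨u, k1, fun _ => k2⟩
    · exact ⟨w b, f.tu b, fun k1 => absurd k1 k⟩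
  have hβ := f.tu.update u1
  have hβ' : ∀ z, z ≠ a → z ≠ b → Function.update w b u0 z = w z := fun z _ z2 =>
    Function.update_of_ne z2 _ _
  have kw : ∀ v ∈ O, ∀ z, z ≠ a → z ≠ b → v ≠ w z := fun v hv z z1 z2 k => by
    rcases hO v hv with k1 | ⟨-, y, -, -, y1, -, -, y2⟩
    · exact not_in2 (f.tu z) z1 z2 (k ▸ k1.1)
    · rw [k, f.tu z] at y1
      cases y1
      exact y2 k
  refine card_le_of_rel (fun v j => ((∃ u, C.lf u = some a ∧ x u = 0 ∧ u ≠ j) →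
      C.Ch x a (Function.update w b u0) (E j) v) ∧
    ((∀ u, C.lf u = some a → x u = 0 → u = j) → C.Ch x b w (E j) v)) (fun v hv => ?_)
    fun j hj v hv v' hv' r r' => ?_
  · rcases hO v hv with ⟨k1, k2⟩ | ⟨k1, z, z1, z2, z3, z4, z5, z6⟩
    · obtain ⟨j, hj, k3⟩ := h.one_neg f hE k1 k2
      exact ⟨j, hj, fun k => h.ch_in f (hE j hj) (h.eb_hyp f (hE j hj) hy k) hβ' hβ k1 k2 k3,
        fun k => h.ch_in f.swap (hE j hj).swap (h.eb_vert f (hE j hj) hy k) (fun _ _ _ => rfl) f.tu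
          (by rwa [pair_comm]) k2 k3⟩
    · have hτ := hβ.update z3
      have t1 : Function.update (Function.update w b u0) z v b = u0 := by
        rw [Function.update_of_ne z2.symm, Function.update_self]
      have t2 : ∀ y, y ≠ a → y ≠ b → C.l (Function.update (Function.update w b u0) z v y) = 1 ∧
          x (Function.update (Function.update w b u0) z v y) = 0 := fun y y1 y2 => by
        by_cases k : y = z
        · rw [k, Function.update_self]; exact ⟨z4, z5⟩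
        · rw [Function.update_of_ne k, hβ' y y1 y2]; exact f.wz y y1 y2
      obtain ⟨j, hj, k3⟩ := h.neg_ex f hE (C.tsL {a} (Function.update (Function.update w b u0) z v))
        ((ts_w f.ne fun y y1 y2 => by
            simp [c0_out (hτ y) y1 y2, t2 y y1 y2]).trans (by
          rw [t1]; simp [c0_in (a := a) (b := b) (pair_comm b a ▸ (in_one u1).two), u2 k1]))
        (h.LQ _ dl_sum) f.dl_w (by
          refine ((ts_w f.ne fun y y1 y2 => ?_).trans_ne ?_)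
          · rw [Lc_some (hτ y), dl_z y1 y2, zero_mul]
          · rw [t1, Lc_some u1, dl_b f.ne]
            simpa using (h.lpos _ _ u1).ne')
      refine ⟨j, hj, fun k => Or.inr ⟨z, z1, z3, k3, h.tight_int f.ne hτ (h.int _ (hE j hj).mem) t2
        (by rw [t1]; exact u2 k1) k3
        ((h.eb_one f (hE j hj) (h.eb_hyp f (hE j hj) hy k)).2 _ hτ)⟩,
        fun k => absurd (h.vert_uniq f (hE j hj) hy k z1 z2 z3 z5) z6⟩
  · by_cases k : ∃ u, C.lf u = some a ∧ x u = 0 ∧ u ≠ j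
    · have k1 : ∀ v ∈ O, ∀ z, z ≠ a → v = Function.update w b u0 z → z = b := fun v hv z z1 z2 =>
        by_contra fun z3 => kw v hv z z1 z3 (z2.trans (hβ' z z1 z3))
      exact h.chU f (hE j hj) (h.eb_hyp f (hE j hj) hy k) hβ (r.1 k) (r'.1 k) (k1 v hv) (k1 v' hv')
    · push Not at k
      have k1 : ∀ v ∈ O, ∀ z, z ≠ b → v = w z → z = a := fun v hv z z1 z2 =>
        by_contra fun z3 => kw v hv z z3 z1 z2
      exact h.chU f.swap (hE j hj).swap (h.eb_vert f (hE j hj) hy k) f.tu (r.2 k) (r'.2 k)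
        (k1 v hv) (k1 v' hv')

end Cx

end Pool.Agent.Work.MP_2a05c6_ag
end

-- merged part: Pool.Agent.Work.MP_2a05c6_ag.CntE
section
/-!
Counting the divisors with coefficient one at an elliptic fixed point.
-/

set_option autoImplicit false
set_option linter.unusedSectionVars false

namespace Pool.Agent.Work.MP_2a05c6_ag

open Finset

namespace Cx

variable {I V : Type} [Fintype I] [Fintype V] [DecidableEq I] [DecidableEq V] {C : Cx I V}
  {x e ν : V → ℚ} {c : I → ℚ} {τ β w : I → V} {v v' j : V} {a b i : I} {E : V → V → ℚ}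

/-- `j` is the only zero of the leaf `b` -/
def Mi (C : Cx I V) (x : V → ℚ) (b : I) (j : V) : Prop := ∀ u, C.lf u = some b → x u = 0 → u = j

theorem Mi.lf (h : C.Mi x b j) (he : C.Ell x) : C.lf j = some b := by
  obtain ⟨u, u1, u2⟩ := he b
  exact h u u1 u2 ▸ u1

theorem tri (C : Cx I V) (x : V → ℚ) (a b : I) (j : V) :
    C.Ta x a b j ∨ C.Mi x a j ∨ C.Mi x b j := by
  by_contra k
  simp only [Ta, Mi, not_or, not_forall, not_and] at k
  obtain ⟨k1, ⟨u, u1, u2, u3⟩, u', u4, u5, u6⟩ := k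
  exact k1 ⟨u, u1, u2, u3⟩ ⟨u', u4, u5, u6⟩

theorem Ta.not_mi (h : C.Ta x a b j) : ¬ C.Mi x b j := fun k => by
  obtain ⟨u, u1, u2, u3⟩ := h.2
  exact u3 (k u u1 u2)

theorem Good.eb_el (h : C.Good) (f : C.Fr x a b w) (d : C.Du x a b w j e) (he : C.ElF x a b w)
    (hm : C.Mi x b j) : C.Eb x a b j e := by
  refine ⟨hm, fun τ hτ k => ?_, Or.inl ?_⟩
  · have k1 := fun z (hz : z ≠ a) => h.tight hτ f.hB.2 k (notMem_singleton.2 hz)
    rw [ts_w f.ne fun z z1 z2 => by rw [he.2 _ z (hτ z) z1 z2 (k1 z z1), d.wz z z1 z2],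
      hm _ (hτ b) (k1 b f.ne.symm), d.one]
    positivity
  · obtain ⟨u, u1, u2⟩ := he.1 a
    refine ⟨u, u1, u2, fun k => ?_⟩
    rw [k, hm.lf he.1] at u1
    cases u1
    exact f.ne rfl

theorem Fr.el_tup (f : C.Fr x a b w) (d : C.Du x a b w j e) {z : I} (h1 : z ≠ a)
    (h2 : z ≠ b) : C.ts {a} (Function.update (Function.update w b j) z v) e =
      1 / C.l j + e v / C.l v ∧
    C.ts {a} (Function.update (Function.update w b j) z v) x = x v / C.l v := by
  constructor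
  · rw [ts_w1 f.ne h1 h2 fun y y1 y2 => by rw [Function.update_of_ne y2, d.wz y y1 y2],
      Function.update_self, d.one]
  · rw [ts_w1 f.ne h1 h2 fun y y1 y2 => by rw [Function.update_of_ne y2, (f.wz y y1 y2).2],
      Function.update_self, d.hj.2, zero_div, zero_add]

/-- a reduced divisor outside the special leaves that is charged to a hyperbolic edge -/
def Sp (C : Cx I V) (x : V → ℚ) (a b : I) (E : V → V → ℚ) (v : V) : Prop :=
  ∃ j ∈ C.sg x a b, C.Mi x b j ∧ C.l j = 1 ∧ C.l v = 1 ∧ E j v = -2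

theorem Good.ch_el (h : C.Good) (f : C.Fr x a b w) (d : C.Du x a b w j e) (he : C.ElF x a b w)
    (hm : C.Mi x b j) (h1 : x v = 1)
    (h2 : (C.In {a, b} v ∧ e v < 0) ∨ (C.l j = 1 ∧ C.l v = 1 ∧ e v = -2)) :
    C.Ch x a (Function.update w b j) e v := by
  by_cases k : C.In {a, b} v
  · exact h.ch_in f d (h.eb_el f d he hm) (fun z _ z2 => Function.update_of_ne z2 _ _)
      (f.tu.update (hm.lf he.1)) k h1 (h2.elim (·.2) fun k => by rw [k.2.2]; norm_num)
  · obtain ⟨k1, k2, k3⟩ := h2.resolve_left fun k1 => k k1.1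
    obtain ⟨z, z1, z2, z3⟩ := of_not_in2 k
    obtain ⟨t1, t2⟩ := f.el_tup (v := v) d z2 z3
    refine Or.inr ⟨z, z2, z1, ?_, ?_⟩
    · rw [t1, k1, k2, k3]; norm_num
    · rw [t1, t2, k1, k2, k3, h1]; norm_num

theorem Good.el_u (h : C.Good) (f : C.Fr x a b w) (d : C.Du x a b w j e) (he : C.ElF x a b w)
    (hm : C.Mi x b j) (h1 : x v = 1) (h2 : x v' = 1) (k1 : C.Ch x a (Function.update w b j) e v)
    (k2 : C.Ch x a (Function.update w b j) e v') : v = v' := by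
  have k : ∀ v, x v = 1 → ∀ z, z ≠ a → v = Function.update w b j z → z = b := fun v hv z z1 z2 =>
    by_contra fun z3 => by
      rw [z2, Function.update_of_ne z3, (f.wz z z1 z3).2] at hv
      exact zero_ne_one hv
  exact h.chU f d (h.eb_el f d he hm) (f.tu.update (hm.lf he.1)) k1 k2 (k v h1) (k v' h2)

theorem Good.cntE (h : C.Good) (f : C.Fr x a b w) (he : C.ElF x a b w) (hE : C.Dus x a b w E)
    {O : Finset V} (hO : ∀ v ∈ O, x v = 1 ∧ (C.In {a, b} v ∨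
      (∃ j ∈ C.sg x a b, C.Ta x a b j ∧ E j v < 0) ∨ C.Sp x a b E v)) :
    O.card ≤ (C.sg x a b).card := by
  have hab : ∀ j, C.Mi x a j → C.Mi x b j → False := fun j k1 k2 => by
    have := (k1.lf he.1).symm.trans (k2.lf he.1)
    cases this
    exact f.ne rfl
  refine card_le_of_rel (fun v j => (C.Ta x a b j → E j v < 0) ∧
    (C.Mi x b j → C.Ch x a (Function.update w b j) (E j) v) ∧
    (C.Mi x a j → C.Ch x b (Function.update w a j) (E j) v)) (fun v hv => ?_)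
    fun j hj v hv v' hv' r r' => ?_
  · obtain ⟨h1, k | ⟨j, hj, k1, k2⟩ | ⟨j, hj, k1, k2⟩⟩ := hO v hv
    · obtain ⟨j, hj, k3⟩ := h.one_neg f hE k h1
      exact ⟨j, hj, fun _ => k3, fun m => h.ch_el f (hE j hj) he m h1 (Or.inl ⟨k, k3⟩),
        fun m => h.ch_el f.swap (hE j hj).swap he.swap m h1 (Or.inl ⟨by rwa [pair_comm], k3⟩)⟩
    · exact ⟨j, hj, fun _ => k2, fun m => absurd m k1.not_mi, fun m => absurd m k1.swap.not_mi⟩
    · exact ⟨j, hj, fun m => absurd k1 m.not_mi, fun m => h.ch_el f (hE j hj) he m h1 (Or.inr k2),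
        fun m => (hab j m k1).elim⟩
  · have h1 := (hO v hv).1
    have h2 := (hO v' hv').1
    rcases C.tri x a b j with k | k | k
    · have t : ∀ v, x v = 1 → E j v < 0 → x v + E j v = 0 := fun v k1 k2 => by
        obtain ⟨n, hn⟩ := h.int _ (hE j hj).mem v
        have := h.ea_one f (hE j hj) he k v
        rw [k1] at this ⊢
        exact int_tight hn k2 this
      exact h.ea_u f (hE j hj) he k (r.1 k) (t v h1 (r.1 k)) (r'.1 k) (t v' h2 (r'.1 k))
    · exact h.el_u f.swap (hE j hj).swap he.swap k h1 h2 (r.2.2 k) (r'.2.2 k)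
    · exact h.el_u f (hE j hj) he k h1 h2 (r.2.1 k) (r'.2.1 k)

theorem Good.sum_out (h : C.Good) (f : C.Fr x a b w) (hE : C.Dus x a b w E) {z : I}
    (hv : C.lf v = some z) (h1 : z ≠ a) (h2 : z ≠ b) :
    ∑ j ∈ C.sg x a b, E j v = 1 - C.l v - x v ∧
      ∑ j ∈ C.sg x a b, C.Lc (dl a b) j * E j v = 0 := by
  constructor
  · rw [← Finset.sum_apply, h.sum1 f hE]
    simp [c0_out hv h1 h2, sub_eq_add_neg]
  · have := congrFun (h.expand f hE (h.LQ _ dl_sum) f.dl_w) v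
    rw [Lc_some hv, dl_z h1 h2, zero_mul, Finset.sum_apply] at this
    exact this.symm

theorem Good.nonexc (h : C.Good) (f : C.Fr x a b w) (he : C.ElF x a b w) (hE : C.Dus x a b w E)
    (h2 : ∀ j, ¬ C.Mi x a j) (hv : ¬ C.In {a, b} v) (h1 : x v = 1) :
    ∃ j ∈ C.sg x a b, C.Ta x a b j ∧ E j v < 0 := by
  obtain ⟨z, z1, z2, z3⟩ := of_not_in2 hv
  obtain ⟨s1, s2⟩ := h.sum_out f hE z1 z2 z3
  by_contra k
  push Not at k
  obtain ⟨j, hj, j1⟩ : ∃ j ∈ C.sg x a b, E j v < 0 := by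
    by_contra k1
    push Not at k1
    have := sum_nonneg k1
    have := h.lq z1
    linarith
  have m : C.Mi x b j := ((C.tri x a b j).resolve_left fun t => (k j hj t).not_gt j1).resolve_left
    (h2 j)
  have t : C.Lc (dl a b) j * E j v = C.l j * -E j v := by
    rw [Lc_some (m.lf he.1), dl_b f.ne]; ring
  have p := mul_pos (h.lq (m.lf he.1)) (neg_pos.2 j1)
  refine p.ne' (t ▸ (sum_eq_zero_iff_of_nonneg fun u hu => ?_).1 s2 j hj)
  rcases (mem_sg.1 hu).1.cases2 with k1 | k1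
  · rcases k1.cases with k2 | k2
    · rw [Lc_none k2, zero_mul]
    · rw [Lc_some k2, dl_a f.ne, one_mul]
      refine mul_nonneg (Nat.cast_nonneg _) (k u hu (((C.tri x a b u).resolve_right ?_)))
      rintro (k3 | k3)
      · exact h2 u k3
      · rw [k3.lf he.1] at k2
        cases k2
        exact f.ne rfl
  · rw [m u k1 (mem_sg.1 hu).2, t]
    exact p.le

section
variable (h : C.Good) (f : C.Fr x a b w) (he : C.ElF x a b w) (hE : C.Dus x a b w E) {p q : V}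
  (hp : C.Mi x a p) (hq : C.Mi x b q)
include h f he hE hp hq

theorem Good.exc_mem : p ∈ C.sg x a b ∧ q ∈ C.sg x a b ∧ p ≠ q ∧
    ∀ u ∈ C.sg x a b, u ≠ p → u ≠ q → C.lf u = none := by
  obtain ⟨u, u1, u2⟩ := he.1 a
  obtain ⟨u', u3, u4⟩ := he.1 b
  obtain rfl := hp u u1 u2
  obtain rfl := hq u' u3 u4
  refine ⟨mem_sg.2 ⟨(in_one u1).two, u2⟩, mem_sg.2 ⟨pair_comm b a ▸ (in_one u3).two, u4⟩,
    fun k => ?_, fun y hy y1 y2 => ?_⟩
  · rw [k, u3] at u1
    cases u1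
    exact f.ne rfl
  · exact ((mem_sg.1 hy).1.cases2.resolve_right fun k => y2 (hq y k (mem_sg.1 hy).2)).cases.resolve_right
      fun k => y1 (hp y k (mem_sg.1 hy).2)

theorem Good.exc_dl : C.Lc (dl a b) = (C.l p : ℚ) • E p - (C.l q : ℚ) • E q := by
  obtain ⟨m1, m2, m3, m4⟩ := h.exc_mem f he hE hp hq
  rw [h.expand f hE (h.LQ _ dl_sum) f.dl_w, sum_eq_add_of_mem p q m1 m2 m3 fun u hu k => by
    rw [Lc_none (m4 u hu k.1 k.2), zero_smul], Lc_some (hp.lf he.1), Lc_some (hq.lf he.1),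
    dl_a f.ne, dl_b f.ne, sub_eq_add_neg]
  simp

theorem Good.cop (hl : C.l p = C.l q) : C.l p = 1 := by
  obtain ⟨m1, m2, -⟩ := h.exc_mem f he hE hp hq
  have l0 := h.lq (hp.lf he.1)
  have e1 : C.Lc ((C.l p : ℚ)⁻¹ • dl a b) = E p - E q := by
    rw [Lc_smul, h.exc_dl f he hE hp hq, ← hl, ← smul_sub, smul_smul, inv_mul_cancel₀ l0.ne',
      one_smul]
  obtain ⟨k, hk⟩ := h.sat ((C.l p : ℚ)⁻¹ • dl a b) (by simp [← mul_sum, dl_sum])
    (e1 ▸ C.ZD.sub_mem (hE p m1).mem (hE q m2).mem) a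
  rw [Pi.smul_apply, dl_a f.ne, smul_eq_mul, mul_one] at hk
  have e2 : (C.l p : ℤ) * k = 1 := by
    have : (C.l p : ℚ) * k = 1 := by rw [← hk, mul_inv_cancel₀ l0.ne']
    exact_mod_cast this
  exact_mod_cast Int.eq_one_of_mul_eq_one_right (Nat.cast_nonneg _) e2

theorem Good.exc (hl : 2 ≤ C.l p) (hv : ¬ C.In {a, b} v) (h1 : x v = 1) (h2 : C.l v = 1) :
    (∃ j ∈ C.sg x a b, C.Ta x a b j ∧ E j v < 0) ∨ C.Sp x a b E v := by
  obtain ⟨m1, m2, m3, m4⟩ := h.exc_mem f he hE hp hq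
  obtain ⟨z, z1, z2, z3⟩ := of_not_in2 hv
  refine or_iff_not_imp_left.2 fun k => ⟨q, m2, hq, ?_⟩
  push Not at k
  have s1 := (h.sum_out f hE z1 z2 z3).1
  have s2 := congrFun (h.exc_dl f he hE hp hq) v
  rw [Lc_some z1, dl_z z2 z3, zero_mul, Pi.sub_apply, Pi.smul_apply, Pi.smul_apply, smul_eq_mul,
    smul_eq_mul] at s2
  have s3 : ∑ u ∈ ({p, q} : Finset V), E u v ≤ ∑ u ∈ C.sg x a b, E u v :=
    sum_le_sum_of_subset_of_nonneg (by simp [insert_subset_iff, m1, m2]) fun u hu k1 => by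
      simp only [mem_insert, mem_singleton, not_or] at k1
      exact k u hu ⟨⟨p, hp.lf he.1, (mem_sg.1 m1).2, Ne.symm k1.1⟩,
        q, hq.lf he.1, (mem_sg.1 m2).2, Ne.symm k1.2⟩
  rw [sum_pair m3, s1, h1, h2] at s3
  have t1 := (h.eb_one f (hE q m2) (h.eb_el f (hE q m2) he hq)).2 _
    ((f.tu.update (hq.lf he.1)).update z1)
  have t2 := (h.eb_one f.swap (hE p m1).swap (h.eb_el f.swap (hE p m1).swap he.swap hp)).2 _
    ((f.tu.update (hp.lf he.1)).update z1)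
  rw [(f.el_tup (hE q m2) z2 z3).1, (f.el_tup (hE q m2) z2 z3).2, h1, h2] at t1
  rw [(f.swap.el_tup (hE p m1).swap z3 z2).1, (f.swap.el_tup (hE p m1).swap z3 z2).2, h1,
    h2] at t2
  obtain ⟨n, hn⟩ := h.int _ (hE p m1).mem v
  obtain ⟨m, hm⟩ := h.int _ (hE q m2).mem v
  have lq := h.lpos _ _ (hq.lf he.1)
  have hc := h.cop f he hE hp hq
  rw [hn] at s2 s3 t2
  rw [hm] at s2 s3 t1 ⊢
  generalize C.l p = A at *
  generalize C.l q = B at *
  have a0 : (2 : ℚ) ≤ A := by exact_mod_cast hl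
  have b0 : (1 : ℚ) ≤ B := by exact_mod_cast lq
  have a1 : (1 : ℚ) / A ≤ 1 / 2 := one_div_le_one_div_of_le two_pos a0
  have b1 : (1 : ℚ) / B ≤ 1 / 1 := one_div_le_one_div_of_le one_pos b0
  simp only [Nat.cast_one, div_one] at s3 t1 t2 b1
  have u1 : -2 < n := by exact_mod_cast (show (-2 : ℚ) < n by linarith)
  have u2 : -2 ≤ m := by exact_mod_cast (show (-2 : ℚ) ≤ m by linarith)
  have u3 : n + m ≤ -1 := by exact_mod_cast (show (n : ℚ) + m ≤ -1 by linarith)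
  have u4 : (A : ℤ) * n = B * m := by exact_mod_cast (show (A : ℚ) * n = B * m by linarith)
  have u5 : n < 0 := by
    by_contra k1
    have : 0 ≤ (A : ℤ) * n := mul_nonneg (by omega) (by omega)
    have : (B : ℤ) * m < 0 := mul_neg_of_pos_of_neg (by omega) (by omega)
    omega
  obtain rfl : n = -1 := by omega
  have u6 : m < 0 := by
    by_contra k1
    have : 0 ≤ (B : ℤ) * m := mul_nonneg (by omega) (by omega)
    omega
  obtain rfl | rfl : m = -1 ∨ m = -2 := by omega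
  · omega
  · refine ⟨by_contra fun k1 => ?_, h2, by norm_num⟩
    have b2 : (2 : ℚ) ≤ B := by exact_mod_cast (show 2 ≤ B by omega)
    have b3 : (1 : ℚ) / B ≤ 1 / 2 := one_div_le_one_div_of_le two_pos b2
    push_cast at t1
    linarith

end

end Cx

end Pool.Agent.Work.MP_2a05c6_ag
end

-- merged part: Pool.Agent.Work.MP_2a05c6_ag.Vert
section
/-!
Vertices give frames; the final counts.
-/

set_option autoImplicit false
set_option linter.unusedSectionVars false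

namespace Pool.Agent.Work.MP_2a05c6_ag

open Finset

namespace Cx

variable {I V : Type} [Fintype I] [Fintype V] [DecidableEq I] [DecidableEq V] {C : Cx I V}
  {x e ν : V → ℚ} {c : I → ℚ} {τ β w : I → V} {v v' j : V} {a b i : I} {E : V → V → ℚ}

theorem IsZ.add {y : V → ℚ} (h : IsZ x) (h' : IsZ y) : IsZ (x + y) := fun v => by
  obtain ⟨k, hk⟩ := h v
  obtain ⟨n, hn⟩ := h' v
  exact ⟨k + n, by simp [hk, hn]⟩

theorem isZ_base : IsZ (1 + C.Lc (c0 a b)) := fun v => by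
  rcases k : C.lf v with _ | i
  · exact ⟨1, by simp [Lc_none k]⟩
  · rw [Pi.add_apply, Lc_some k, c0]
    split_ifs
    exacts [⟨1, by simp⟩, ⟨1 - C.l v, by simp [sub_eq_add_neg]⟩]

theorem Good.ev_int (h : C.Good) (hx : C.EV x) (hab : a ≠ b) : IsZ x := by
  obtain ⟨ν, n1, n2⟩ := h.surjE x hx.1 hx.2.1 _ (isZ_base (C := C) (a := a) (b := b)).neg
  have := hx.2.2 _ (h.sub hx.1.1 ((pt_Lc (c0_sum hab)).add (h.le ν n1))) fun v hv => by
    simp [hv, n2 v hv]
  rw [sub_eq_zero.1 this]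
  exact isZ_base.add (h.int ν n1)

theorem Good.ev_fr (h : C.Good) (hx : C.EV x) (hab : a ≠ b) (hw : ∀ z, z ≠ a → z ≠ b →
    ∃ w, C.lf w = some z ∧ C.l w = 1 ∧ ∀ v, C.lf v = some z → (x v = 0 ↔ v = w)) :
    ∃ w, C.Fr x a b w ∧ C.ElF x a b w := by
  have : ∀ z, ∃ w, C.lf w = some z ∧ (z ≠ a → z ≠ b →
      C.l w = 1 ∧ ∀ v, C.lf v = some z → (x v = 0 ↔ v = w)) := fun z => by
    by_cases k : z ≠ a ∧ z ≠ b
    · obtain ⟨w, w1, w2⟩ := hw z k.1 k.2
      exact ⟨w, w1, fun _ _ => w2⟩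
    · obtain ⟨w, w1⟩ := h.ne z
      exact ⟨w, w1, fun k1 k2 => absurd ⟨k1, k2⟩ k⟩
  choose w w1 w2 using this
  refine ⟨w, ⟨hx.1, h.ev_int hx hab, hab, w1, fun z z1 z2 =>
    ⟨(w2 z z1 z2).1, ((w2 z z1 z2).2 _ (w1 z)).2 rfl⟩, fun e he h1 h2 => hx.2.2 e he fun v hv => ?_⟩,
    hx.2.1, fun v z k z1 z2 => ((w2 z z1 z2).2 v k).1⟩
  by_cases k : C.In {a, b} v
  · exact h1 v k hv
  · obtain ⟨z, z1, z2, z3⟩ := of_not_in2 k
    rw [((w2 z z2 z3).2 v z1).1 hv, h2 z z2 z3]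

theorem Good.sh_B {F : Finset I} (h : C.Good) {y : V → ℚ} (hy : C.Pt y) (hb : b ∉ F)
    (hm : ∀ v i, C.lf v = some i → y (τ i) / C.l (τ i) ≤ y v / C.l v) (hτ : C.Tu τ)
    (h1 : ∀ v, C.In F v → 0 ≤ y v) (h2 : 0 < C.ts F τ y) :
    C.B (y + C.Lc (C.sh F τ y b)) ∧ C.Hyp (y + C.Lc (C.sh F τ y b)) b ∧
      ∀ z, z ∉ F → z ≠ b → (y + C.Lc (C.sh F τ y b)) (τ z) = 0 := by
  refine ⟨⟨hy.add (h.LQ _ (sh_co hb y).2), fun v => ?_⟩, fun v hv => ?_, fun z z1 z2 => ?_⟩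
  · by_cases hv : C.In F v
    · rw [Pi.add_apply, Lc_in hv (sh_co hb y).1, add_zero]
      exact h1 v hv
    · simp only [In, not_forall] at hv
      obtain ⟨i, k1, k2⟩ := hv
      rw [h.sh_val k1 k2]
      have := hm v i k1
      refine mul_nonneg (Nat.cast_nonneg _) ?_
      split_ifs <;> linarith
  · rw [h.sh_val hv hb, if_pos rfl]
    have := hm v b hv
    exact (mul_pos (h.lq hv) (by linarith)).ne'
  · rw [h.sh_val (hτ z) z1, if_neg z2]
    simp

theorem Good.hv_fr (h : C.Good) (hx : C.HV {a} x) (hab : a ≠ b)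
    (hr : ∀ c v z, ∑ i, c i = 0 → C.B (x + C.Lc c) → C.lf v = some z → z ≠ a → z ≠ b →
      (x + C.Lc c) v = 0 → C.l v = 1) :
    ∃ c w, Co {a} c ∧ C.Fr (x + C.Lc c) a b w ∧ C.Hyp (x + C.Lc c) b := by
  obtain ⟨hB, hz, hp, hR⟩ := hx
  obtain ⟨ν, n1, n2⟩ := h.surjL x a hB (hz a (mem_singleton_self a)) _
    (isZ_base (C := C) (a := a) (b := b)).neg
  have p1 := (pt_Lc (C := C) (c0_sum hab)).add (h.le ν n1)
  have p2 : IsZ (1 + C.Lc (c0 a b) + ν) := isZ_base.add (h.int ν n1)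
  obtain ⟨c, c1, c2⟩ := hR _ (h.sub p1 hB.1) fun v h1 h2 => by simp [h2, n2 v h1 h2]
  rw [sub_eq_iff_eq_add'] at c2
  rw [c2] at p1 p2
  obtain ⟨τ, hτ, hm⟩ := h.exists_min (x + C.Lc c)
  have hb : b ∉ ({a} : Finset I) := notMem_singleton.2 hab.symm
  obtain ⟨s1, s2, s3⟩ := h.sh_B p1 hb hm hτ
    (fun v hv => by rw [Pi.add_apply, Lc_in hv c1.1, add_zero]; exact hB.2 v)
    (by rw [ts_add, h.ts_co hτ c1, add_zero]; exact hp τ hτ)
  have s4 := sh_co (C := C) (τ := τ) hb (x + C.Lc c)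
  have s5 : Co {a} (c + C.sh {a} τ (x + C.Lc c) b) :=
    ⟨fun i hi => by simp [c1.1 i hi, s4.1 i hi], by simp [sum_add_distrib, c1.2, s4.2]⟩
  have s6 : x + C.Lc c + C.Lc (C.sh {a} τ (x + C.Lc c) b) =
      x + C.Lc (c + C.sh {a} τ (x + C.Lc c) b) := by rw [Lc_add, add_assoc]
  have s7 : ∀ z, z ≠ a → z ≠ b → C.l (τ z) = 1 := fun z z1 z2 =>
    hr _ _ z s5.2 (s6 ▸ s1) (hτ z) z1 z2 (s6 ▸ s3 z (notMem_singleton.2 z1) z2)
  have s8 : IsZ (x + C.Lc c + C.Lc (C.sh {a} τ (x + C.Lc c) b)) := by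
    refine p2.add (h.int _ (h.LZ _ (fun i => ?_) s4.2))
    choose k hk using p2
    rw [sh]
    split_ifs with k1 k2
    · exact ⟨0, by simp⟩
    · exact ⟨∑ z ∈ ({a, b} : Finset I)ᶜ, k (τ z), by rw [ts_red hab s7, k2]; simp only [hk]; simp⟩
    · exact ⟨-k (τ i), by rw [s7 i (by simpa using k1) k2, hk]; simp⟩
  rw [s6] at s1 s2 s3 s8
  refine ⟨_, τ, s5, ⟨s1, s8, hab, hτ, fun z z1 z2 => ⟨s7 z z1 z2, s3 z (notMem_singleton.2 z1) z2⟩,
    fun e he h1 h2 => ?_⟩, s2⟩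
  obtain ⟨c', d1, d2⟩ := hR e he fun v k1 k2 =>
    h1 v k1.two (by rw [Pi.add_apply, Lc_in k1 s5.1, k2, add_zero])
  have d3 : ∀ z, z ≠ b → c' z = 0 := fun z z2 => by
    by_cases z1 : z = a
    · exact d1.1 z (mem_singleton.2 z1)
    · have := h2 z z1 z2
      rwa [d2, Lc_some (hτ z), s7 z z1 z2, Nat.cast_one, mul_one] at this
  have d4 := d1.2
  rw [sum_eq_single b (fun z _ => d3 z) (by simp)] at d4
  rw [d2, show c' = 0 from funext fun z => by by_cases k : z = b; exacts [k ▸ d4, d3 z k], Lc_zero]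

theorem Good.hv_red (h : C.Good) (hx : C.HV ∅ x) (hB : C.B (x + C.Lc c)) (hv : C.lf v = some i)
    (h0 : (x + C.Lc c) v = 0) :
    C.l v = 1 ∧ ∀ u, C.lf u = some i → (x + C.Lc c) u = 0 → u = v := by
  obtain ⟨ν, n1, n2⟩ := h.surjL _ i hB ⟨v, hv, h0⟩ _ (isZ_single v)
  obtain ⟨c', c1, c2⟩ := hx.2.2.2 ν (h.le ν n1) fun u u1 u2 => by
    have u3 : C.lf u = none := by
      rcases k : C.lf u with _ | y
      exacts [rfl, absurd (u1 y k) (notMem_empty y)]
    rw [n2 u (in_none u3) (by simp [u2, Lc_none u3]), Pi.single_eq_of_ne]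
    rintro rfl
    rw [hv] at u3
    cases u3
  obtain ⟨k, hk⟩ := h.sat c' c1.2 (c2 ▸ n1) i
  have e1 := n2 v (in_one hv) h0
  rw [c2, Lc_some hv, Pi.single_eq_same] at e1
  refine ⟨?_, fun u u1 u2 => by_contra fun u3 => ?_⟩
  · rw [hk] at e1
    have e2 : k * (C.l v : ℤ) = 1 := by exact_mod_cast e1
    exact_mod_cast Int.eq_one_of_mul_eq_one_left (Nat.cast_nonneg _) e2
  · have e2 := n2 u (in_one u1) u2
    rw [c2, Lc_some u1, Pi.single_eq_of_ne u3] at e2
    rw [(mul_eq_zero.1 e2).resolve_right (h.lq u1).ne'] at e1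
    simp at e1

theorem Good.hv0_fr (h : C.Good) (hx : C.HV ∅ x) (hab : a ≠ b) :
    ∃ c w, ∑ i, c i = 0 ∧ C.Fr (x + C.Lc c) a b w ∧ C.Hyp (x + C.Lc c) b ∧
      ∀ v i, C.lf v = some i → (x + C.Lc c) v = 0 →
        C.l v = 1 ∧ ∀ u, C.lf u = some i → (x + C.Lc c) u = 0 → u = v := by
  obtain ⟨τ, hτ, hm⟩ := h.exists_min x
  obtain ⟨s1, -, s3⟩ := h.sh_B hx.1.1 (notMem_empty b) hm hτ (fun v _ => hx.1.2 v) (hx.2.2.1 τ hτ)
  have s4 := sh_co (C := C) (τ := τ) (notMem_empty b) x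
  generalize C.sh ∅ τ x b = c at s1 s3 s4
  have s5 := s3 a (notMem_empty a) hab
  obtain ⟨c', w, d1, d2, d3⟩ := h.hv_fr (a := a) (b := b) (x := x + C.Lc c)
    ⟨s1, fun i hi => ⟨τ a, mem_singleton.1 hi ▸ hτ a, s5⟩, fun σ hσ => by
      have : 0 < C.ts ∅ (Function.update σ a (τ a)) (x + C.Lc c) := by
        rw [ts_add, h.ts_co (hσ.update (hτ a)) s4, add_zero]
        exact hx.2.2.1 _ (hσ.update (hτ a))
      rw [ts, compl_empty, ← sum_add_sum_compl {a}, sum_singleton, Function.update_self, s5, zero_div, zero_add,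
        sum_congr rfl fun z hz => by rw [Function.update_of_ne (by simpa using hz)]] at this
      exact this, fun e he h1 => by
      obtain ⟨c', c1, c2⟩ := hx.2.2.2 e he fun u u1 u2 => h1 u
        (fun y k => absurd (u1 y k) (notMem_empty y)) (by simp [u2, Lc_in u1 s4.1])
      refine ⟨c', ⟨fun i hi => ?_, c1.2⟩, c2⟩
      have := h1 _ (in_one (hτ a)) s5
      rw [c2, Lc_some (hτ a)] at this
      exact mem_singleton.1 hi ▸ (mul_eq_zero.1 this).resolve_right (h.lq (hτ a)).ne'⟩ hab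
    fun c' v z _ k1 k2 _ _ k3 => by
      rw [add_assoc, ← Lc_add] at k1 k3
      exact (h.hv_red hx k1 k2 k3).1
  rw [add_assoc, ← Lc_add] at d2 d3
  exact ⟨_, w, by simp [sum_add_distrib, s4.2, d1.2], d2, d3, fun v i => h.hv_red hx d2.hB⟩

theorem cnt_all (s : Finset V) (hx : IsZ x) (h0 : ∀ v, 0 ≤ x v) : (s.card : ℚ) ≤
    2 * (s.filter fun v => x v = 0).card + (s.filter fun v => x v = 1).card +
      ∑ v ∈ s, (x v - 1) := by
  rw [card_eq_sum_ones s, card_filter, card_filter]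
  push_cast
  rw [mul_sum, ← sum_add_distrib, ← sum_add_distrib]
  refine sum_le_sum fun v _ => ?_
  obtain ⟨k, hk⟩ := hx v
  have := h0 v
  rw [hk] at this ⊢
  split_ifs with k1 k2 k2
  · linarith
  · linarith
  · linarith
  · have a0 : 0 ≤ k := by exact_mod_cast this
    have a1 : k ≠ 0 := by exact_mod_cast k1
    have a2 : k ≠ 1 := by exact_mod_cast k2
    have : (2 : ℚ) ≤ k := by exact_mod_cast (show 2 ≤ k by omega)
    linarith

theorem one_le_of_ne (hx : IsZ x) (h0 : ∀ v, 0 ≤ x v) (h : x v ≠ 0) : 1 ≤ x v := by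
  obtain ⟨k, hk⟩ := hx v
  exact one_le_of_int hk ((h0 v).lt_of_ne' h)

theorem two_le_of_ne (hx : IsZ x) (h0 : ∀ v, 0 ≤ x v) (h : x v ≠ 0) (h1 : x v ≠ 1) : 2 ≤ x v := by
  obtain ⟨k, hk⟩ := hx v
  have := one_le_of_ne hx h0 h
  rw [hk] at this h1 ⊢
  have a0 : 1 ≤ k := by exact_mod_cast this
  have a2 : k ≠ 1 := by exact_mod_cast h1
  exact_mod_cast (show 2 ≤ k by omega)

theorem cnt_rest (s : Finset V) (hx : IsZ x) (h0 : ∀ v, 0 ≤ x v) : (s.card : ℚ) ≤
    (s.filter fun v => x v = 0).card + ∑ v ∈ s, x v := by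
  rw [card_eq_sum_ones s, card_filter]
  push_cast
  rw [← sum_add_distrib]
  refine sum_le_sum fun v _ => ?_
  split_ifs with k1
  · linarith
  · linarith [one_le_of_ne hx h0 k1]

/-- the bound to be proved -/
def Goal (C : Cx I V) : Prop :=
  Fintype.card V + 2 * Fintype.card I ≤ 3 * Module.finrank ℚ C.Dir + 4

theorem card_img (hab : a ≠ b) (w : I → V) :
    ((({a, b} : Finset I)ᶜ.image w).card : ℚ) ≤ Fintype.card I - 2 := by
  have h1 := card_image_le (s := ({a, b} : Finset I)ᶜ) (f := w)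
  have h2 := card_le_univ ({a, b} : Finset I)
  rw [card_compl] at h1
  rw [card_pair hab] at h1 h2
  rw [le_sub_iff_add_le]
  exact_mod_cast (show _ + 2 ≤ _ by omega)

theorem Good.finE (h : C.Good) (f : C.Fr x a b w) (he : C.ElF x a b w) (hE : C.Dus x a b w E)
    (h1 : (univ.filter fun v => x v = 1).card ≤ (C.sg x a b).card)
    (h2 : ∑ v, (x v - 1) ≤ 2 - Fintype.card I) : C.Goal := by
  have k1 := cnt_all univ f.int f.hB.2
  have k2 : ((C.sg x a b).card : ℚ) + Fintype.card I ≤ Module.finrank ℚ C.Dir + 2 := by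
    exact_mod_cast h.sg_card f hE
  have k3 := card_img f.ne w
  have k4 : ((univ.filter fun v => x v = 0).card : ℚ) ≤
      (C.sg x a b).card + (({a, b} : Finset I)ᶜ.image w).card := by
    exact_mod_cast (card_le_card fun v hv => by
      by_cases k : C.In {a, b} v
      · exact mem_union_left _ (mem_sg.2 ⟨k, (mem_filter.1 hv).2⟩)
      · obtain ⟨z, z1, z2, z3⟩ := of_not_in2 k
        exact mem_union_right _ (mem_image.2 ⟨z, by simp [z2, z3],
          (he.2 v z z1 z2 z3 (mem_filter.1 hv).2).symm⟩)).trans (card_union_le _ _)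
  have k5 : ((univ.filter fun v => x v = 1).card : ℚ) ≤ (C.sg x a b).card := by exact_mod_cast h1
  rw [card_univ] at k1
  have : (Fintype.card V : ℚ) + 2 * Fintype.card I ≤ 3 * Module.finrank ℚ C.Dir + 4 := by linarith
  exact_mod_cast this

theorem Good.finC (h : C.Good) (f : C.Fr x a b w) (hE : C.Dus x a b w E) {P : Finset V}
    (hP : ∀ v, v ∈ P ↔ C.In {a, b} v)
    (h1 : ((P.filter fun v => x v = 1).card : ℚ) +
      ((Pᶜ.filter fun v => x v = 0) \ ({a, b} : Finset I)ᶜ.image w).card +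
      (∑ v ∈ P, (x v - 1) + ∑ v ∈ Pᶜ, x v) ≤ (C.sg x a b).card) : C.Goal := by
  have k1 := cnt_all P f.int f.hB.2
  have k2 : ((C.sg x a b).card : ℚ) + Fintype.card I ≤ Module.finrank ℚ C.Dir + 2 := by
    exact_mod_cast h.sg_card f hE
  have k3 := card_img f.ne w
  have k4 := cnt_rest Pᶜ f.int f.hB.2
  have k5 : ((Pᶜ.filter fun v => x v = 0).card : ℚ) ≤
      ((Pᶜ.filter fun v => x v = 0) \ ({a, b} : Finset I)ᶜ.image w).card +
        (({a, b} : Finset I)ᶜ.image w).card := by exact_mod_cast card_le_card_sdiff_add_card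
  have k6 : (P.card : ℚ) + Pᶜ.card = Fintype.card V := by exact_mod_cast card_add_card_compl P
  rw [show (P.filter fun v => x v = 0) = C.sg x a b by ext v; simp [mem_sg, hP]] at k1
  have : (Fintype.card V : ℚ) + 2 * Fintype.card I ≤ 3 * Module.finrank ℚ C.Dir + 4 := by linarith
  exact_mod_cast this

end Cx

end Pool.Agent.Work.MP_2a05c6_ag
end

-- merged part: Pool.Agent.Work.MP_2a05c6_ag.CaseA
section
/-!
The weighted functional and the case of at least three non-reduced leaves.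
-/

set_option autoImplicit false
set_option linter.unusedSectionVars false

namespace Pool.Agent.Work.MP_2a05c6_ag

open Finset

namespace Cx

variable {I V : Type} [Fintype I] [Fintype V] [DecidableEq I] [DecidableEq V] {C : Cx I V}
  {x e ν : V → ℚ} {c ε : I → ℚ} {τ β w p q : I → V} {v v' j : V} {a b i : I} {E : V → V → ℚ}

/-- the sum of the exponents of a leaf -/
def Ls (C : Cx I V) (i : I) : ℚ := ∑ v ∈ univ.filter fun v => C.lf v = some i, C.l v

theorem sum_Lc (c : I → ℚ) : ∑ v, C.Lc c v = ∑ i, c i * C.Ls i := by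
  simp only [Ls, mul_sum, sum_filter]
  rw [sum_comm]
  refine sum_congr rfl fun v _ => ?_
  rcases k : C.lf v with _ | i
  · simp [Lc_none k]
  · simp [Lc_some k]

theorem le_Ls (hv : C.lf v = some i) : (C.l v : ℚ) ≤ C.Ls i :=
  single_le_sum (f := fun v => (C.l v : ℚ)) (fun _ _ => Nat.cast_nonneg _) (by simp [hv])

theorem Good.one_le_Ls (h : C.Good) (i : I) : 1 ≤ C.Ls i := by
  obtain ⟨v, hv⟩ := h.ne i
  exact le_trans (by exact_mod_cast h.lpos v i hv) (le_Ls hv)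

def GG (p q : I → V) (ε : I → ℚ) : (V → ℚ) →ₗ[ℚ] ℚ where
  toFun y := ∑ v, y v + ∑ i, ε i * (y (p i) + y (q i))
  map_add' x y := by
    simp only [Pi.add_apply, mul_add, sum_add_distrib]
    ring
  map_smul' t x := by
    simp only [Pi.smul_apply, smul_eq_mul, RingHom.id_apply, mul_add, mul_sum, mul_left_comm]

theorem GG_apply (y : V → ℚ) : GG p q ε y = ∑ v, y v + ∑ i, ε i * (y (p i) + y (q i)) := rfl

def Wt (C : Cx I V) (p q : I → V) (ε : I → ℚ) (i : I) : ℚ :=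
  C.Ls i + ε i * (C.l (p i) + C.l (q i))

theorem GG_Lc (hp : C.Tu p) (hq : C.Tu q) (c : I → ℚ) :
    GG p q ε (C.Lc c) = ∑ i, c i * C.Wt p q ε i := by
  rw [GG_apply, sum_Lc, ← sum_add_distrib]
  refine sum_congr rfl fun i _ => ?_
  rw [Lc_some (hp i), Lc_some (hq i), Wt]
  ring

theorem GG_co (hp : C.Tu p) (hq : C.Tu q) {F : Finset I} {W : ℚ}
    (hW : ∀ i, i ∉ F → C.Wt p q ε i = W) (hc : ∀ i ∈ F, c i = 0) :
    GG p q ε (C.Lc c) = (∑ i, c i) * W := by
  rw [GG_Lc hp hq, sum_mul]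
  refine sum_congr rfl fun i _ => ?_
  by_cases k : i ∈ F
  · simp [hc i k]
  · rw [hW i k]

theorem Good.finNE (h : C.Good) (hx : C.EV x) (hi : ∀ j, ¬ C.Mi x i j)
    (h2 : ∑ v, (x v - 1) ≤ 2 - Fintype.card I) : C.Goal := by
  have key : ∀ a b w, C.Fr x a b w → C.ElF x a b w → (∀ j, ¬ C.Mi x a j) → C.Goal :=
    fun a b w f he k => by
      obtain ⟨E, hE⟩ := h.dus f (Or.inr he)
      refine h.finE f he hE (h.cntE f he hE fun v hv => ⟨(mem_filter.1 hv).2, ?_⟩) h2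
      exact or_iff_not_imp_left.2 fun k1 => Or.inl (h.nonexc f he hE k k1 (mem_filter.1 hv).2)
  obtain ⟨a, b, hab, hw⟩ := h.jac x hx.1 hx.2.1
  obtain ⟨w, f, he⟩ := h.ev_fr hx hab hw
  by_cases k1 : i = a
  · exact key a b w f he (k1 ▸ hi)
  by_cases k2 : i = b
  · exact key b a w f.swap he.swap (k2 ▸ hi)
  · exact absurd (fun u u1 u2 => he.2 u i u1 k1 k2 u2) (hi (w i))

theorem three_le {f : I → ℚ} (hf : ∀ i, 0 ≤ f i) {y y' z : I} (h1 : y ≠ y') (h2 : y ≠ z)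
    (h3 : y' ≠ z) : f y + f y' + f z ≤ ∑ i, f i := by
  have := sum_le_sum_of_subset_of_nonneg (subset_univ ({y, y', z} : Finset I))
    fun i _ _ => hf i
  rwa [sum_insert (by simp [h1, h2]), sum_pair h3, ← add_assoc] at this

theorem two_of {N : Finset I} (hN : 3 ≤ N.card) (z : I) :
    ∃ y ∈ N, ∃ y' ∈ N, y ≠ y' ∧ y ≠ z ∧ y' ≠ z := by
  have := pred_card_le_card_erase (s := N) (a := z)
  obtain ⟨y, h1, y', h2, h3⟩ := one_lt_card.1 (show 1 < (N.erase z).card by omega)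
  exact ⟨y, mem_of_mem_erase h1, y', mem_of_mem_erase h2, h3, ne_of_mem_erase h1,
    ne_of_mem_erase h2⟩

theorem Good.caseA (h : C.Good) {N : Finset I} (hN : 3 ≤ N.card) (hp : C.Tu p)
    (hl : ∀ y ∈ N, 2 ≤ C.l (p y)) : C.Goal := by
  obtain ⟨a0, b0, hab0⟩ := Fintype.exists_pair_of_one_lt_card (show 1 < Fintype.card I from h.two)
  obtain ⟨m, -, hm⟩ := exists_max_image univ C.Ls ⟨a0, mem_univ _⟩
  obtain ⟨M, hM⟩ : ∃ M : ℚ, M = 6 * (2 * C.Ls m + Fintype.card V) + 6 := ⟨_, rfl⟩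
  obtain ⟨ε, hε⟩ : ∃ ε : I → ℚ, ∀ i, ε i = (C.Ls m + M - C.Ls i) / (2 * C.l (p i)) :=
    ⟨_, fun _ => rfl⟩
  have hW : ∀ i, i ∉ (∅ : Finset I) → C.Wt p p ε i = C.Ls m + M := fun i _ => by
    have := (h.lq (hp i)).ne'
    rw [Wt, hε]
    field_simp
    ring
  have hG : ∀ c : I → ℚ, GG p p ε (C.Lc c) = (∑ i, c i) * (C.Ls m + M) := fun c =>
    GG_co hp hp hW fun i hi => absurd hi (notMem_empty i)
  obtain ⟨c, c1, c2⟩ := h.origin
  obtain ⟨ee, hee⟩ : ∃ ee : (V → ℚ) → I → ℚ, ∀ y i, ee y i = 1 + (y (p i) - 1) / C.l (p i) :=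
    ⟨_, fun _ _ => rfl⟩
  have e0 : ∀ y, C.B y → ∀ i, 1 - 1 / (C.l (p i) : ℚ) ≤ ee y i := fun y hy i => by
    rw [hee, sub_div]
    linarith [div_nonneg (hy.2 (p i)) (h.lq (hp i)).le]
  have e1 : ∀ y, C.B y → ∀ i, 0 ≤ ee y i := fun y hy i => by
    have : 1 / (C.l (p i) : ℚ) ≤ 1 :=
      (div_le_one (h.lq (hp i))).2 (by exact_mod_cast h.lpos _ _ (hp i))
    linarith [e0 y hy i]
  have e2 : ∀ y, C.B y → ∀ i ∈ N, 1 / 2 ≤ ee y i := fun y hy i hi => by
    have : 1 / (C.l (p i) : ℚ) ≤ 1 / 2 :=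
      one_div_le_one_div_of_le two_pos (by exact_mod_cast hl i hi)
    linarith [e0 y hy i]
  have e3 : ∀ y, C.B y → IsZ y → ∀ i, y (p i) ≠ 0 → 1 ≤ ee y i := fun y hy hz i k => by
    rw [hee]
    linarith [div_nonneg (sub_nonneg.2 (one_le_of_ne hz hy.2 k)) (h.lq (hp i)).le]
  have ms : ∀ y, GG p p ε y ≤ GG p p ε (1 + C.Lc c) → ∑ v, (y v - 1) +
      ∑ i, (C.Ls i + (C.Ls m - C.Ls i) * ee y i) + M * (∑ i, ee y i - 2) ≤ 2 * C.Ls m :=
    fun y hy => by
      rw [map_add, hG, c1, GG_apply, GG_apply] at hy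
      have k : ∑ i, ε i * (y (p i) + y (p i)) = ∑ i, (ε i * ((1 : V → ℚ) (p i) + (1 : V → ℚ) (p i)) +
          (C.Ls i + (C.Ls m - C.Ls i) * ee y i) + M * ee y i - (C.Ls m + M)) :=
        sum_congr rfl fun i _ => by
          have := (h.lq (hp i)).ne'
          rw [hε, hee, Pi.one_apply]
          field_simp
          ring
      rw [k, sum_sub_distrib, sum_add_distrib, sum_add_distrib, ← mul_sum, sum_const, card_univ,
        nsmul_eq_mul] at hy
      rw [sum_sub_distrib]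
      simp only [Pi.one_apply] at hy
      linarith
  have L0 := h.one_le_Ls
  have bad : ∀ y, C.B y → GG p p ε y ≤ GG p p ε (1 + C.Lc c) → ¬ 2 + 1 / 6 ≤ ∑ i, ee y i :=
    fun y hy k1 k2 => by
      have k3 := ms y k1
      have k4 : 0 ≤ ∑ i, (C.Ls i + (C.Ls m - C.Ls i) * ee y i) := sum_nonneg fun i _ =>
        add_nonneg (by linarith [L0 i]) (mul_nonneg (sub_nonneg.2 (hm i (mem_univ i))) (e1 y hy i))
      have k5 : ∑ _v : V, (-1 : ℚ) ≤ ∑ v, (y v - 1) := sum_le_sum fun v _ => by linarith [hy.2 v]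
      rw [sum_const, card_univ, nsmul_eq_mul] at k5
      have k6 : (0 : ℚ) ≤ Fintype.card V := Nat.cast_nonneg _
      nlinarith [L0 m]
  obtain ⟨x, x1, hx | hx⟩ := h.desc (F := ∅) (GG p p ε) (fun c hc => by rw [hG, hc.2, zero_mul]) c2
    fun i hi => absurd hi (notMem_empty i)
  · obtain ⟨a, b, hab, hw⟩ := h.jac x hx.1 hx.2.1
    obtain ⟨w, f, he⟩ := h.ev_fr hx hab hw
    have nz : ∀ y ∈ N, y ≠ a → y ≠ b → x (p y) ≠ 0 := fun y hy y1 y2 k => by
      have := hl y hy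
      rw [he.2 _ y (hp y) y1 y2 k, (f.wz y y1 y2).1] at this
      omega
    obtain ⟨z, z1, z2⟩ : ∃ z ∈ N, z ∉ ({a, b} : Finset I) :=
      exists_mem_notMem_of_card_lt_card (by rw [card_pair hab]; omega)
    simp only [mem_insert, mem_singleton, not_or] at z2
    obtain ⟨y, y1, y', y2, y3, y4, y5⟩ := two_of hN z
    have s1 := three_le (e1 x hx.1) y3 y4 y5
    have s2 := e3 x hx.1 f.int z (nz z z1 z2.1 z2.2)
    have s3 := e2 x hx.1 y y1
    have s4 := e2 x hx.1 y' y2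
    by_cases hex : ∃ i, ∀ j, ¬ C.Mi x i j
    · obtain ⟨i, hi⟩ := hex
      refine h.finNE hx hi ?_
      obtain ⟨u, u1, u', u2, u3, u4, u5⟩ := two_of hN m
      have k3 := ms x x1
      have k4 : ∑ i, (1 + (if i = m then C.Ls m - 1 else 0) + (if i = u then C.Ls m / 2 else 0) +
          if i = u' then C.Ls m / 2 else 0) ≤ ∑ i, (C.Ls i + (C.Ls m - C.Ls i) * ee x i) :=
        sum_le_sum fun i _ => by
          have t0 := sub_nonneg.2 (hm i (mem_univ i))
          have t1 := mul_nonneg t0 (e1 x hx.1 i)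
          have t2 : i ∈ N → 1 + C.Ls m / 2 ≤ C.Ls i + (C.Ls m - C.Ls i) * ee x i := fun hi => by
            have := mul_le_mul_of_nonneg_left (e2 x hx.1 i hi) t0
            have : (2 : ℚ) ≤ C.Ls i := le_trans (by exact_mod_cast hl i hi) (le_Ls (hp i))
            linarith
          by_cases t3 : i = m
          · simp [t3, u4.symm, u5.symm]
          by_cases t4 : i = u
          · simpa [t4, u4, u3] using t2 (t4 ▸ u1)
          by_cases t5 : i = u'
          · simpa [t5, u5, u3.symm] using t2 (t5 ▸ u2)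
          · simp only [if_neg t3, if_neg t4, if_neg t5]
            linarith [L0 i]
      simp only [sum_add_distrib, sum_ite_eq', mem_univ, if_true, sum_const, card_univ,
        nsmul_one] at k4
      have k5 : 0 ≤ M * (∑ i, ee x i - 2) := mul_nonneg (by rw [hM]; linarith [L0 m,
        (Nat.cast_nonneg (Fintype.card V) : (0 : ℚ) ≤ _)]) (by linarith)
      rw [sum_add_distrib] at k3
      linarith
    · push Not at hex
      choose r hr using hex
      obtain ⟨E, hE⟩ := h.dus f (Or.inr he)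
      have hc := h.cop f he hE (hr a) (hr b)
      refine (bad x hx.1 x1 ?_).elim
      by_cases t1 : x (p y) = 0
      swap
      · linarith [e3 x hx.1 f.int y t1]
      by_cases t2 : x (p y') = 0
      swap
      · linarith [e3 x hx.1 f.int y' t2]
      have t3 := hl y y1
      have t4 := hl y' y2
      have t5 : C.l (p y) ≠ C.l (p y') := by
        rw [hr y _ (hp y) t1] at t3 ⊢
        rw [hr y' _ (hp y') t2] at t4 ⊢
        have a1 : y = a ∨ y = b := by_contra fun k => nz y y1 (not_or.1 k).1 (not_or.1 k).2 t1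
        have a2 : y' = a ∨ y' = b := by_contra fun k => nz y' y2 (not_or.1 k).1 (not_or.1 k).2 t2
        rcases a1 with rfl | rfl <;> rcases a2 with rfl | rfl <;> first | omega | exact absurd rfl y3
      have t6 : ∀ i, 3 ≤ C.l (p i) → 2 / 3 ≤ ee x i := fun i hi => by
        have : 1 / (C.l (p i) : ℚ) ≤ 1 / 3 :=
          one_div_le_one_div_of_le three_pos (by exact_mod_cast hi)
        linarith [e0 x hx.1 i]
      rcases (show 3 ≤ C.l (p y) ∨ 3 ≤ C.l (p y') by omega) with k | k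
      · linarith [t6 y k]
      · linarith [t6 y' k]
  · obtain ⟨c', w, d1, f, -, d2⟩ := h.hv0_fr hx hab0
    have k : ∀ y ∈ N, 1 ≤ ee (x + C.Lc c') y := fun y hy => e3 _ f.hB f.int y fun k => by
      have := (d2 _ y (hp y) k).1
      have := hl y hy
      omega
    obtain ⟨z, hz⟩ := card_pos.1 (show 0 < N.card by omega)
    obtain ⟨y, y1, y', y2, y3, y4, y5⟩ := two_of hN z
    refine (bad _ f.hB (by rwa [map_add, hG, d1, zero_mul, add_zero]) ?_).elim
    linarith [three_le (e1 _ f.hB) y3 y4 y5, k y y1, k y' y2, k z hz]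

end Cx

end Pool.Agent.Work.MP_2a05c6_ag
end

-- merged part: Pool.Agent.Work.MP_2a05c6_ag.CaseB
section
/-!
The case of at most two non-reduced leaves.
-/

set_option autoImplicit false
set_option linter.unusedSectionVars false

namespace Pool.Agent.Work.MP_2a05c6_ag

open Finset

namespace Cx

variable {I V : Type} [Fintype I] [Fintype V] [DecidableEq I] [DecidableEq V] {C : Cx I V}
  {x e ν : V → ℚ} {c ε : I → ℚ} {τ β w p q : I → V} {v v' j : V} {a b i : I} {E : V → V → ℚ}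
  {P : Finset V}

theorem split_ineq (hab : a ≠ b) (hr : ∀ v z, C.lf v = some z → z ≠ a → z ≠ b → C.l v = 1)
    (hp : C.Tu p) (hq : C.Tu q) (hP : ∀ v, v ∈ P ↔ C.In {a, b} v)
    (hx : GG p q ε x ≤ GG p q ε (1 + C.Lc (c0 a b))) :
    ∑ v ∈ P, (x v - 1) + ∑ v ∈ Pᶜ, x v + ε a * (x (p a) + x (q a) - 2) +
      ε b * (x (p b) + x (q b) - 2) +
      ∑ z ∈ ({a, b} : Finset I)ᶜ, ε z * (x (p z) + x (q z)) ≤ 0 := by
  have k1 : ∀ v, C.In {a, b} v → (1 + C.Lc (c0 a b) : V → ℚ) v = 1 := fun v hv => by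
    simp [c0_in hv]
  have k2 : ∀ v z, C.lf v = some z → z ≠ a → z ≠ b → (1 + C.Lc (c0 a b) : V → ℚ) v = 0 :=
    fun v z h1 h2 h3 => by simp [c0_out h1 h2 h3, hr v z h1 h2 h3]
  have k3 : ∀ v, C.lf v = some b → C.In {a, b} v := fun v hv => pair_comm b a ▸ (in_one hv).two
  rw [GG_apply, GG_apply, ← sum_add_sum_compl P, ← sum_add_sum_compl P,
    ← sum_add_sum_compl {a, b}, ← sum_add_sum_compl {a, b}, sum_pair hab, sum_pair hab,
    sum_congr rfl fun v hv => k1 v ((hP v).1 hv),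
    sum_eq_zero (s := Pᶜ) (f := fun v => (1 + C.Lc (c0 a b) : V → ℚ) v) fun v hv => by
      obtain ⟨z, z1, z2, z3⟩ := of_not_in2 fun k => mem_compl.1 hv ((hP v).2 k)
      exact k2 v z z1 z2 z3,
    sum_eq_zero (s := ({a, b} : Finset I)ᶜ) (f := fun i => ε i *
      ((1 + C.Lc (c0 a b) : V → ℚ) (p i) + (1 + C.Lc (c0 a b) : V → ℚ) (q i))) fun z hz => by
      simp only [mem_compl, mem_insert, mem_singleton, not_or] at hz
      rw [k2 _ z (hp z) hz.1 hz.2, k2 _ z (hq z) hz.1 hz.2, add_zero, mul_zero],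
    k1 _ (in_one (hp a)).two, k1 _ (in_one (hq a)).two, k1 _ (k3 _ (hp b)),
    k1 _ (k3 _ (hq b))] at hx
  rw [sum_sub_distrib]
  linarith

theorem base_B (hab : a ≠ b) (hr : ∀ v z, C.lf v = some z → z ≠ a → z ≠ b → C.l v = 1) :
    C.B (1 + C.Lc (c0 a b)) := ⟨pt_Lc (c0_sum hab), fun v => by
  by_cases k : C.In {a, b} v
  · simp [c0_in k]
  · obtain ⟨z, z1, z2, z3⟩ := of_not_in2 k
    simp [c0_out z1 z2 z3, hr v z z1 z2 z3]⟩

theorem Fr.img (f : C.Fr x a b w) (hP : ∀ v, v ∈ P ↔ C.In {a, b} v) (s : Finset V) (hs : s ⊆ Pᶜ) :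
    ((s \ ({a, b} : Finset I)ᶜ.image w).card : ℚ) ≤ Pᶜ.card - (Fintype.card I - 2) := by
  have h1 : (({a, b} : Finset I)ᶜ.image w).card = ({a, b} : Finset I)ᶜ.card :=
    card_image_of_injective _ fun y z k => by
      have := f.tu y
      rw [k, f.tu z] at this
      cases this
      rfl
  have h2 : ({a, b} : Finset I)ᶜ.image w ⊆ Pᶜ := fun v hv => by
    obtain ⟨z, z1, rfl⟩ := mem_image.1 hv
    simp only [mem_compl, mem_insert, mem_singleton, not_or] at z1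
    exact mem_compl.2 fun k => not_in2 (f.tu z) z1.1 z1.2 ((hP _).1 k)
  have h3 := card_sdiff_add_card_eq_card h2
  have h4 := card_le_card (sdiff_subset_sdiff hs (Subset.refl (({a, b} : Finset I)ᶜ.image w)))
  have h5 := card_add_card_compl ({a, b} : Finset I)
  rw [card_pair f.ne] at h5
  have h6 : (s \ ({a, b} : Finset I)ᶜ.image w).card + Fintype.card I ≤ Pᶜ.card + 2 := by omega
  have h7 : ((s \ ({a, b} : Finset I)ᶜ.image w).card : ℚ) + Fintype.card I ≤ Pᶜ.card + 2 := by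
    exact_mod_cast h6
  linarith

theorem Good.caseB (h : C.Good) (hab : a ≠ b)
    (hr : ∀ v z, C.lf v = some z → z ≠ a → z ≠ b → C.l v = 1) (hp : C.Tu p) (hq : C.Tu q)
    (hP : ∀ v, v ∈ P ↔ C.In {a, b} v) (hε : ∀ i, 0 ≤ ε i) {W : ℚ}
    (hW : ∀ i, i ≠ a → C.Wt p q ε i = W)
    (P0 : ε a = 0 ∨ (2 ≤ C.l (p a) ∧ 2 ≤ C.l (q a)))
    (P1 : (2 ≤ C.l (p b) ∧ 2 ≤ C.l (q b)) ∨ ε b = 0 ∨
      (p b ≠ q b ∧ ∃ z, z ≠ a ∧ z ≠ b ∧ p z ≠ q z ∧ ε b ≤ ε z))
    (P2 : 2 * ε a + 2 * ε b ≤ Pᶜ.card - (Fintype.card I - 2))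
    (P3 : C.Wt p q ε a = W ∨ (ε a = 0 ∧ 2 * ε b = Pᶜ.card - (Fintype.card I - 2) ∧
      W ≤ C.Wt p q ε a)) : C.Goal := by
  have X0 : ∀ x, C.B x → ∀ z ∈ ({a, b} : Finset I)ᶜ, 0 ≤ ε z * (x (p z) + x (q z)) :=
    fun x hx z _ => mul_nonneg (hε z) (add_nonneg (hx.2 _) (hx.2 _))
  have T0 : ∀ x, C.B x → IsZ x → ∀ i, x (p i) ≠ 0 → x (q i) ≠ 0 →
      0 ≤ ε i * (x (p i) + x (q i) - 2) := fun x hx hz i h1 h2 =>
    mul_nonneg (hε i) (by linarith [one_le_of_ne hz hx.2 h1, one_le_of_ne hz hx.2 h2])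
  have T1 : ∀ x, C.B x → IsZ x → ∀ i, (∀ v, C.lf v = some i → x v = 0 → C.l v = 1) →
      2 ≤ C.l (p i) ∧ 2 ≤ C.l (q i) → 0 ≤ ε i * (x (p i) + x (q i) - 2) := fun x hx hz i h1 h2 =>
    T0 x hx hz i (fun k => by have := h1 _ (hp i) k; omega) fun k => by have := h1 _ (hq i) k; omega
  have T2 : ∀ x, C.B x → IsZ x → ∀ i r, C.Mi x i r → p i ≠ q i → 1 ≤ x (p i) + x (q i) :=
    fun x hx hz i r h1 h2 => by
      by_cases k : x (p i) = 0
      · linarith [one_le_of_ne hz hx.2 fun k1 => h2 ((h1 _ (hp i) k).trans (h1 _ (hq i) k1).symm)]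
      · linarith [one_le_of_ne hz hx.2 k, hx.2 (q i)]
  have emp : ∀ (x : V → ℚ) (w : I → V), (∀ v z, C.lf v = some z → z ≠ a → z ≠ b → x v = 0 → v = w z) →
      (Pᶜ.filter fun v => x v = (0 : ℚ)) \ ({a, b} : Finset I)ᶜ.image w = ∅ := fun x w k =>
    sdiff_eq_empty_iff_subset.2 fun v hv => by
      obtain ⟨z, z1, z2, z3⟩ := of_not_in2 fun k => mem_compl.1 (mem_filter.1 hv).1 ((hP v).2 k)
      exact mem_image.2 ⟨z, by simp [z2, z3], (k v z z1 z2 z3 (mem_filter.1 hv).2).symm⟩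
  have ell : ∀ x, C.EV x → GG p q ε x ≤ GG p q ε (1 + C.Lc (c0 a b)) → C.Goal := fun x hx k => by
    have s1 := split_ineq hab hr hp hq hP k
    have s2 := sum_nonneg (X0 x hx.1)
    have s3 : ∑ v, (x v - 1) ≤ 2 - Fintype.card I := by
      rw [← sum_add_sum_compl P, sum_sub_distrib (s := Pᶜ), sum_const, nsmul_one]
      nlinarith [mul_nonneg (hε a) (add_nonneg (hx.1.2 (p a)) (hx.1.2 (q a))),
        mul_nonneg (hε b) (add_nonneg (hx.1.2 (p b)) (hx.1.2 (q b)))]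
    by_cases hex : ∃ i, ∀ j, ¬ C.Mi x i j
    · obtain ⟨i, hi⟩ := hex
      exact h.finNE hx hi s3
    push Not at hex
    choose r r1 using hex
    have r2 := fun i => (r1 i).lf hx.2.1
    have r3 : ∀ i, x (r i) = 0 := fun i => by
      obtain ⟨u, u1, u2⟩ := hx.2.1 i
      exact r1 i u u1 u2 ▸ u2
    obtain ⟨w, f, he⟩ := h.ev_fr hx hab fun z z1 z2 => ⟨r z, r2 z, hr _ z (r2 z) z1 z2,
      fun v hv => ⟨r1 z v hv, fun k => k ▸ r3 z⟩⟩
    obtain ⟨E, hE⟩ := h.dus f (Or.inr he)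
    by_cases k1 : 2 ≤ C.l (r a)
    · refine h.finE f he hE (h.cntE f he hE fun v hv => ⟨(mem_filter.1 hv).2, ?_⟩) s3
      refine or_iff_not_imp_left.2 fun k2 => ?_
      obtain ⟨z, z1, z2, z3⟩ := of_not_in2 k2
      exact h.exc f he hE (r1 a) (r1 b) k1 k2 (mem_filter.1 hv).2 (hr v z z1 z2 z3)
    by_cases k2 : 2 ≤ C.l (r b)
    · refine h.finE f.swap he.swap hE.swap (h.cntE f.swap he.swap hE.swap fun v hv =>
        ⟨(mem_filter.1 hv).2, ?_⟩) s3
      refine or_iff_not_imp_left.2 fun k3 => ?_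
      obtain ⟨z, z1, z2, z3⟩ := of_not_in2 k3
      exact h.exc f.swap he.swap hE.swap (r1 b) (r1 a) k2 k3 (mem_filter.1 hv).2 (hr v z z1 z3 z2)
    have t1 : ((P.filter fun v => x v = 1).card : ℚ) ≤ (C.sg x a b).card := by
      exact_mod_cast h.cntE f he hE fun v hv =>
        ⟨(mem_filter.1 hv).2, Or.inl ((hP v).1 (mem_filter.1 hv).1)⟩
    have t2 : ∀ i, ¬ 2 ≤ C.l (r i) → ∀ v, C.lf v = some i → x v = 0 → C.l v = 1 :=
      fun i k3 v h1 h2 => by
        have := h.lpos _ _ (r2 i)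
        rw [r1 i v h1 h2]
        omega
    have t3 : 0 ≤ ε a * (x (p a) + x (q a) - 2) :=
      P0.elim (fun k => by rw [k, zero_mul]) (T1 x hx.1 f.int a (t2 a k1))
    refine h.finC f hE hP ?_
    rw [emp x w he.2, card_empty, Nat.cast_zero]
    rcases P1 with k3 | k3 | ⟨k3, z, z1, z2, z3, z4⟩
    · linarith [T1 x hx.1 f.int b (t2 b k2) k3]
    · rw [k3] at s1; linarith
    · have t4 := single_le_sum (X0 x hx.1) (show z ∈ ({a, b} : Finset I)ᶜ by simp [z1, z2])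
      have t5 := mul_le_mul_of_nonneg_left (T2 x hx.1 f.int z _ (r1 z) z3) (hε z)
      have t6 := mul_le_mul_of_nonneg_left (T2 x hx.1 f.int b _ (r1 b) k3) (hε b)
      linarith
  have hB := base_B hab hr
  rcases P3 with P3 | ⟨P3, P4, P5⟩
  · have hG : ∀ c : I → ℚ, GG p q ε (C.Lc c) = (∑ i, c i) * W := fun c =>
      GG_co (F := ∅) hp hq (fun i _ => by by_cases k : i = a; exacts [k ▸ P3, hW i k])
        fun i hi => absurd hi (notMem_empty i)
    obtain ⟨x, x1, hx | hx⟩ := h.desc (F := ∅) (GG p q ε)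
      (fun c hc => by rw [hG, hc.2, zero_mul]) hB fun i hi => absurd hi (notMem_empty i)
    · exact ell x hx x1
    obtain ⟨c, w, d1, f, hy, d2⟩ := h.hv0_fr hx hab
    have s1 := split_ineq (x := x + C.Lc c) hab hr hp hq hP
      (by rwa [map_add, hG, d1, zero_mul, add_zero])
    generalize x + C.Lc c = y at f hy d2 s1
    obtain ⟨E, hE⟩ := h.dus f (Or.inl hy)
    have t1 : ((P.filter fun v => y v = 1).card : ℚ) ≤ (C.sg y a b).card := by
      exact_mod_cast h.cntH f hy fun v hv =>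
        Or.inl ⟨(hP v).1 (mem_filter.1 hv).1, (mem_filter.1 hv).2⟩
    have t3 : 0 ≤ ε a * (y (p a) + y (q a) - 2) := P0.elim (fun k => by rw [k, zero_mul])
      (T1 y f.hB f.int a fun v h1 h2 => (d2 v a h1 h2).1)
    refine h.finC f hE hP ?_
    rw [emp y w fun v z h1 h2 h3 h4 => (d2 _ z (f.tu z) (f.wz z h2 h3).2).2 v h1 h4, card_empty,
      Nat.cast_zero]
    linarith [T0 y f.hB f.int b (hy _ (hp b)) (hy _ (hq b)), sum_nonneg (X0 y f.hB)]
  · have hG : ∀ c : I → ℚ, Co {a} c → GG p q ε (C.Lc c) = 0 := fun c hc => by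
      rw [GG_co (F := {a}) hp hq (fun i hi => hW i (notMem_singleton.1 hi)) hc.1, hc.2, zero_mul]
    obtain ⟨t, c, t0, hc, hB1, hk⟩ := h.move (F := univ) hB (h.LQ _ (dl_sum (a := b) (b := a))) (by
      rintro ⟨c, c1, c2⟩
      have := congrFun c2 (p a)
      rw [Lc_some (hp a), Lc_some (hp a), c1.1 a (mem_univ a), dl_b hab.symm] at this
      linarith [h.lq (hp a)])
    rw [show c = 0 from funext fun i => hc.1 i (mem_univ i), Lc_zero, add_zero] at hB1
    rcases hk with ⟨τ, -, a1, -⟩ | ⟨u, -, a1, a2⟩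
    · simp [ts] at a1
    have u1 : C.lf u = some a := by
      rcases k : C.lf u with _ | y
      · rw [Lc_none k] at a1; exact absurd a1 (lt_irrefl _)
      · by_contra k1
        rw [Lc_some k, dl, if_neg (show y ≠ a from fun e => k1 (e ▸ rfl))] at a1
        refine a1.not_ge (mul_nonneg ?_ (Nat.cast_nonneg _))
        split_ifs <;> norm_num
    have g1 : GG p q ε (1 + C.Lc (c0 a b) + t • C.Lc (dl b a)) ≤ GG p q ε (1 + C.Lc (c0 a b)) := by
      rw [map_add, map_smul, GG_Lc hp hq (dl b a), ← sum_add_sum_compl {a, b}, sum_pair hab,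
        dl_a hab.symm, dl_b hab.symm, hW b hab.symm, sum_eq_zero fun z hz => by
          simp only [mem_compl, mem_insert, mem_singleton, not_or] at hz
          rw [dl_z hz.2 hz.1, zero_mul], smul_eq_mul]
      nlinarith
    obtain ⟨x, x1, hx | hx⟩ := h.desc (F := {a}) (GG p q ε) hG hB1 fun i hi =>
      ⟨u, mem_singleton.1 hi ▸ u1, a2⟩
    · exact ell x hx (x1.trans g1)
    obtain ⟨c, w, d1, f, hy⟩ := h.hv_fr hx hab fun _ v z _ _ h1 h2 h3 _ => hr v z h1 h2 h3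
    have s1 := split_ineq (x := x + C.Lc c) hab hr hp hq hP
      (by rw [map_add, hG c d1, add_zero]; exact x1.trans g1)
    generalize x + C.Lc c = y at f hy s1
    obtain ⟨E, hE⟩ := h.dus f (Or.inl hy)
    have s2 := sum_nonneg (X0 y f.hB)
    rw [P3] at s1
    refine h.finC f hE hP ?_
    by_cases k : ∃ u, C.lf u = some b ∧ y u = 1
    · have t1 := h.cntH f hy (O := (P.filter fun v => y v = 1) ∪
        ((Pᶜ.filter fun v => y v = 0) \ ({a, b} : Finset I)ᶜ.image w)) fun v hv => by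
          rcases mem_union.1 hv with hv | hv
          · exact Or.inl ⟨(hP v).1 (mem_filter.1 hv).1, (mem_filter.1 hv).2⟩
          · obtain ⟨v1, v2⟩ := mem_sdiff.1 hv
            obtain ⟨z, z1, z2, z3⟩ := of_not_in2 fun k =>
              mem_compl.1 (mem_filter.1 v1).1 ((hP v).2 k)
            exact Or.inr ⟨k, z, z2, z3, z1, hr v z z1 z2 z3, (mem_filter.1 v1).2,
              fun e => v2 (mem_image.2 ⟨z, by simp [z2, z3], e.symm⟩)⟩
      rw [card_union_of_disjoint (disjoint_left.2 fun v h1 h2 =>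
        mem_compl.1 (mem_filter.1 (mem_sdiff.1 h2).1).1 (mem_filter.1 h1).1)] at t1
      have t2 : ((P.filter fun v => y v = 1).card : ℚ) + ((Pᶜ.filter fun v => y v = 0) \
        ({a, b} : Finset I)ᶜ.image w).card ≤ (C.sg y a b).card := by exact_mod_cast t1
      linarith [T0 y f.hB f.int b (hy _ (hp b)) (hy _ (hq b))]
    · have t1 : ((P.filter fun v => y v = 1).card : ℚ) ≤ (C.sg y a b).card := by
        exact_mod_cast h.cntH f hy fun v hv =>
          Or.inl ⟨(hP v).1 (mem_filter.1 hv).1, (mem_filter.1 hv).2⟩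
      have t2 := f.img hP _ (filter_subset (fun v => y v = 0) Pᶜ)
      have t3 := two_le_of_ne f.int f.hB.2 (hy _ (hp b)) fun e => k ⟨_, hp b, e⟩
      have t4 := two_le_of_ne f.int f.hB.2 (hy _ (hq b)) fun e => k ⟨_, hq b, e⟩
      have t5 := mul_le_mul_of_nonneg_left (show 2 ≤ y (p b) + y (q b) - 2 by linarith) (hε b)
      linarith

end Cx

end Pool.Agent.Work.MP_2a05c6_ag
end

-- merged part: Pool.Agent.Work.MP_2a05c6_ag.Core
section
/-!
The choice of the weights and the combinatorial form of the theorem.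
-/

set_option autoImplicit false
set_option linter.unusedSectionVars false

namespace Pool.Agent.Work.MP_2a05c6_ag

open Finset

namespace Cx

variable {I V : Type} [Fintype I] [Fintype V] [DecidableEq I] [DecidableEq V] {C : Cx I V}
  {a b i : I} {P : Finset V}

theorem card_rest (hab : a ≠ b) (hr : ∀ v z, C.lf v = some z → z ≠ a → z ≠ b → C.l v = 1)
    (hP : ∀ v, v ∈ P ↔ C.In {a, b} v) : (Pᶜ.card : ℚ) - (Fintype.card I - 2) =
      ∑ z ∈ ({a, b} : Finset I)ᶜ, (C.Ls z - 1) := by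
  have h1 := sum_Lc (C := C) (c0 a b)
  rw [← sum_add_sum_compl P, sum_eq_zero fun v hv => c0_in ((hP v).1 hv),
    sum_congr rfl (s₁ := Pᶜ) (g := fun _ => (-1 : ℚ)) fun v hv => by
      obtain ⟨z, z1, z2, z3⟩ := of_not_in2 fun k => mem_compl.1 hv ((hP v).2 k)
      simp [c0_out z1 z2 z3, hr v z z1 z2 z3],
    ← sum_add_sum_compl {a, b}, sum_eq_zero (s := {a, b}) fun i hi => by rw [c0, if_pos hi, zero_mul],
    sum_congr rfl (s₁ := ({a, b} : Finset I)ᶜ) (g := fun z => -C.Ls z) fun z hz => by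
      rw [c0, if_neg (mem_compl.1 hz), neg_one_mul], sum_const, sum_neg_distrib] at h1
  have h2 : (2 : ℚ) + ({a, b} : Finset I)ᶜ.card = Fintype.card I := by
    have := card_add_card_compl ({a, b} : Finset I)
    rw [card_pair hab] at this
    exact_mod_cast this
  rw [sum_sub_distrib, sum_const]
  simp only [nsmul_eq_mul] at h1 ⊢
  linarith

theorem Good.pq (h : C.Good) : ∃ p q, C.Tu p ∧ C.Tu q ∧ ∀ i, C.l (p i) = C.l (q i) ∧
    ((∃ v, C.lf v = some i ∧ 2 ≤ C.l v) → 2 ≤ C.l (p i)) ∧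
    ((¬ ∃ v, C.lf v = some i ∧ 2 ≤ C.l v) → 1 < C.Ls i → p i ≠ q i) := by
  suffices k : ∀ i, ∃ p q, C.lf p = some i ∧ C.lf q = some i ∧ C.l p = C.l q ∧
      ((∃ v, C.lf v = some i ∧ 2 ≤ C.l v) → 2 ≤ C.l p) ∧
      ((¬ ∃ v, C.lf v = some i ∧ 2 ≤ C.l v) → 1 < C.Ls i → p ≠ q) by
    choose p q h1 h2 h3 using k
    exact ⟨p, q, h1, h2, h3⟩
  intro i
  by_cases k : ∃ v, C.lf v = some i ∧ 2 ≤ C.l v
  · obtain ⟨v, v1, v2⟩ := id k
    exact ⟨v, v, v1, v1, rfl, fun _ => v2, fun k1 => absurd k k1⟩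
  have k1 : ∀ v, C.lf v = some i → C.l v = 1 := fun v hv => by
    have := h.lpos v i hv
    have : ¬ 2 ≤ C.l v := fun k2 => k ⟨v, hv, k2⟩
    omega
  by_cases k2 : ∃ p q, C.lf p = some i ∧ C.lf q = some i ∧ p ≠ q
  · obtain ⟨p, q, h1, h2, h3⟩ := k2
    exact ⟨p, q, h1, h2, by rw [k1 p h1, k1 q h2], fun k3 => absurd k3 k, fun _ _ => h3⟩
  · obtain ⟨v, hv⟩ := h.ne i
    refine ⟨v, v, hv, hv, rfl, fun k3 => absurd k3 k, fun _ k3 => absurd k3 ?_⟩
    rw [Ls, sum_eq_single_of_mem v (by simp [hv]) fun u hu k4 =>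
      absurd ⟨u, v, by simpa using hu, hv, k4⟩ k2, k1 v hv]
    simp

theorem Good.goal (h : C.Good) : C.Goal := by
  classical
  obtain ⟨p, q, hp, hq, hpq⟩ := h.pq
  obtain ⟨N, hN⟩ : ∃ N : Finset I, ∀ i, i ∈ N ↔ ∃ v, C.lf v = some i ∧ 2 ≤ C.l v :=
    ⟨univ.filter fun i => ∃ v, C.lf v = some i ∧ 2 ≤ C.l v, fun i => by simp⟩
  simp only [← hN] at hpq
  rcases le_or_gt 3 N.card with h3 | h3
  · exact h.caseA h3 hp fun y hy => (hpq y).2.1 hy
  have red : ∀ v z, C.lf v = some z → z ∉ N → C.l v = 1 := fun v z hv hz => by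
    have := h.lpos v z hv
    have : ¬ 2 ≤ C.l v := fun k2 => hz ((hN z).2 ⟨v, hv, k2⟩)
    omega
  have lp : ∀ i, (1 : ℚ) ≤ C.l (p i) := fun i => by exact_mod_cast h.lpos _ _ (hp i)
  have L0 := h.one_le_Ls
  have wt : ∀ (ε : I → ℚ) W i, ε i = (W - C.Ls i) / (2 * C.l (p i)) → C.Wt p q ε i = W :=
    fun ε W i k => by
      have := (h.lq (hp i)).ne'
      rw [Wt, k, ← (hpq i).1]
      field_simp
      ring
  obtain ⟨a0, b0, hab0⟩ := Fintype.exists_pair_of_one_lt_card (show 1 < Fintype.card I from h.two)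
  obtain ⟨m, -, hm⟩ := exists_max_image univ C.Ls ⟨a0, mem_univ _⟩
  have hP : ∀ a b v, v ∈ univ.filter (C.In {a, b}) ↔ C.In {a, b} v := fun a b v => by simp
  have sK : ∀ a b z, z ≠ a → z ≠ b → C.Ls z - 1 ≤ ∑ z ∈ ({a, b} : Finset I)ᶜ, (C.Ls z - 1) :=
    fun a b z z1 z2 => single_le_sum (f := fun z => C.Ls z - 1) (fun i _ => sub_nonneg.2 (L0 i))
      (by simp [z1, z2])
  by_cases hA : m ∉ N ∧ N.card = 2
  · obtain ⟨a, b, hab, rfl⟩ := card_eq_two.1 hA.2
    have hr : ∀ v z, C.lf v = some z → z ≠ a → z ≠ b → C.l v = 1 := fun v z h1 h2 h3 =>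
      red v z h1 (by simp [h2, h3])
    have ha := (hpq a).2.1 (by simp)
    have hb := (hpq b).2.1 (by simp)
    have k : ∀ i, 2 ≤ C.l (p i) → 2 * ((C.Ls m - C.Ls i) / (2 * C.l (p i))) ≤ (C.Ls m - 2) / 2 :=
      fun i hi => by
        have l2 : (2 : ℚ) ≤ C.l (p i) := by exact_mod_cast hi
        have l3 := le_Ls (hp i)
        have l4 := hm i (mem_univ i)
        rw [← mul_div_assoc, mul_div_mul_left _ _ two_ne_zero, div_le_div_iff₀ (by linarith) two_pos]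
        nlinarith
    refine h.caseB (ε := fun i => (C.Ls m - C.Ls i) / (2 * C.l (p i))) hab hr hp hq (hP a b)
      (fun i => div_nonneg (sub_nonneg.2 (hm i (mem_univ i))) (by positivity))
      (fun i _ => wt _ _ i rfl) (Or.inr ⟨ha, (hpq a).1 ▸ ha⟩) (Or.inl ⟨hb, (hpq b).1 ▸ hb⟩) ?_
      (Or.inl (wt _ _ a rfl))
    have hm' := hA.1
    simp only [mem_insert, mem_singleton, not_or] at hm'
    rw [card_rest hab hr (hP a b)]
    linarith [k a ha, k b hb, sK a b m hm'.1 hm'.2]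
  obtain ⟨b, hb, hr, hb'⟩ : ∃ b, m ≠ b ∧ (∀ z, z ≠ m → z ≠ b → z ∉ N) ∧
      (b ∉ N → ∀ z, z ≠ m → C.Ls z ≤ C.Ls b) := by
    by_cases k : ∃ b ∈ N, m ≠ b
    · obtain ⟨b, b1, b2⟩ := k
      refine ⟨b, b2, fun z z1 z2 z3 => hA ?_, fun k => absurd b1 k⟩
      have k1 := card_le_card (show ({z, b} : Finset I) ⊆ N by simp [insert_subset_iff, z3, b1])
      rw [card_pair z2] at k1
      refine ⟨fun k2 => ?_, by omega⟩
      have k3 := card_le_card (show ({m, z, b} : Finset I) ⊆ N by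
        simp [insert_subset_iff, z3, b1, k2])
      rw [card_insert_of_notMem (by simp [z1.symm, b2]), card_pair z2] at k3
      omega
    · obtain ⟨b, b1, b2⟩ := exists_max_image (univ.erase m) C.Ls (by
        by_cases k1 : a0 = m
        exacts [⟨b0, by simp [← k1, hab0.symm]⟩, ⟨a0, by simp [k1]⟩])
      exact ⟨b, (ne_of_mem_erase b1).symm, fun z z1 _ z3 => k ⟨z, z3, z1.symm⟩,
        fun _ z z1 => b2 z (by simp [z1])⟩
  have hr' : ∀ v z, C.lf v = some z → z ≠ m → z ≠ b → C.l v = 1 := fun v z h1 h2 h3 =>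
    red v z h1 (hr z h2 h3)
  have hK := card_rest hb hr' (hP m b)
  have sK' := sK m b
  have K0 : 0 ≤ ∑ z ∈ ({m, b} : Finset I)ᶜ, (C.Ls z - 1) :=
    sum_nonneg fun i _ => sub_nonneg.2 (L0 i)
  have K1 : 0 < ∑ z ∈ ({m, b} : Finset I)ᶜ, (C.Ls z - 1) → ∃ z, z ≠ m ∧ z ≠ b ∧ 1 < C.Ls z :=
    fun k => by
      obtain ⟨z, z1, z2⟩ := exists_lt_of_sum_lt (f := fun _ => (0 : ℚ)) (sum_const_zero.trans_lt k)
      simp only [mem_compl, mem_insert, mem_singleton, not_or] at z1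
      exact ⟨z, z1.1, z1.2, by linarith⟩
  generalize ∑ z ∈ ({m, b} : Finset I)ᶜ, (C.Ls z - 1) = K at hK sK' K0 K1
  obtain ⟨W, hW⟩ : ∃ W, W = min (C.Ls m) (C.Ls b + C.l (p b) * K) := ⟨_, rfl⟩
  have W1 : W ≤ C.Ls b + C.l (p b) * K := hW ▸ min_le_right _ _
  have W2 : ∀ i, i ≠ m → C.Ls i ≤ W := fun i hi => by
    refine hW ▸ le_min (hm i (mem_univ i)) ?_
    have := mul_le_mul_of_nonneg_right (lp b) K0
    by_cases k : i = b
    · rw [k]; linarith
    · linarith [sK' i hi k, L0 b]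
  obtain ⟨ε, hε⟩ : ∃ ε : I → ℚ, ∀ i,
      ε i = if i = m then 0 else (W - C.Ls i) / (2 * C.l (p i)) := ⟨_, fun _ => rfl⟩
  have ε0 : ε m = 0 := by rw [hε, if_pos rfl]
  have ε1 : 2 * ε b * C.l (p b) = W - C.Ls b := by
    have := (h.lq (hp b)).ne'
    rw [hε, if_neg hb.symm]
    field_simp
  have ε2 : C.Wt p q ε m = C.Ls m := by rw [Wt, ε0, zero_mul, add_zero]
  refine h.caseB (ε := ε) (W := W) hb hr' hp hq (hP m b) (fun i => ?_)
    (fun i hi => wt _ _ i (by rw [hε, if_neg hi])) (Or.inl ε0) ?_ ?_ ?_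
  · rw [hε]
    split_ifs with k
    exacts [le_rfl, div_nonneg (sub_nonneg.2 (W2 i k)) (by positivity)]
  · by_cases k : b ∈ N
    · exact Or.inl ⟨(hpq b).2.1 k, (hpq b).1 ▸ (hpq b).2.1 k⟩
    refine Or.inr (or_iff_not_imp_left.2 fun k1 => ?_)
    rw [red _ b (hp b) k, Nat.cast_one] at ε1 W1
    obtain ⟨z, z1, z2, z3⟩ := K1 (by
      have := (W2 b hb.symm).lt_of_ne fun e => k1 (by linarith)
      linarith)
    have z4 := hb' k z z1
    refine ⟨(hpq b).2.2 k (z3.trans_le z4), z, z1, z2, (hpq z).2.2 (hr z z1 z2) z3, ?_⟩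
    rw [hε z, if_neg z1, hr' _ z (hp z) z1 z2, Nat.cast_one]
    linarith
  · rw [hK, ε0]
    have := h.lq (hp b)
    by_contra k
    nlinarith
  · rw [ε2, hK]
    rcases le_total (C.Ls m) (C.Ls b + C.l (p b) * K) with k | k
    · exact Or.inl (by rw [hW, min_eq_left k])
    · refine Or.inr ⟨ε0, mul_right_cancel₀ (h.lq (hp b)).ne' ?_, hW ▸ min_le_left _ _⟩
      rw [ε1, hW, min_eq_right k]
      ring

end Cx

end Pool.Agent.Work.MP_2a05c6_ag
end

-- merged part: Pool.Agent.Work.MP_2a05c6_ag.BrA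
section
/-!
From the Cox ring data to the combinatorial data: the lattice part.
-/

set_option autoImplicit false

namespace Pool.Agent.Work.MP_2a05c6_ag

open Finset MvPolynomial

theorem common_den {ι : Type} [Fintype ι] (ξ : ι → ℚ) :
    ∃ N : ℕ, 0 < N ∧ ∃ η : ι → ℤ, ∀ k, (N : ℚ) * ξ k = η k := by
  refine ⟨∏ k, (ξ k).den, prod_pos fun k _ => (ξ k).pos, ?_⟩
  have : ∀ k, ∃ z : ℤ, ((∏ k, (ξ k).den : ℕ) : ℚ) * ξ k = z := fun k => by
    obtain ⟨M, hM⟩ := dvd_prod_of_mem (fun k => (ξ k).den) (mem_univ k)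
    exact ⟨M * (ξ k).num, by rw [hM]; push_cast; rw [← Rat.den_mul_eq_num]; ring⟩
  choose η hη using this
  exact ⟨η, hη⟩

theorem exists_char {A : Type} [AddCommGroup A] {a : A} (h : a ≠ 0) :
    ∃ χ : Multiplicative A →* ℂˣ, χ (.ofAdd a) ≠ 1 := by
  obtain ⟨c, hc⟩ := CharacterModule.exists_character_apply_ne_zero_of_ne_zero h
  let e : ℚ →+ Additive ℂˣ :=
    { toFun := fun q => .ofMul (Units.mk0 (Complex.exp (q * (2 * Real.pi * Complex.I)))
        (Complex.exp_ne_zero _))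
      map_zero' := by ext; simp
      map_add' := fun p q => by ext; simp [add_mul, Complex.exp_add] }
  have he : ∀ q, e q = 0 ↔ q ∈ AddSubgroup.zmultiples (1 : ℚ) := fun q => by
    have : e q = 0 ↔ Complex.exp (q * (2 * Real.pi * Complex.I)) = 1 :=
      ⟨fun k => by simpa [e] using congrArg (fun u => ((Additive.toMul u : ℂˣ) : ℂ)) k,
        fun k => by ext; simp [e, k]⟩
    rw [this, Complex.exp_eq_one_iff, AddSubgroup.mem_zmultiples_iff]
    refine exists_congr fun n => ?_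
    rw [mul_left_inj' Complex.two_pi_I_ne_zero, zsmul_one]
    exact ⟨fun k => by exact_mod_cast k.symm, fun k => by rw [← k]; simp⟩
  let f : AddCircle (1 : ℚ) →+ Additive ℂˣ :=
    QuotientAddGroup.lift _ e fun q hq => (he q).2 hq
  refine ⟨AddMonoidHom.toMultiplicativeLeft (f.comp c), fun k => hc ?_⟩
  have k1 : f (c a) = 0 := k
  obtain ⟨q, hq⟩ := QuotientAddGroup.mk_surjective (c a)
  rw [← hq] at k1 ⊢
  exact (QuotientAddGroup.eq_zero_iff q).2 ((he q).1 k1)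

namespace APData

variable (D : APData)

def phi : (Fin D.r ⊕ Fin D.s → ℚ) →ₗ[ℚ] D.Var → ℚ where
  toFun ξ v := ∑ k, ξ k * D.P k v
  map_add' ξ η := by ext v; simp [add_mul, sum_add_distrib]
  map_smul' t ξ := by
    ext v
    simp only [Pi.smul_apply, smul_eq_mul, RingHom.id_apply, mul_sum, mul_assoc]

def cx : Cx (Fin (D.r + 1)) D.Var where
  lf := Sum.elim (fun t => some t.1) fun _ => none
  l := Sum.elim (fun t => D.l t.1 t.2) fun _ => 0
  Dir := LinearMap.range D.phi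
  ZD := (AddMonoidHom.comp D.phi.toAddMonoidHom
    (AddMonoidHom.compLeft (Int.castAddHom ℚ) _)).range

variable {D}

theorem mem_ZD {e : D.Var → ℚ} : e ∈ D.cx.ZD ↔ ∃ η : Fin D.r ⊕ Fin D.s → ℤ,
    D.phi (fun k => η k) = e := Iff.rfl

theorem phi_int (η : Fin D.r ⊕ Fin D.s → ℤ) (v : D.Var) :
    D.phi (fun k => η k) v = ((∑ k, η k • D.P k) v : ℤ) := by
  simp [phi, Finset.sum_apply]

theorem Lc_eq (c : Fin (D.r + 1) → ℚ) (v : D.Var) :
    D.cx.Lc c v = ∑ i, c i * D.expo i v := by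
  rcases v with t | k
  · simp [Cx.Lc, cx, expo]
  · simp [Cx.Lc, cx, expo]

theorem Lc_phi {c : Fin (D.r + 1) → ℚ} (hc : ∑ i, c i = 0) :
    D.phi (Sum.elim (fun i => c i.succ) 0) = D.cx.Lc c := by
  ext v
  rw [Fin.sum_univ_succ] at hc
  rw [Lc_eq, Fin.sum_univ_succ, eq_neg_of_add_eq_zero_left hc]
  simp [phi, P, mul_sub, sum_mul]
  ring

theorem Admissible.zero (h : D.Admissible) {ξ : Fin D.r ⊕ Fin D.s → ℚ} (h0 : ∀ v, 0 ≤ D.phi ξ v) :
    ξ = 0 := by
  obtain ⟨t, t0, ht⟩ := h.col_cone (-ξ)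
  have h1 : ∑ k, ξ k * ξ k = -∑ v, t v * D.phi ξ v := by
    simp only [phi, LinearMap.coe_mk, AddHom.coe_mk, mul_sum]
    rw [sum_comm, ← sum_neg_distrib]
    refine sum_congr rfl fun k _ => ?_
    have : ξ k = -∑ v, t v * D.P k v := by rw [← ht k]; simp
    rw [sum_congr rfl fun v _ => mul_left_comm (t v) (ξ k) _, ← mul_sum, ← mul_neg, ← this]
  have h2 := sum_nonneg fun v (_ : v ∈ univ) => mul_nonneg (t0 v) (h0 v)
  have h3 := sum_nonneg fun k (_ : k ∈ univ) => mul_self_nonneg (ξ k)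
  exact funext fun k => mul_self_eq_zero.1 ((sum_eq_zero_iff_of_nonneg fun k _ =>
    mul_self_nonneg (ξ k)).1 (by linarith) k (mem_univ k))

theorem Admissible.inj (h : D.Admissible) : Function.Injective D.phi :=
  (injective_iff_map_eq_zero _).2 fun _ k => h.zero fun v => by rw [k]; rfl

theorem Admissible.rank (h : D.Admissible) :
    Module.finrank ℤ D.K + (D.r + D.s) = Fintype.card D.Var := by
  have h1 : LinearIndependent ℤ D.P := Fintype.linearIndependent_iff.2 fun η hη k => by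
    have := congrFun (h.zero (ξ := fun k => η k) fun v => by rw [phi_int, hη]; rfl) k
    simpa using this
  have h2 := (Submodule.span ℤ (Set.range D.P)).finrank_quotient_add_finrank
  rw [finrank_span_eq_card h1] at h2
  simpa using h2

/-- the integral vector of the anticanonical divisor -/
def kap (D : APData) : D.Var → ℤ := 1 - (D.r - 1 : ℕ) • D.expo 0

theorem mk_eq (y : D.Var → ℤ) : (Submodule.Quotient.mk y : D.K) = ∑ v, y v • D.deg v := by
  conv_lhs => rw [← univ_sum_single y]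
  rw [← Submodule.mkQ_apply, map_sum]
  refine sum_congr rfl fun v _ => ?_
  rw [deg, ← Submodule.mkQ_apply, ← map_smul, ← Pi.single_smul, smul_eq_mul, mul_one]

theorem antican_eq : D.antican = Submodule.Quotient.mk D.kap := by
  rw [kap, Submodule.Quotient.mk_sub, ← Submodule.mkQ_apply _ (_ • _), map_nsmul,
    Submodule.mkQ_apply, mk_eq, mk_eq (D.expo 0), antican]
  congr 1
  · simp
  · congr 1
    rw [Fintype.sum_sum_type, Fintype.sum_sigma, sum_eq_single (0 : Fin (D.r + 1))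
      (f := fun i => ∑ j, D.expo 0 (.inl ⟨i, j⟩) • D.deg (.inl ⟨i, j⟩)) (fun i _ hi => by
      simp [expo, hi]) (by simp)]
    simp [expo]

theorem weight_eq (μ : D.Var →₀ ℕ) :
    Finsupp.weight D.deg μ = Submodule.Quotient.mk fun v => (μ v : ℤ) := by
  rw [mk_eq, Finsupp.weight_eq_sum]
  simp

theorem mk_iff {y y' : D.Var → ℤ} : (Submodule.Quotient.mk y : D.K) = Submodule.Quotient.mk y' ↔
    ∃ η : Fin D.r ⊕ Fin D.s → ℤ, ∀ v, D.phi (fun k => η k) v = y v - y' v := by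
  rw [Submodule.Quotient.eq, Submodule.mem_span_range_iff_exists_fun]
  refine exists_congr fun η => ⟨fun k v => by rw [phi_int, k]; simp, fun k => funext fun v => ?_⟩
  have := k v
  rw [phi_int] at this
  exact_mod_cast this

def ck (D : APData) : Fin (D.r + 1) → ℚ := Pi.single 0 (1 - (D.r : ℚ))

theorem Admissible.kap_eq (h : D.Admissible) (v : D.Var) :
    (D.kap v : ℚ) = (1 + D.cx.Lc D.ck : D.Var → ℚ) v := by
  rw [Pi.add_apply, Lc_eq, sum_eq_single 0 (fun i _ hi => by simp [ck, hi]) (by simp)]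
  simp [kap, ck, Nat.cast_sub h.r_pos]
  ring

theorem kap_sum : ∑ i, D.ck i = 2 - Fintype.card (Fin (D.r + 1)) := by
  simp [ck]
  ring

theorem Admissible.nem (h : D.Admissible) {z : D.Var → ℂ} (hz : D.Semistable z) :
    ∃ x, D.cx.B x := by
  obtain ⟨-, k, k0, f, f1, f2⟩ := hz
  obtain ⟨μ, hμ⟩ := ne_zero_iff.1 (show f ≠ 0 from fun e => f2 (by simp [e]))
  have h1 := f1 hμ
  rw [weight_eq, antican_eq, ← Submodule.mkQ_apply _ D.kap, ← map_nsmul, Submodule.mkQ_apply,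
    mk_iff] at h1
  obtain ⟨η, hη⟩ := h1
  have k1 : (k : ℚ) ≠ 0 := by positivity
  refine ⟨fun v => μ v / k, ⟨_, kap_sum, (k : ℚ)⁻¹ • fun j => (η j : ℚ), funext fun v => ?_⟩,
    fun v => by positivity⟩
  rw [map_smul, Pi.smul_apply, hη, Pi.sub_apply, ← h.kap_eq]
  simp only [Pi.smul_apply, nsmul_eq_mul, smul_eq_mul]
  push_cast
  field_simp

theorem Admissible.ss (h : D.Admissible) {x : D.Var → ℚ} (hx : D.cx.B x) {z : D.Var → ℂ}
    (h1 : ∀ t, eval z (D.rel t) = 0) (h2 : ∀ v, z v = 0 → x v = 0) : D.Semistable z := by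
  obtain ⟨⟨c, c1, ξ, c2⟩, h0⟩ := hx
  have c3 : ∑ i, (c - D.ck) i = 0 := by
    simp only [Pi.sub_apply, sum_sub_distrib]
    rw [c1, kap_sum, sub_self]
  obtain ⟨N, N0, η, hη⟩ := common_den
    (ξ + Sum.elim (fun i => (c - D.ck) i.succ) 0)
  have e1 : ∀ v, D.phi (fun k => η k) v = N * x v - N * D.kap v := fun v => by
    rw [← funext hη, show (fun k => (N : ℚ) * _) = (N : ℚ) • _ from rfl, map_smul, map_add,
      Lc_phi c3, c2, h.kap_eq, sub_eq_add_neg c, Cx.Lc_add, Cx.Lc_neg]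
    simp
    ring
  have e2 : ∀ v, ∃ n : ℕ, (n : ℚ) = N * x v := fun v => by
    have := e1 v
    rw [phi_int] at this
    obtain ⟨n, hn⟩ := Int.eq_ofNat_of_zero_le (show 0 ≤ (∑ k, η k • D.P k) v + N * D.kap v by
      have := mul_nonneg (Nat.cast_nonneg N : (0 : ℚ) ≤ N) (h0 v)
      exact_mod_cast (show (0 : ℚ) ≤ ((∑ k, η k • D.P k) v : ℤ) + N * D.kap v by linarith))
    refine ⟨n, ?_⟩
    have hn' : (((∑ k, η k • D.P k) v : ℤ) : ℚ) + N * D.kap v = n := by exact_mod_cast hn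
    linarith
  choose μ hμ using e2
  refine ⟨h1, N, N0, monomial (Finsupp.equivFunOnFinite.symm μ) 1,
    isWeightedHomogeneous_monomial _ _ _ ?_, ?_⟩
  · rw [weight_eq, antican_eq, ← Submodule.mkQ_apply _ D.kap, ← map_nsmul, Submodule.mkQ_apply,
      mk_iff]
    exact ⟨η, fun v => by simp [e1, hμ]⟩
  · rw [eval_monomial, one_mul, Finsupp.prod]
    refine prod_ne_zero_iff.2 fun v hv => pow_ne_zero _ fun k => Finsupp.mem_support_iff.1 hv ?_
    have := hμ v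
    rw [h2 v k, mul_zero] at this
    exact_mod_cast this

theorem FreeAt.surj {z : D.Var → ℂ} (hz : D.FreeAt z) {g : D.Var → ℚ} (hg : Cx.IsZ g) :
    ∃ e ∈ D.cx.ZD, ∀ v, z v = 0 → e v = g v := by
  choose y hy using hg
  have h1 : (Submodule.Quotient.mk y : D.K) ∈ Submodule.span ℤ (D.deg '' {v | z v ≠ 0}) := by
    by_contra k
    obtain ⟨χ, hχ⟩ := exists_char ((Submodule.Quotient.mk_eq_zero _).not.2 k)
    have := hz (χ.comp (AddMonoidHom.toMultiplicative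
      (Submodule.span ℤ (D.deg '' {v | z v ≠ 0})).mkQ.toAddMonoidHom)) fun v => by
        by_cases k1 : z v = 0
        · rw [k1, mul_zero]
        · have : (Submodule.span ℤ (D.deg '' {v | z v ≠ 0})).mkQ (D.deg v) = 0 :=
            (Submodule.Quotient.mk_eq_zero _).2 (Submodule.subset_span ⟨v, k1, rfl⟩)
          simp [this]
    exact hχ (DFunLike.congr_fun this (.ofAdd (Submodule.Quotient.mk y)))
  obtain ⟨c, c1, c2⟩ := (Finsupp.mem_span_image_iff_linearCombination ℤ).1 h1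
  rw [Finsupp.linearCombination_apply, Finsupp.sum_fintype _ _ (by simp), ← mk_eq, eq_comm,
    mk_iff] at c2
  obtain ⟨η, hη⟩ := c2
  refine ⟨_, mem_ZD.2 ⟨η, rfl⟩, fun v hv => ?_⟩
  rw [hη, hy, (Finsupp.mem_supported' ℤ c).1 c1 v (by simpa using hv)]
  simp

end APData

end Pool.Agent.Work.MP_2a05c6_ag
end

-- merged part: Pool.Agent.Work.MP_2a05c6_ag.BrB
section
/-!
From the Cox ring data to the combinatorial data: points and the Jacobian matrix.
-/

set_option autoImplicit false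

namespace Pool.Agent.Work.MP_2a05c6_ag

open Finset MvPolynomial

namespace APData

variable {D : APData}

theorem lf_iff {v : D.Var} {i : Fin (D.r + 1)} : D.cx.lf v = some i ↔ ∃ j, v = .inl ⟨i, j⟩ := by
  rcases v with ⟨i', j⟩ | k
  · constructor
    · intro h
      cases h
      exact ⟨j, rfl⟩
    · rintro ⟨j', h⟩
      cases h
      rfl
  · simp [cx]

theorem rel_zero {z : D.Var → ℂ} {ξ : Fin 2 → ℂ} (h : ∀ i, eval z (D.mono i) = det2 (D.a i) ξ)
    (t : Fin (D.r - 1)) : eval z (D.rel t) = 0 := by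
  simp only [rel, tri, map_add, map_mul, eval_C, h, det2]
  ring

theorem eval_mono (z : D.Var → ℂ) (i : Fin (D.r + 1)) :
    eval z (D.mono i) = ∏ j, z (.inl ⟨i, j⟩) ^ D.l i j := by simp [mono]

theorem Admissible.mono_zero (h : D.Admissible) {z : D.Var → ℂ} {i : Fin (D.r + 1)}
    {j : Fin (D.n i)} (hz : z (.inl ⟨i, j⟩) = 0) : eval z (D.mono i) = 0 := by
  rw [eval_mono]
  exact prod_eq_zero (mem_univ j) (by rw [hz, zero_pow (Nat.one_le_iff_ne_zero.1 (h.l_pos i j))])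

open Classical in
theorem Admissible.ptE (h : D.Admissible) {x : D.Var → ℚ} (hx : D.cx.B x) (he : D.cx.Ell x) :
    D.Semistable fun v => if x v = 0 then 0 else 1 := by
  refine h.ss hx (rel_zero (ξ := 0) fun i => ?_) fun v hv => by simpa using hv
  obtain ⟨v, v1, v2⟩ := he i
  obtain ⟨j, rfl⟩ := lf_iff.1 v1
  rw [h.mono_zero (j := j) (if_pos v2)]
  simp [det2]

theorem Admissible.ptL (h : D.Admissible) {x : D.Var → ℚ} (hx : D.cx.B x) {y : Fin (D.r + 1)}
    (he : D.cx.Zl x y) : ∃ z, D.Semistable z ∧ ∀ v, D.cx.In {y} v → x v = 0 → z v = 0 := by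
  classical
  have : ∀ i, ∃ ρ : ℂ, ρ ^ D.l i ⟨0, h.n_pos i⟩ = det2 (D.a i) (D.a y) := fun i =>
    IsAlgClosed.exists_pow_nat_eq _ (h.l_pos _ _)
  choose ρ hρ using this
  refine ⟨fun v => if D.cx.In {y} v then (if x v = 0 then 0 else 1) else
    Sum.elim (fun t => if (t.2 : ℕ) = 0 then ρ t.1 else 1) (fun _ => 1) v,
    h.ss hx (rel_zero (ξ := D.a y) fun i => ?_) fun v hv => ?_, fun v h1 h2 => by simp [h1, h2]⟩
  · by_cases k : i = y
    · obtain ⟨v, v1, v2⟩ := he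
      obtain ⟨j, rfl⟩ := lf_iff.1 v1
      rw [k, h.mono_zero (j := j) (by rw [if_pos (Cx.in_one v1), if_pos v2])]
      simp [det2, mul_comm]
    · have k1 : ∀ j, ¬ D.cx.In {y} (.inl ⟨i, j⟩) := fun j e => k (mem_singleton.1 (e i rfl))
      rw [eval_mono, prod_eq_single ⟨0, h.n_pos i⟩ (fun j _ hj => by
        rw [if_neg (k1 j), Sum.elim_inl, if_neg fun e => hj (Fin.ext e), one_pow]) (by simp),
        if_neg (k1 _), Sum.elim_inl, if_pos rfl, hρ]
  · split_ifs at hv with k1 k2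
    · exact k2
    · exact absurd hv one_ne_zero
    · rcases v with ⟨i, j⟩ | k
      · rw [Sum.elim_inl] at hv
        split_ifs at hv
        · refine absurd (hρ i).symm ?_
          rw [show ρ i = 0 from hv, zero_pow (Nat.one_le_iff_ne_zero.1 (h.l_pos _ _))]
          exact h.a_indep i y fun e => k1 (Cx.in_one (e ▸ rfl))
        · exact absurd hv one_ne_zero
      · exact absurd hv one_ne_zero

theorem grad_zero {z : D.Var → ℂ} {f : MvPolynomial D.Var ℂ} {u u' : D.Var}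
    (h : X u * X u' ∣ f) (h1 : z u = 0) (h2 : z u' = 0) (v : D.Var) : eval z (pderiv v f) = 0 := by
  obtain ⟨g, rfl⟩ := h
  simp [Derivation.leibniz, h1, h2]

theorem Admissible.bad (h : D.Admissible) {z : D.Var → ℂ} {i : Fin (D.r + 1)} {j : Fin (D.n i)}
    (hz : z (.inl ⟨i, j⟩) = 0) (v : D.Var) (hv : eval z (pderiv v (D.mono i)) ≠ 0) :
    D.l i j = 1 ∧ ∀ j', z (.inl ⟨i, j'⟩) = 0 → j' = j := by
  refine ⟨by_contra fun k => hv (grad_zero ?_ hz hz v), fun j' h1 =>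
    by_contra fun k => hv (grad_zero ?_ h1 hz v)⟩
  · have := h.l_pos i j
    rw [← pow_two]
    exact (pow_dvd_pow _ (by omega)).trans (dvd_prod_of_mem _ (mem_univ j))
  · refine Dvd.dvd.trans ?_ (prod_dvd_prod_of_subset {j', j} univ _ (subset_univ _))
    rw [prod_pair k]
    exact mul_dvd_mul (dvd_pow_self _ (Nat.one_le_iff_ne_zero.1 (h.l_pos _ _)))
      (dvd_pow_self _ (Nat.one_le_iff_ne_zero.1 (h.l_pos _ _)))

theorem few_zero {T I W : Type} [Fintype T] [Fintype I] [DecidableEq I] [AddCommGroup W]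
    [Module ℂ W] (G : I → W) (R : T → W) (hR : LinearIndependent ℂ R)
    (h : ∀ t, R t ∈ Submodule.span ℂ (Set.range G)) (h2 : 2 ≤ Fintype.card I)
    (h3 : Fintype.card I ≤ Fintype.card T + 2) : ∃ a b, a ≠ b ∧ ∀ i, i ≠ a → i ≠ b → G i ≠ 0 := by
  classical
  have h4 := linearIndependent_le_span_aux' R hR
    (((univ.filter fun i => G i ≠ 0).image G : Finset W) : Set W) (by
      rintro _ ⟨t, rfl⟩
      refine Submodule.span_le.2 ?_ (h t)
      rintro _ ⟨i, rfl⟩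
      by_cases k : G i = 0
      · rw [k]; exact Submodule.zero_mem _
      · exact Submodule.subset_span (mem_coe.2 (mem_image_of_mem G (by simp [k]))))
  simp only [Finset.coe_sort_coe, Fintype.card_coe] at h4
  have h5 := card_image_le (s := univ.filter fun i => G i ≠ 0) (f := G)
  have h6 := card_add_card_compl (univ.filter fun i => G i ≠ 0)
  obtain ⟨S, S1, -, S2⟩ := exists_subsuperset_card_eq
    (subset_univ (univ.filter fun i => G i ≠ 0)ᶜ) (n := 2) (by omega) h2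
  obtain ⟨a, b, hab, rfl⟩ := card_eq_two.1 S2
  refine ⟨a, b, hab, fun i h7 h8 k => ?_⟩
  have := S1 (mem_compl.2 fun e => (mem_filter.1 e).2 k)
  rw [mem_insert, mem_singleton] at this
  exact this.elim h7 h8

theorem grad_mem (z : D.Var → ℂ) (i j k : Fin (D.r + 1)) :
    (fun v => eval z (pderiv v (D.tri i j k))) ∈
      Submodule.span ℂ (Set.range fun i v => eval z (pderiv v (D.mono i))) := by
  have h1 : ∀ i, (fun v => eval z (pderiv v (D.mono i))) ∈
      Submodule.span ℂ (Set.range fun i v => eval z (pderiv v (D.mono i))) :=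
    fun i => Submodule.subset_span ⟨i, rfl⟩
  have := add_mem (add_mem (Submodule.smul_mem _ (det2 (D.a j) (D.a k)) (h1 i))
    (Submodule.smul_mem _ (det2 (D.a k) (D.a i)) (h1 j)))
    (Submodule.smul_mem _ (det2 (D.a i) (D.a j)) (h1 k))
  convert this using 1
  funext v
  simp only [tri, map_add, pderiv_C_mul, map_mul, eval_C, Pi.add_apply, Pi.smul_apply,
    smul_eq_mul]

theorem SmoothAt.card {z : D.Var → ℂ} (hz : D.SmoothAt z) (hr : 1 ≤ D.r) : ∃ a b, a ≠ b ∧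
    ∀ i, i ≠ a → i ≠ b → ∃ v, eval z (pderiv v (D.mono i)) ≠ 0 := by
  obtain ⟨a, b, hab, k⟩ := few_zero (fun i v => eval z (pderiv v (D.mono i)))
    (fun (t : Fin (D.r - 1)) (v : D.Var) => eval z (pderiv v (D.rel t))) hz
    (fun t => by rw [rel]; exact grad_mem z _ _ _)
    (by rw [Fintype.card_fin]; omega) (by rw [Fintype.card_fin, Fintype.card_fin]; omega)
  exact ⟨a, b, hab, fun i h6 h7 => Function.ne_iff.1 (k i h6 h7)⟩

theorem Admissible.good (h : D.Admissible) (hs : D.SmoothFano) : D.cx.Good where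
  two := by have := h.r_pos; simp; omega
  lpos v i k := by
    obtain ⟨j, rfl⟩ := lf_iff.1 k
    exact h.l_pos i j
  ne i := ⟨.inl ⟨i, ⟨0, h.n_pos i⟩⟩, rfl⟩
  le e he := by
    obtain ⟨η, rfl⟩ := mem_ZD.1 he
    exact ⟨_, rfl⟩
  int e he v := by
    obtain ⟨η, rfl⟩ := mem_ZD.1 he
    exact ⟨_, phi_int η v⟩
  LZ c h1 h2 := by
    choose k hk using h1
    refine mem_ZD.2 ⟨Sum.elim (fun i => k i.succ) 0, ?_⟩
    rw [← Lc_phi h2]
    congr 1
    ext (i | i) <;> simp [hk]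
  LQ c hc := ⟨_, Lc_phi hc⟩
  sat c h1 h2 i := by
    obtain ⟨η, hη⟩ := mem_ZD.1 h2
    rw [← Lc_phi h1] at hη
    have k : ∀ i : Fin D.r, c i.succ = η (.inl i) := fun i => (congrFun (h.inj hη) (.inl i)).symm
    refine Fin.cases ⟨-∑ i, η (.inl i), ?_⟩ (fun i => ⟨_, k i⟩) i
    rw [Fin.sum_univ_succ] at h1
    rw [eq_neg_of_add_eq_zero_left h1]
    simp [k]
  bdd e he h0 := by
    obtain ⟨ξ, rfl⟩ := he
    rw [h.zero h0, map_zero]
  hor v _ := by
    obtain ⟨k, hk⟩ : ∃ k, D.P k v ≠ 0 := by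
      by_contra k
      push Not at k
      exact not_isUnit_zero (h.col_primitive v 0 fun j => by rw [k j])
    exact ⟨_, ⟨Pi.single k 1, rfl⟩, by simpa [phi, Pi.single_apply, -Fintype.sum_sum_type] using hk⟩
  nem := h.nem hs.1.choose_spec
  surjL x y hx hy g hg := by
    obtain ⟨z, z1, z2⟩ := h.ptL hx hy
    obtain ⟨e, e1, e2⟩ := (hs.2 z z1).2.surj hg
    exact ⟨e, e1, fun v h1 h2 => e2 v (z2 v h1 h2)⟩
  surjE x hx he g hg := by
    obtain ⟨e, e1, e2⟩ := (hs.2 _ (h.ptE hx he)).2.surj hg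
    exact ⟨e, e1, fun v h1 => e2 v (if_pos h1)⟩
  jac x hx he := by
    obtain ⟨a, b, hab, k⟩ := (hs.2 _ (h.ptE hx he)).1.card h.r_pos
    refine ⟨a, b, hab, fun z z1 z2 => ?_⟩
    obtain ⟨u, hu⟩ := k z z1 z2
    obtain ⟨v, v1, v2⟩ := he z
    obtain ⟨j, rfl⟩ := lf_iff.1 v1
    obtain ⟨k1, k2⟩ := h.bad (j := j) (if_pos v2) u hu
    refine ⟨_, v1, k1, fun v hv => ⟨fun k3 => ?_, fun k3 => k3 ▸ v2⟩⟩
    obtain ⟨j', rfl⟩ := lf_iff.1 hv
    rw [k2 j' (if_pos k3)]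

theorem Admissible.bound (h : D.Admissible) (hs : D.SmoothFano) :
    Module.finrank ℤ D.K ≤ 2 * (D.s + 1) := by
  have h1 := (h.good hs).goal
  have h2 := h.rank
  have h3 : Module.finrank ℚ D.cx.Dir ≤ D.r + D.s :=
    (LinearMap.finrank_range_le D.phi).trans (by simp)
  rw [Cx.Goal, Fintype.card_fin] at h1
  omega

end APData

end Pool.Agent.Work.MP_2a05c6_ag
end
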